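import Pool.Agent.Lib.MP_b66c90_nt.Spec

/-!
# Step A1: `Z_p(-16)` is a product modulo `p ^ 2`
-/

namespace MPb66c90

open Finset

/-- The terms of the double sum. -/
private def tA (m j : ℕ) : ℚ :=
  (-1) ^ (m + j) * ((2 * m).choose m : ℚ) * ((m + j).choose j : ℚ) * (m.choose j : ℚ) *
    ((2 * (m + j)).choose (m + j) : ℚ) / 4 ^ (2 * m + j)

private lemma tA_central (n : ℕ) :
    ((2 * (n + 1)).choose (n + 1) : ℚ) * (n + 1) = 2 * (2 * n + 1) * ((2 * n).choose n : ℚ) := by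
  have h := Nat.succ_mul_centralBinom_succ n
  simp only [Nat.centralBinom] at h
  have h2 : (((n + 1) * (2 * (n + 1)).choose (n + 1) : ℕ) : ℚ)
      = ((2 * (2 * n + 1) * (2 * n).choose n : ℕ) : ℚ) := by exact_mod_cast h
  push_cast at h2
  linarith

private lemma tA_ch1 (m j : ℕ) :
    ((m + (j + 1)).choose (j + 1) : ℚ) * (j + 1) = (m + j + 1) * ((m + j).choose j : ℚ) := by
  have h := Nat.add_one_mul_choose_eq (m + j) j
  have h2 : (((m + j + 1) * (m + j).choose j : ℕ) : ℚ)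
      = (((m + j + 1).choose (j + 1) * (j + 1) : ℕ) : ℚ) := by exact_mod_cast h
  push_cast at h2
  rw [show m + (j + 1) = m + j + 1 by omega]
  linarith

private lemma tA_ch2 (m j : ℕ) :
    ((m.choose (j + 1) : ℕ) : ℚ) * (j + 1) = (m.choose j : ℚ) * ((m : ℚ) - j) := by
  rcases Nat.lt_or_ge m j with h | h
  · rw [Nat.choose_eq_zero_of_lt h, Nat.choose_eq_zero_of_lt (show m < j + 1 by omega)]
    simp
  · have h1 := Nat.choose_succ_right_eq m j
    have h2 : ((m.choose (j + 1) * (j + 1) : ℕ) : ℚ) = ((m.choose j * (m - j) : ℕ) : ℚ) := by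
      exact_mod_cast h1
    rw [Nat.cast_mul, Nat.cast_mul, Nat.cast_sub h] at h2
    push_cast at h2
    linarith

private lemma tA_ch3 (m j : ℕ) :
    ((m + 1 + j).choose j : ℚ) * (m + 1) = (m + j + 1) * ((m + j).choose j : ℚ) := by
  have h := Nat.choose_mul_succ_eq (m + j) j
  have h2 : (((m + j).choose j * (m + j + 1) : ℕ) : ℚ)
      = (((m + j + 1).choose j * (m + j + 1 - j) : ℕ) : ℚ) := by exact_mod_cast h
  rw [show m + j + 1 - j = m + 1 by omega] at h2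
  push_cast at h2
  rw [show m + 1 + j = m + j + 1 by omega]
  linarith

private lemma tA_ch4 (m j : ℕ) :
    ((m + 1).choose j : ℚ) * ((m : ℚ) + 1 - j) = (m + 1) * (m.choose j : ℚ) := by
  rcases Nat.lt_or_ge (m + 1) j with h | h
  · rw [Nat.choose_eq_zero_of_lt h, Nat.choose_eq_zero_of_lt (show m < j by omega)]
    simp
  · have h1 := Nat.choose_mul_succ_eq m j
    have h2 : ((m.choose j * (m + 1) : ℕ) : ℚ) = (((m + 1).choose j * (m + 1 - j) : ℕ) : ℚ) := by
      exact_mod_cast h1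
    rw [Nat.cast_mul, Nat.cast_mul, Nat.cast_sub h] at h2
    push_cast at h2
    linarith

/-- first ratio -/
private lemma tA_r1 (m j : ℕ) :
    tA m (j + 1) * ((j : ℚ) + 1) ^ 2 = tA m j * ((m : ℚ) - j) * (-1 / 2 - m - j) := by
  have h1 := tA_ch1 m j
  have h2 := tA_ch2 m j
  have h3 := tA_central (m + j)
  have hn : ((m : ℚ) + j + 1) ≠ 0 := by positivity
  push_cast at h3
  have h3' : ((2 * (m + j + 1)).choose (m + j + 1) : ℚ)
      = 2 * (2 * (m + j) + 1) * ((2 * (m + j)).choose (m + j) : ℚ) / (m + j + 1) := by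
    rw [eq_div_iff hn]; linarith
  have hj : ((j : ℚ) + 1) ≠ 0 := by positivity
  have h1' : ((m + (j + 1)).choose (j + 1) : ℚ)
      = (m + j + 1) * ((m + j).choose j : ℚ) / (j + 1) := by
    rw [eq_div_iff hj]; exact h1
  have h2' : ((m.choose (j + 1) : ℕ) : ℚ) = (m.choose j : ℚ) * ((m : ℚ) - j) / (j + 1) := by
    rw [eq_div_iff hj]; exact h2
  unfold tA
  rw [h1', h2', show m + (j + 1) = m + j + 1 by omega, h3', show 2 * m + (j + 1) = 2 * m + j + 1 by
    omega, pow_succ, pow_succ]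
  field_simp
  ring

/-- second ratio -/
private lemma tA_r2 (m j : ℕ) :
    tA (m + 1) j * ((m : ℚ) + 1) * ((m : ℚ) + 1 - j)
      = -(tA m j * (-1 / 2 - m) * (-1 / 2 - m - j)) := by
  have h0 := tA_central m
  have h1 := tA_ch3 m j
  have h2 := tA_ch4 m j
  have h3 := tA_central (m + j)
  have hn : ((m : ℚ) + j + 1) ≠ 0 := by positivity
  push_cast at h3
  have h3' : ((2 * (m + j + 1)).choose (m + j + 1) : ℚ)
      = 2 * (2 * (m + j) + 1) * ((2 * (m + j)).choose (m + j) : ℚ) / (m + j + 1) := by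
    rw [eq_div_iff hn]; linarith
  have hm : ((m : ℚ) + 1) ≠ 0 := by positivity
  have h0' : ((2 * (m + 1)).choose (m + 1) : ℚ)
      = 2 * (2 * m + 1) * ((2 * m).choose m : ℚ) / (m + 1) := by
    rw [eq_div_iff hm]; exact h0
  have h1' : ((m + 1 + j).choose j : ℚ) = (m + j + 1) * ((m + j).choose j : ℚ) / (m + 1) := by
    rw [eq_div_iff hm]; exact h1
  have h5 : tA (m + 1) j = (-1) ^ (m + 1 + j) * ((2 * (m + 1)).choose (m + 1) : ℚ) *
      ((m + 1 + j).choose j : ℚ) * ((m + 1).choose j : ℚ) *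
      ((2 * (m + j + 1)).choose (m + j + 1) : ℚ) / 4 ^ (2 * (m + 1) + j) := by
    unfold tA
    rw [show 2 * (m + 1 + j) = 2 * (m + j + 1) by omega]
    rw [show (2 * (m + j + 1)).choose (m + 1 + j) = (2 * (m + j + 1)).choose (m + j + 1) by
      rw [show m + 1 + j = m + j + 1 by omega]]
  have h6 : tA (m + 1) j * ((m : ℚ) + 1) * ((m : ℚ) + 1 - j)
      = (-1) ^ (m + 1 + j) * ((2 * (m + 1)).choose (m + 1) : ℚ) *
      ((m + 1 + j).choose j : ℚ) * (((m + 1).choose j : ℚ) * ((m : ℚ) + 1 - j)) *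
      ((2 * (m + j + 1)).choose (m + j + 1) : ℚ) / 4 ^ (2 * (m + 1) + j) * ((m : ℚ) + 1) := by
    rw [h5]; ring
  rw [h6, h2, h3', h0', h1']
  unfold tA
  rw [show m + 1 + j = (m + j) + 1 by omega, show 2 * (m + 1) + j = (2 * m + j) + 2 by omega,
    pow_succ, pow_add]
  field_simp
  ring

/-- telescoping -/
private lemma tA_wz (m j : ℕ) :
    ((j : ℚ) + 1) ^ 2 * tA m (j + 1) - (1 / 4 + j) * (1 / 2 + j) * tA m j
      = 1 / 2 * ((m + 1 : ℕ) : ℚ) * (((m + 1 : ℕ) : ℚ) - j) * tA (m + 1) j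
        - 1 / 2 * (m : ℚ) * ((m : ℚ) - j) * tA m j := by
  have h1 := tA_r1 m j
  have h2 := tA_r2 m j
  push_cast
  linear_combination h1 - (1 / 2) * h2

private lemma tA_sum (j N : ℕ) :
    ((j : ℚ) + 1) ^ 2 * ∑ m ∈ range N, tA m (j + 1)
      = (1 / 4 + j) * (1 / 2 + j) * ∑ m ∈ range N, tA m j
        + 1 / 2 * (N : ℚ) * ((N : ℚ) - j) * tA N j := by
  induction N with
  | zero => simp
  | succ N ih =>
    rw [sum_range_succ, sum_range_succ, mul_add, mul_add, ih]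
    have := tA_wz N j
    linear_combination this

variable {p : ℕ} [hp : Fact p.Prime]

private lemma two_inv_mem (h5 : 5 ≤ p) : (2 : ℚ)⁻¹ ∈ Zp p := by
  have := inv_nat_mem_of_lt (p := p) 2 (by norm_num) (by omega)
  simpa using this

private lemma four_inv_mem (h5 : 5 ≤ p) : (4 : ℚ)⁻¹ ∈ Zp p := by
  have := inv_nat_mem_of_lt (p := p) 4 (by norm_num) (by omega)
  simpa using this

private lemma tA_eq_inv (m j : ℕ) : tA m j =
    (((-1) ^ (m + j) : ℤ) : ℚ) * (4 : ℚ)⁻¹ ^ (2 * m + j) * (((2 * m).choose m : ℕ) : ℚ) *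
      (((m + j).choose j : ℕ) : ℚ) * ((m.choose j : ℕ) : ℚ) *
      (((2 * (m + j)).choose (m + j) : ℕ) : ℚ) := by
  unfold tA
  rw [inv_pow]
  push_cast
  field_simp

private lemma tA_mem (h5 : 5 ≤ p) (m j : ℕ) : tA m j ∈ Zp p := by
  rw [tA_eq_inv]
  have h4 := four_inv_mem (p := p) h5
  exact (Zp p).mul_mem ((Zp p).mul_mem ((Zp p).mul_mem ((Zp p).mul_mem ((Zp p).mul_mem
    (int_mem _) ((Zp p).pow_mem h4 _)) (nat_mem _)) (nat_mem _)) (nat_mem _)) (nat_mem _)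

/-- the terms with `p ≤ m + j` vanish modulo `p ^ 2` -/
private lemma tA_zero (h5 : 5 ≤ p) (m j : ℕ) (hm : m < p) (hj : j < p) (h : p ≤ m + j) :
    Cg p 2 (tA m j) 0 := by
  rcases Nat.lt_or_ge m j with hmj | hmj
  · have : tA m j = 0 := by
      unfold tA
      rw [Nat.choose_eq_zero_of_lt hmj]
      simp
    rw [this]
  · have h1 : p ∣ (2 * m).choose m := by
      have := hp.out.dvd_choose_add hm hm (by omega)
      rwa [← two_mul] at this
    have h2 : p ∣ (m + j).choose j := by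
      have := hp.out.dvd_choose_add hj hm (by omega)
      rwa [add_comm j m] at this
    obtain ⟨u, hu⟩ := h1
    obtain ⟨v, hv⟩ := h2
    have h4 := four_inv_mem (p := p) h5
    refine ⟨(((-1) ^ (m + j) : ℤ) : ℚ) * (4 : ℚ)⁻¹ ^ (2 * m + j) * ((u : ℕ) : ℚ) *
      ((v : ℕ) : ℚ) * ((m.choose j : ℕ) : ℚ) * (((2 * (m + j)).choose (m + j) : ℕ) : ℚ), ?_, ?_⟩
    · exact (Zp p).mul_mem ((Zp p).mul_mem ((Zp p).mul_mem ((Zp p).mul_mem ((Zp p).mul_mem
        (int_mem _) ((Zp p).pow_mem h4 _)) (nat_mem _)) (nat_mem _)) (nat_mem _)) (nat_mem _)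
    · rw [tA_eq_inv, hu, hv]
      push_cast
      ring

/-- the boundary term vanishes modulo `p ^ 2` -/
private lemma tA_bd (h5 : 5 ≤ p) (j : ℕ) (hj : j < p) :
    Cg p 2 (1 / 2 * (p : ℚ) * ((p : ℚ) - j) * tA p j) 0 := by
  have h4 := four_inv_mem (p := p) h5
  have h2 := two_inv_mem (p := p) h5
  rcases Nat.eq_zero_or_pos j with h | h
  · subst h
    refine ⟨(2 : ℚ)⁻¹ * tA p 0, (Zp p).mul_mem h2 (tA_mem h5 _ _), ?_⟩
    push_cast
    ring
  · have h1 : p ∣ p.choose j := hp.out.dvd_choose_self (by omega) hj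
    obtain ⟨u, hu⟩ := h1
    refine ⟨(2 : ℚ)⁻¹ * ((p : ℚ) - j) * ((((-1) ^ (p + j) : ℤ) : ℚ) * (4 : ℚ)⁻¹ ^ (2 * p + j) *
      (((2 * p).choose p : ℕ) : ℚ) * (((p + j).choose j : ℕ) : ℚ) * ((u : ℕ) : ℚ) *
      (((2 * (p + j)).choose (p + j) : ℕ) : ℚ)), ?_, ?_⟩
    · exact (Zp p).mul_mem ((Zp p).mul_mem h2 ((Zp p).sub_mem (nat_mem _) (nat_mem _)))
        ((Zp p).mul_mem ((Zp p).mul_mem ((Zp p).mul_mem ((Zp p).mul_mem ((Zp p).mul_mem
        (int_mem _) ((Zp p).pow_mem h4 _)) (nat_mem _)) (nat_mem _)) (nat_mem _)) (nat_mem _))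
    · rw [tA_eq_inv, hu]
      push_cast
      ring

private lemma hyp_succ (a b c z : ℚ) (l : ℕ) :
    hyp a b c z (l + 1) = hyp a b c z l * ((a + l) * (b + l) / ((c + l) * (1 + l)) * z) := by
  unfold hyp
  rw [prod_range_succ]

private lemma hyp_z (a b c z : ℚ) (l : ℕ) : hyp a b c z l = hyp a b c 1 l * z ^ l := by
  induction l with
  | zero => simp [hyp]
  | succ l ih =>
    rw [hyp_succ, hyp_succ, ih]
    ring

private lemma tA_hyp (h5 : 5 ≤ p) (j : ℕ) (hj : j < p) :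
    Cg p 2 (∑ m ∈ range p, tA m j) (hyp (1 / 4) (1 / 2) 1 1 j * ∑ m ∈ range p, tA m 0) := by
  induction j with
  | zero =>
    have : hyp (1 / 4) (1 / 2) 1 1 0 = 1 := by simp [hyp]
    rw [this, one_mul]
  | succ j ih =>
    have ih' := ih (by omega)
    have h2 := two_inv_mem (p := p) h5
    have h4 := four_inv_mem (p := p) h5
    have hj0 : ((j : ℚ) + 1) ≠ 0 := by positivity
    have hu : (((j : ℚ) + 1) ^ 2)⁻¹ ∈ Zp p := by
      rw [← inv_pow]
      have := inv_nat_mem_of_lt (p := p) (j + 1) (by omega) hj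
      push_cast at this
      exact (Zp p).pow_mem this 2
    refine Cg.of_mul_left hu (pow_ne_zero 2 hj0) ?_
    rw [tA_sum]
    have e1 : ((j : ℚ) + 1) ^ 2 * (hyp (1 / 4) (1 / 2) 1 1 (j + 1) * ∑ m ∈ range p, tA m 0)
        = (1 / 4 + j) * (1 / 2 + j) * (hyp (1 / 4) (1 / 2) 1 1 j * ∑ m ∈ range p, tA m 0) + 0 := by
      rw [hyp_succ]
      have hj1 : (1 + (j : ℚ)) ≠ 0 := by positivity
      field_simp
      ring
    rw [e1]
    have hc : (1 / 4 + (j : ℚ)) * (1 / 2 + j) ∈ Zp p := by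
      rw [one_div, one_div]
      exact (Zp p).mul_mem ((Zp p).add_mem h4 (nat_mem _)) ((Zp p).add_mem h2 (nat_mem _))
    exact (ih'.mul_left _ hc).add (tA_bd h5 j (by omega))

private lemma term_eq (m j : ℕ) : (4 : ℚ)⁻¹ ^ j * tA m j
    = ((2 * (m + j)).choose (m + j) : ℚ) *
      (((m + j).choose m * (m.choose j * (2 * m).choose m) : ℕ) : ℚ) / (-16) ^ (m + j) := by
  unfold tA
  have e : (m + j).choose m = (m + j).choose j := by
    rw [← Nat.choose_symm_add]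
  rw [e]
  have h16 : (-16 : ℚ) ^ (m + j) = (-1) ^ (m + j) * 4 ^ (2 * m + j) * 4 ^ j := by
    rw [show (-16 : ℚ) = (-1) * 4 ^ 2 by norm_num, mul_pow, ← pow_mul, mul_assoc, ← pow_add]
    congr 2
    ring
  have hs : ((-1 : ℚ) ^ (m + j)) * (-1) ^ (m + j) = 1 := by
    rw [← mul_pow]; norm_num
  have hs0 : ((-1 : ℚ) ^ (m + j)) ≠ 0 := pow_ne_zero _ (by norm_num)
  rw [h16, inv_pow]
  push_cast
  field_simp
  linear_combination (((2 * m).choose m : ℚ) * ((m + j).choose j : ℚ) * (m.choose j : ℚ) *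
    ((2 * (m + j)).choose (m + j) : ℚ)) * hs

theorem stA1 : StA1 := by
  intro p _ h5
  have h4 := four_inv_mem (p := p) h5
  have hZ : Zs p = ∑ m ∈ range p, ∑ j ∈ range (p - m), (4 : ℚ)⁻¹ ^ j * tA m j := by
    rw [← Finset.sum_range_diag_flip p (fun m j => (4 : ℚ)⁻¹ ^ j * tA m j)]
    unfold Zs
    apply sum_congr rfl
    intro n _
    rw [franel_strehl, Nat.cast_sum, mul_sum, sum_div]
    apply sum_congr rfl
    intro m hm
    rw [mem_range] at hm
    have := term_eq m (n - m)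
    rw [show m + (n - m) = n by omega] at this
    rw [this]
  have hR : T0 p * hsum (1 / 4) (1 / 2) 1 (1 / 4) p
      = ∑ j ∈ range p, (4 : ℚ)⁻¹ ^ j * (hyp (1 / 4) (1 / 2) 1 1 j * ∑ m ∈ range p, tA m 0) := by
    have hT : T0 p = ∑ m ∈ range p, tA m 0 := by
      unfold T0
      apply sum_congr rfl
      intro m _
      have := term_eq m 0
      simp only [pow_zero, one_mul, add_zero, Nat.choose_self, Nat.choose_zero_right] at this
      rw [this]
      ring
    rw [hT]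
    unfold hsum
    rw [mul_sum]
    apply sum_congr rfl
    intro j _
    rw [hyp_z _ _ _ (1 / 4)]
    rw [one_div]
    ring
  rw [hZ, hR]
  have hmid : Cg p 2 (∑ m ∈ range p, ∑ j ∈ range (p - m), (4 : ℚ)⁻¹ ^ j * tA m j)
      (∑ m ∈ range p, ∑ j ∈ range p, (4 : ℚ)⁻¹ ^ j * tA m j) := by
    apply Cg.sum
    intro m hm
    rw [mem_range] at hm
    have e : ∑ j ∈ range p, (4 : ℚ)⁻¹ ^ j * tA m j
        = ∑ j ∈ range (p - m), (4 : ℚ)⁻¹ ^ j * tA m j
          + ∑ j ∈ Ico (p - m) p, (4 : ℚ)⁻¹ ^ j * tA m j :=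
      (sum_range_add_sum_Ico _ (Nat.sub_le p m)).symm
    have h0 : Cg p 2 (∑ j ∈ Ico (p - m) p, (4 : ℚ)⁻¹ ^ j * tA m j) (∑ j ∈ Ico (p - m) p, 0) := by
      apply Cg.sum
      intro j hj
      rw [mem_Ico] at hj
      have := (tA_zero h5 m j hm hj.2 (by omega)).mul_left _ ((Zp p).pow_mem h4 j)
      rwa [mul_zero] at this
    rw [sum_const_zero] at h0
    rw [e]
    have := (Cg.refl (p := p) (n := 2) (∑ j ∈ range (p - m), (4 : ℚ)⁻¹ ^ j * tA m j)).add h0.symm
    rwa [add_zero] at this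
  refine hmid.trans ?_
  rw [sum_comm]
  apply Cg.sum
  intro j hj
  rw [mem_range] at hj
  rw [← mul_sum]
  exact (tA_hyp h5 j hj).mul_left _ ((Zp p).pow_mem h4 j)

end MPb66c90
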