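import Pool.Agent.Lib.MP_b66c90_nt.Spec

/-!
# Step A2: the sum `T0` modulo `p ^ 2`
-/

namespace MPb66c90

open Finset

/-- generalized binomial coefficient -/
def a2c (s : ℚ) (m : ℕ) : ℚ := ∏ i ∈ range m, ((s - i) / (i + 1))

/-- the summand -/
def a2F (s : ℚ) (m : ℕ) : ℚ := (-1) ^ m * a2c s m ^ 2

/-- the sum -/
def a2S (p : ℕ) (s : ℚ) : ℚ := ∑ m ∈ range p, a2F s m

/-- the certificate -/
def a2P (s : ℚ) (m : ℚ) : ℚ :=
  (-2 * m ^ 2 + (6 * s + 10) * m - (5 * s + 7) * (s + 2)) / ((s + 1) * (s + 2) ^ 2)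

lemma a2c_succ (s : ℚ) (m : ℕ) : a2c s (m + 1) = a2c s m * ((s - m) / (m + 1)) := by
  rw [a2c, prod_range_succ, ← a2c]

lemma a2c_shift (s : ℚ) (m : ℕ) :
    a2c s m * ((s + 2) * (s + 1)) = a2c (s + 2) m * ((s + 2 - m) * (s + 1 - m)) := by
  induction m with
  | zero => simp [a2c]
  | succ m ih =>
    rw [a2c_succ, a2c_succ]
    push_cast
    linear_combination ((s - m) / (m + 1)) * ih

lemma a2F_succ (s : ℚ) (m : ℕ) : a2F s (m + 1) = -((s - m) / (m + 1)) ^ 2 * a2F s m := by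
  rw [a2F, a2F, a2c_succ, pow_succ]
  ring

lemma a2_wz (s : ℚ) (m : ℕ) (h1 : s + 1 ≠ 0) (h2 : s + 2 ≠ 0) :
    (s + 2) * a2F (s + 2) m + 4 * (s + 1) * a2F s m =
      ((m + 1 : ℕ) : ℚ) ^ 2 * a2P s ((m + 1 : ℕ) : ℚ) * a2F (s + 2) (m + 1)
        - (m : ℚ) ^ 2 * a2P s m * a2F (s + 2) m := by
  have hm : (m : ℚ) + 1 ≠ 0 := by positivity
  have hs : a2c s m = a2c (s + 2) m * ((s + 2 - m) * (s + 1 - m)) / ((s + 2) * (s + 1)) := by
    rw [eq_div_iff (mul_ne_zero h2 h1), a2c_shift]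
  have hF : a2F s m = a2F (s + 2) m * (((s + 2 - m) * (s + 1 - m)) / ((s + 2) * (s + 1))) ^ 2 := by
    rw [a2F, a2F, hs]
    ring
  rw [a2F_succ, hF, a2P, a2P]
  push_cast
  generalize a2F (s + 2) m = X
  field_simp
  ring

lemma a2_sum (s : ℚ) (p : ℕ) (h1 : s + 1 ≠ 0) (h2 : s + 2 ≠ 0) :
    (s + 2) * a2S p (s + 2) + 4 * (s + 1) * a2S p s =
      (p : ℚ) ^ 2 * a2P s p * a2F (s + 2) p := by
  rw [a2S, a2S, mul_sum, mul_sum, ← sum_add_distrib]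
  rw [sum_congr rfl fun m _ => a2_wz s m h1 h2]
  rw [sum_range_sub (fun m : ℕ => (m : ℚ) ^ 2 * a2P s m * a2F (s + 2) m)]
  simp

lemma a2c_half (m : ℕ) : a2c (-1 / 2) m = ((2 * m).choose m : ℚ) / (-4) ^ m := by
  induction m with
  | zero => simp [a2c]
  | succ m ih =>
    rw [a2c_succ, ih]
    have h1 := Nat.succ_mul_centralBinom_succ m
    rw [Nat.centralBinom_eq_two_mul_choose, Nat.centralBinom_eq_two_mul_choose] at h1
    have h2 : ((m : ℚ) + 1) * ((2 * (m + 1)).choose (m + 1) : ℚ) =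
        2 * (2 * m + 1) * ((2 * m).choose m : ℚ) := by exact_mod_cast h1
    have hm : (m : ℚ) + 1 ≠ 0 := by positivity
    rw [pow_succ]
    field_simp
    linear_combination 2 * h2

lemma a2_T0 (p : ℕ) : T0 p = a2S p (-1 / 2) := by
  rw [T0, a2S]
  refine sum_congr rfl fun m _ => ?_
  rw [a2F, a2c_half, div_pow, ← pow_mul, mul_comm m 2, pow_mul]
  norm_num
  rw [show (-16 : ℚ) = (-1) * 16 by norm_num, mul_pow]
  have h3 : ((-1 : ℚ) ^ m) * (-1) ^ m = 1 := by rw [← mul_pow]; norm_num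
  have h4 : ((-1 : ℚ) ^ m) ≠ 0 := pow_ne_zero _ (by norm_num)
  field_simp
  linear_combination (-(((2 * m).choose m : ℚ) ^ 2)) * h3

/-- membership of the partial products -/
lemma a2c_mem {p : ℕ} [Fact p.Prime] {s : ℚ} (hs : s ∈ Zp p) (m : ℕ) (hm : m < p) :
    a2c s m ∈ Zp p := by
  rw [a2c]
  refine (Zp p).prod_mem fun i hi => ?_
  have hi' := mem_range.1 hi
  rw [div_eq_mul_inv]
  refine (Zp p).mul_mem ((Zp p).sub_mem hs (nat_mem i)) ?_
  have := inv_nat_mem_of_lt (p := p) (i + 1) (by omega) (by omega)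
  push_cast at this
  exact this

lemma a2_half {p : ℕ} [hp : Fact p.Prime] (h2 : 2 < p) : ((p : ℚ) / 2) ∈ Zp p := by
  have := div_nat_mem (p := p) (nat_mem p) 2 (fun h => absurd (Nat.le_of_dvd (by norm_num) h)
    (by omega))
  simpa using this

lemma a2_two_inv {p : ℕ} [hp : Fact p.Prime] (h2 : 2 < p) : ((2 : ℚ))⁻¹ ∈ Zp p := by
  have := inv_nat_mem_of_lt (p := p) 2 (by norm_num) h2
  simpa using this

/-- base case -/
lemma a2_base {p : ℕ} [hp : Fact p.Prime] (h2 : 2 < p) : Cg p 2 (a2S p (-(p : ℚ) / 2)) 1 := by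
  have hp0 : 0 < p := by omega
  obtain ⟨q, hq⟩ : ∃ q, p = q + 1 := ⟨p - 1, by omega⟩
  have h1 : a2S p (-(p : ℚ) / 2) = ∑ m ∈ range q, a2F (-(p : ℚ) / 2) (m + 1) + 1 := by
    rw [a2S]
    nth_rewrite 1 [hq]
    rw [sum_range_succ']
    congr 1
    simp [a2F, a2c]
  rw [h1]
  have h3 : Cg p 2 (∑ m ∈ range q, a2F (-(p : ℚ) / 2) (m + 1)) (∑ m ∈ range q, 0) := by
    refine Cg.sum _ _ _ fun m hm => ?_
    have hm' := mem_range.1 hm
    have hc : a2c (-(p : ℚ) / 2) (m + 1) =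
        p * ((-(2 : ℚ)⁻¹) * (∏ i ∈ range m, ((-(p : ℚ) / 2 - ((i + 1 : ℕ) : ℚ)))) *
          (∏ i ∈ range (m + 1), ((i : ℚ) + 1)⁻¹)) := by
      rw [a2c]
      simp only [div_eq_mul_inv (_ - _)]
      rw [prod_mul_distrib, prod_range_succ']
      push_cast
      ring
    have hmem : ((-(2 : ℚ)⁻¹) * (∏ i ∈ range m, ((-(p : ℚ) / 2 - ((i + 1 : ℕ) : ℚ)))) *
          (∏ i ∈ range (m + 1), ((i : ℚ) + 1)⁻¹)) ∈ Zp p := by
      refine (Zp p).mul_mem ((Zp p).mul_mem ((Zp p).neg_mem (a2_two_inv h2)) ?_) ?_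
      · refine (Zp p).prod_mem fun i _ => (Zp p).sub_mem ?_ (nat_mem _)
        rw [neg_div]
        exact (Zp p).neg_mem (a2_half h2)
      · refine (Zp p).prod_mem fun i hi => ?_
        have hi' := mem_range.1 hi
        have := inv_nat_mem_of_lt (p := p) (i + 1) (by omega) (by omega)
        push_cast at this
        exact this
    refine ⟨(-1) ^ (m + 1) * ((-(2 : ℚ)⁻¹) * (∏ i ∈ range m, ((-(p : ℚ) / 2 - ((i + 1 : ℕ) : ℚ)))) *
          (∏ i ∈ range (m + 1), ((i : ℚ) + 1)⁻¹)) ^ 2, (Zp p).mul_mem ((Zp p).pow_mem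
          ((Zp p).neg_mem (Zp p).one_mem) _) ((Zp p).pow_mem hmem 2), ?_⟩
    rw [a2F, hc]
    ring
  rw [sum_const_zero] at h3
  have := h3.add (Cg.refl (p := p) (n := 2) 1)
  rwa [zero_add] at this

/-- the error term -/
lemma a2_err {p : ℕ} [hp : Fact p.Prime] (h2 : 2 < p) (j : ℕ) (hj : j < p) :
    ∃ z ∈ Zp p, (p : ℚ) ^ 2 * a2F (-(p : ℚ) / 2 + j) p = (p : ℚ) ^ 2 * z := by
  have hs : -(p : ℚ) / 2 + j ∈ Zp p := by
    rw [neg_div]
    exact (Zp p).add_mem ((Zp p).neg_mem (a2_half h2)) (nat_mem j)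
  have hp0 : (p : ℚ) ≠ 0 := by
    have : 0 < p := by omega
    positivity
  have hc : (p : ℚ) * a2c (-(p : ℚ) / 2 + j) p =
      p * ((-(2 : ℚ)⁻¹) * (∏ i ∈ (range p).erase j, ((-(p : ℚ) / 2 + j - i))) *
          (∏ i ∈ range (p - 1), ((i : ℚ) + 1)⁻¹)) := by
    rw [a2c]
    simp only [div_eq_mul_inv (_ - _)]
    rw [prod_mul_distrib, ← mul_prod_erase (range p) _ (mem_range.2 hj)]
    have h3 : ∏ i ∈ range p, ((i : ℚ) + 1)⁻¹ = (∏ i ∈ range (p - 1), ((i : ℚ) + 1)⁻¹) * (p : ℚ)⁻¹ := by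
      obtain ⟨q, rfl⟩ : ∃ q, p = q + 1 := ⟨p - 1, by omega⟩
      rw [prod_range_succ]
      simp
    rw [h3]
    have h4 : -(p : ℚ) / 2 + j - j = p * (-(2 : ℚ)⁻¹) := by ring
    rw [h4]
    field_simp
  have hmem : ((-(2 : ℚ)⁻¹) * (∏ i ∈ (range p).erase j, ((-(p : ℚ) / 2 + j - i))) *
          (∏ i ∈ range (p - 1), ((i : ℚ) + 1)⁻¹)) ∈ Zp p := by
    refine (Zp p).mul_mem ((Zp p).mul_mem ((Zp p).neg_mem (a2_two_inv h2)) ?_) ?_
    · exact (Zp p).prod_mem fun i _ => (Zp p).sub_mem hs (nat_mem _)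
    · refine (Zp p).prod_mem fun i hi => ?_
      have hi' := mem_range.1 hi
      have := inv_nat_mem_of_lt (p := p) (i + 1) (by omega) (by omega)
      push_cast at this
      exact this
  refine ⟨(-1) ^ p * ((-(2 : ℚ)⁻¹) * (∏ i ∈ (range p).erase j, ((-(p : ℚ) / 2 + j - i))) *
          (∏ i ∈ range (p - 1), ((i : ℚ) + 1)⁻¹)) ^ 2, (Zp p).mul_mem ((Zp p).pow_mem
          ((Zp p).neg_mem (Zp p).one_mem) _) ((Zp p).pow_mem hmem 2), ?_⟩
  rw [a2F]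
  calc (p : ℚ) ^ 2 * ((-1) ^ p * a2c (-(p : ℚ) / 2 + j) p ^ 2)
      = (-1) ^ p * ((p : ℚ) * a2c (-(p : ℚ) / 2 + j) p) ^ 2 := by ring
    _ = _ := by rw [hc]; ring

lemma a2_unit {p : ℕ} [hp : Fact p.Prime] (j : ℕ) (h0 : 0 < 2 * j) (hj : 2 * j < p) :
    (-(p : ℚ) / 2 + j)⁻¹ ∈ Zp p ∧ (-(p : ℚ) / 2 + j) ≠ 0 := by
  have h3 : (((2 * (j : ℤ) - p : ℤ) : ℚ)) = 2 * (-(p : ℚ) / 2 + j) := by push_cast; ring
  have h4 : ¬ (p : ℤ) ∣ (2 * (j : ℤ) - p : ℤ) := by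
    intro h
    have h5 : (p : ℤ) ∣ ((2 * j : ℕ) : ℤ) := by
      have := dvd_add h (dvd_refl (p : ℤ))
      push_cast
      simpa using this
    have h6 := Nat.le_of_dvd h0 (Int.natCast_dvd_natCast.1 h5)
    omega
  have h5 : (2 * (j : ℤ) - p : ℤ) ≠ 0 := by
    intro h
    apply h4
    rw [h]
    exact dvd_zero _
  have h6 : (-(p : ℚ) / 2 + j) ≠ 0 := by
    intro h
    rw [h, mul_zero] at h3
    exact h5 (Int.cast_eq_zero.1 h3)
  refine ⟨?_, h6⟩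
  have h7 := div_int_mem (p := p) (x := 2) (ofNat_mem 2) _ h4
  rw [h3] at h7
  have h8 : (-(p : ℚ) / 2 + j)⁻¹ = 2 / (2 * (-(p : ℚ) / 2 + j)) := by
    rw [inv_eq_one_div, div_eq_div_iff h6 (mul_ne_zero two_ne_zero h6)]
    ring
  rw [h8]
  exact h7

lemma a2_step {p : ℕ} [hp : Fact p.Prime] (h2 : 2 < p) (j : ℕ) (hj : 4 * j + 4 < p) :
    Cg p 2 ((-(p : ℚ) / 2 + (2 * j + 2 : ℕ)) * a2S p (-(p : ℚ) / 2 + (2 * j + 2 : ℕ)))
      (-(4 * (-(p : ℚ) / 2 + (2 * j + 1 : ℕ)) * a2S p (-(p : ℚ) / 2 + (2 * j : ℕ)))) := by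
  obtain ⟨hu1, hn1⟩ := a2_unit (p := p) (2 * j + 1) (by omega) (by omega)
  obtain ⟨hu2, hn2⟩ := a2_unit (p := p) (2 * j + 2) (by omega) (by omega)
  obtain ⟨z, hz, hze⟩ := a2_err h2 (2 * j + 2) (by omega)
  have hs : -(p : ℚ) / 2 + (2 * j : ℕ) ∈ Zp p := by
    rw [neg_div]
    exact (Zp p).add_mem ((Zp p).neg_mem (a2_half h2)) (nat_mem _)
  have e1 : -(p : ℚ) / 2 + (2 * j + 1 : ℕ) = (-(p : ℚ) / 2 + (2 * j : ℕ)) + 1 := by
    push_cast; ring
  have e2 : -(p : ℚ) / 2 + (2 * j + 2 : ℕ) = (-(p : ℚ) / 2 + (2 * j : ℕ)) + 2 := by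
    push_cast; ring
  rw [e1] at hu1 hn1
  rw [e2] at hu2 hn2 hze
  rw [e1, e2]
  generalize -(p : ℚ) / 2 + (2 * j : ℕ) = s at *
  have h3 := a2_sum s p hn1 hn2
  have h4 : a2P s p ∈ Zp p := by
    rw [a2P, div_eq_mul_inv, mul_inv, ← inv_pow]
    have t2 : (2 : ℚ) ∈ Zp p := ofNat_mem 2
    have t5 : (5 : ℚ) ∈ Zp p := ofNat_mem 5
    have t6 : (6 : ℚ) ∈ Zp p := ofNat_mem 6
    have t7 : (7 : ℚ) ∈ Zp p := ofNat_mem 7
    have t10 : (10 : ℚ) ∈ Zp p := ofNat_mem 10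
    have tp : (p : ℚ) ∈ Zp p := nat_mem p
    refine (Zp p).mul_mem ((Zp p).sub_mem ((Zp p).add_mem ((Zp p).mul_mem ((Zp p).neg_mem t2)
      ((Zp p).pow_mem tp 2)) ((Zp p).mul_mem ((Zp p).add_mem ((Zp p).mul_mem t6 hs) t10) tp))
      ((Zp p).mul_mem ((Zp p).add_mem ((Zp p).mul_mem t5 hs) t7) ((Zp p).add_mem hs t2)))
      ((Zp p).mul_mem hu1 ((Zp p).pow_mem hu2 2))
  refine ⟨a2P s p * z, (Zp p).mul_mem h4 hz, ?_⟩
  linear_combination h3 + a2P s p * hze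

theorem a2_main {p : ℕ} [hp : Fact p.Prime] (h2 : 2 < p) (j : ℕ) (hj : 4 * j < p) :
    Cg p 2 (a2S p (-(p : ℚ) / 2 + (2 * j : ℕ))) ((-1) ^ j * (2 * j).choose j *
      (1 - (p : ℚ) / 2 * (harmonic (2 * j) - harmonic j))) := by
  induction j with
  | zero =>
    simpa using a2_base h2
  | succ j ih =>
    have ih' := ih (by omega)
    have h3 := a2_step h2 j (by omega)
    obtain ⟨hu2, hn2⟩ := a2_unit (p := p) (2 * j + 2) (by omega) (by omega)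
    have e : 2 * (j + 1) = 2 * j + 2 := by ring
    rw [e]
    refine Cg.of_mul_left hu2 hn2 (h3.trans ?_)
    have hs : -(p : ℚ) / 2 + (2 * j + 1 : ℕ) ∈ Zp p := by
      rw [neg_div]
      exact (Zp p).add_mem ((Zp p).neg_mem (a2_half h2)) (nat_mem _)
    have t4 : (4 : ℚ) ∈ Zp p := ofNat_mem 4
    have h5 := (ih'.mul_left _ ((Zp p).mul_mem t4 hs)).neg
    refine h5.trans ?_
    have hH : ∀ m : ℕ, m < p → harmonic m ∈ Zp p := by
      intro m hm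
      rw [harmonic]
      refine (Zp p).sum_mem fun i hi => ?_
      have hi' := mem_range.1 hi
      exact inv_nat_mem_of_lt (i + 1) (by omega) (by omega)
    have g1 := Nat.succ_mul_centralBinom_succ j
    rw [Nat.centralBinom_eq_two_mul_choose, Nat.centralBinom_eq_two_mul_choose] at g1
    have g2 : ((j : ℚ) + 1) * ((2 * j + 2).choose (j + 1) : ℚ) =
        2 * (2 * j + 1) * ((2 * j).choose j : ℚ) := by exact_mod_cast g1
    have hj1 : (j : ℚ) + 1 ≠ 0 := by positivity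
    have hj2 : 2 * (j : ℚ) + 1 ≠ 0 := by positivity
    have g3 : ((2 * j + 2).choose (j + 1) : ℚ) =
        2 * (2 * j + 1) * ((2 * j).choose j : ℚ) / (j + 1) := by
      rw [eq_div_iff hj1]
      linear_combination g2
    have g4 : harmonic (2 * j + 2) = harmonic (2 * j) + (2 * (j : ℚ) + 1)⁻¹ +
        (2 * (j : ℚ) + 2)⁻¹ := by
      rw [harmonic_succ, harmonic_succ]
      push_cast
      ring
    have g5 : harmonic (j + 1) = harmonic j + ((j : ℚ) + 1)⁻¹ := by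
      rw [harmonic_succ]
      push_cast
      ring
    have m1 := hH (2 * j) (by omega)
    have m2 := hH j (by omega)
    have i1 : (2 * (j : ℚ) + 1)⁻¹ ∈ Zp p := by
      have := inv_nat_mem_of_lt (p := p) (2 * j + 1) (by omega) (by omega)
      push_cast at this
      exact this
    have i2 : ((j : ℚ) + 1)⁻¹ ∈ Zp p := by
      have := inv_nat_mem_of_lt (p := p) (j + 1) (by omega) (by omega)
      push_cast at this
      exact this
    have th := a2_two_inv h2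
    have hB : (-1 : ℚ) ^ j * ((2 * j).choose j : ℚ) ∈ Zp p :=
      (Zp p).mul_mem ((Zp p).pow_mem ((Zp p).neg_mem (Zp p).one_mem) _) (nat_mem _)
    have hj21 : (2 * (j : ℚ) + 1) ∈ Zp p := by
      have := nat_mem (p := p) (2 * j + 1)
      push_cast at this
      exact this
    refine Cg.symm ⟨-((-1 : ℚ) ^ j * ((2 * j).choose j : ℚ)) *
      ((2 * (j : ℚ) + 1) * (2⁻¹ * ((j : ℚ) + 1)⁻¹) *
        (harmonic (2 * j) - harmonic j + (2 * (j : ℚ) + 1)⁻¹ * (2⁻¹ * ((j : ℚ) + 1)⁻¹))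
        - (harmonic (2 * j) - harmonic j)), ?_, ?_⟩
    · exact (Zp p).mul_mem ((Zp p).neg_mem hB) ((Zp p).sub_mem ((Zp p).mul_mem ((Zp p).mul_mem hj21
        ((Zp p).mul_mem th i2)) ((Zp p).add_mem ((Zp p).sub_mem m1 m2) ((Zp p).mul_mem i1
        ((Zp p).mul_mem th i2)))) ((Zp p).sub_mem m1 m2))
    · rw [g3, g4, g5]
      push_cast
      rw [pow_succ]
      have hj3 : 2 * (j : ℚ) + 2 ≠ 0 := by positivity
      field_simp
      ring

theorem stA2 : StA2 := by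
  intro p k hp hpk
  have hp2 := hp.out.two_le
  have hk : 0 < k := by
    rcases Nat.eq_zero_or_pos k with h | h
    · subst h; omega
    · exact h
  have := a2_main (p := p) (by omega) k (by omega)
  rw [a2_T0]
  have e : -(p : ℚ) / 2 + (2 * k : ℕ) = -1 / 2 := by
    rw [hpk]
    push_cast
    ring
  rwa [e] at this

end MPb66c90
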