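import Pool.Agent.Lib.MP_b66c90_nt.Spec

/-!
# Truncated hypergeometric sums are affine functions of the parameters modulo `p ^ 2`
-/

namespace MPb66c90

open Finset

variable {p : ℕ} [hp : Fact p.Prime]

/-- The values of the terms are in `Zp p`. -/
private lemma aff_hyp_mem {a0 b0 z : ℚ} (ha0 : a0 ∈ Zp p) (hb0 : b0 ∈ Zp p) (hz : z ∈ Zp p) :
    ∀ l : ℕ, l < p → hyp a0 b0 1 z l ∈ Zp p := by
  intro l hl
  refine (Zp p).prod_mem fun i hi => ?_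
  have hi' : i < l := mem_range.1 hi
  have hu : ((((i + 1 : ℕ) : ℚ)))⁻¹ ∈ Zp p := inv_nat_mem_of_lt (i + 1) (by omega) (by omega)
  have e : (a0 + i) * (b0 + i) / ((1 + i) * (1 + i)) * z =
      (a0 + (i : ℚ)) * (b0 + (i : ℚ)) * (((((i + 1 : ℕ) : ℚ)))⁻¹ * ((((i + 1 : ℕ) : ℚ)))⁻¹) * z := by
    have h0 : (1 + (i : ℚ)) ≠ 0 := by positivity
    push_cast
    rw [add_comm (i : ℚ) 1]
    field_simp
  rw [e]
  exact (Zp p).mul_mem ((Zp p).mul_mem ((Zp p).mul_mem ((Zp p).add_mem ha0 (nat_mem i))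
    ((Zp p).add_mem hb0 (nat_mem i))) ((Zp p).mul_mem hu hu)) hz

/-- One step of the induction, as a polynomial identity. -/
private lemma aff_step (h α β a1 b1 c1 A B C u w : ℚ) (hh : h ∈ Zp p) (hα : α ∈ Zp p)
    (hβ : β ∈ Zp p) (ha1 : a1 ∈ Zp p) (hb1 : b1 ∈ Zp p) (hc1 : c1 ∈ Zp p) (hA : A ∈ Zp p)
    (hB : B ∈ Zp p) (hC : C ∈ Zp p) (hu : u ∈ Zp p) (hw : w ∈ Zp p) :
    Cg p 2 ((h + p * (a1 * A + b1 * B + c1 * C)) *
        ((α + p * a1) * (β + p * b1) * (u ^ 2 * w) * (1 - p * (c1 * u))))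
      (h * (α * β * (u ^ 2 * w)) + p * (a1 * (u ^ 2 * w * (α * β * A + h * β)) +
        b1 * (u ^ 2 * w * (α * β * B + h * α)) +
        c1 * (u ^ 2 * w * (α * β * C - h * u * (α * β))))) := by
  lift h to Zp p using hh
  lift α to Zp p using hα
  lift β to Zp p using hβ
  lift a1 to Zp p using ha1
  lift b1 to Zp p using hb1
  lift c1 to Zp p using hc1
  lift A to Zp p using hA
  lift B to Zp p using hB
  lift C to Zp p using hC
  lift u to Zp p using hu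
  lift w to Zp p using hw
  set S : Zp p := a1 * A + b1 * B + c1 * C with hS
  set P0 : Zp p := h * (α * β) with hP0
  set P1 : Zp p := S * (α * β) + h * (a1 * β + b1 * α) with hP1
  set P2 : Zp p := S * (a1 * β + b1 * α) + h * (a1 * b1) + p * (S * (a1 * b1)) with hP2
  refine ⟨((u ^ 2 * w * (P2 - P1 * (c1 * u) - p * (P2 * (c1 * u))) : Zp p) : ℚ), Subtype.prop _, ?_⟩
  rw [hP2, hP1, hS]
  push_cast
  ring

private lemma aff_hyp {a0 b0 z : ℚ} (ha0 : a0 ∈ Zp p) (hb0 : b0 ∈ Zp p) (hz : z ∈ Zp p) :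
    ∀ l : ℕ, l < p → ∃ A ∈ Zp p, ∃ B ∈ Zp p, ∃ C ∈ Zp p, ∀ a1 ∈ Zp p, ∀ b1 ∈ Zp p, ∀ c1 ∈ Zp p,
      Cg p 2 (hyp (a0 + p * a1) (b0 + p * b1) (1 + p * c1) z l)
        (hyp a0 b0 1 z l + p * (a1 * A + b1 * B + c1 * C)) := by
  intro l
  induction l with
  | zero =>
    intro _
    refine ⟨0, (Zp p).zero_mem, 0, (Zp p).zero_mem, 0, (Zp p).zero_mem, fun a1 _ b1 _ c1 _ => ?_⟩
    have e : hyp (a0 + p * a1) (b0 + p * b1) (1 + p * c1) z 0 =
        hyp a0 b0 1 z 0 + p * (a1 * 0 + b1 * 0 + c1 * 0) := by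
      simp [hyp]
    rw [e]
  | succ l ih =>
    intro hl
    obtain ⟨A, hA, B, hB, C, hC, h⟩ := ih (by omega)
    have hu : ((((l + 1 : ℕ) : ℚ)))⁻¹ ∈ Zp p := inv_nat_mem_of_lt (l + 1) (by omega) hl
    set u : ℚ := (((l + 1 : ℕ) : ℚ))⁻¹ with hu'
    have hu0 : u = (1 + (l : ℚ))⁻¹ := by
      rw [hu']
      push_cast
      rw [add_comm]
    have h0 : (1 + (l : ℚ)) ≠ 0 := by positivity
    have hH := aff_hyp_mem ha0 hb0 hz l (by omega)
    have hα : a0 + (l : ℚ) ∈ Zp p := (Zp p).add_mem ha0 (nat_mem l)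
    have hβ : b0 + (l : ℚ) ∈ Zp p := (Zp p).add_mem hb0 (nat_mem l)
    set α : ℚ := a0 + (l : ℚ) with hα'
    set β : ℚ := b0 + (l : ℚ) with hβ'
    set H : ℚ := hyp a0 b0 1 z l with hH'
    have hw : u ^ 2 * z ∈ Zp p := (Zp p).mul_mem ((Zp p).pow_mem hu 2) hz
    refine ⟨u ^ 2 * z * (α * β * A + H * β), ?_, u ^ 2 * z * (α * β * B + H * α), ?_,
      u ^ 2 * z * (α * β * C - H * u * (α * β)), ?_, ?_⟩
    · exact (Zp p).mul_mem hw ((Zp p).add_mem ((Zp p).mul_mem ((Zp p).mul_mem hα hβ) hA)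
        ((Zp p).mul_mem hH hβ))
    · exact (Zp p).mul_mem hw ((Zp p).add_mem ((Zp p).mul_mem ((Zp p).mul_mem hα hβ) hB)
        ((Zp p).mul_mem hH hα))
    · exact (Zp p).mul_mem hw ((Zp p).sub_mem ((Zp p).mul_mem ((Zp p).mul_mem hα hβ) hC)
        ((Zp p).mul_mem ((Zp p).mul_mem hH hu) ((Zp p).mul_mem hα hβ)))
    · intro a1 ha1 b1 hb1 c1 hc1
      have hcu : c1 * u ∈ Zp p := (Zp p).mul_mem hc1 hu
      have hpa : (p : ℚ) * a1 ∈ Zp p := (Zp p).mul_mem (nat_mem p) ha1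
      have hpb : (p : ℚ) * b1 ∈ Zp p := (Zp p).mul_mem (nat_mem p) hb1
      have e1 : hyp a0 b0 1 z (l + 1) = H * (α * β * (u ^ 2 * z)) := by
        rw [hyp, prod_range_succ, ← hyp, ← hH', ← hα', ← hβ', hu0]
        field_simp
      have e2 : hyp (a0 + p * a1) (b0 + p * b1) (1 + p * c1) z (l + 1) =
          hyp (a0 + p * a1) (b0 + p * b1) (1 + p * c1) z l *
            ((α + p * a1) * (β + p * b1) * (u ^ 2 * z) * (1 + (p : ℚ) * (c1 * u))⁻¹) := by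
        have h1 := one_add_ne_zero hcu
        have h2 : 1 + (p : ℚ) * c1 + l = (1 + (l : ℚ)) * (1 + (p : ℚ) * (c1 * u)) := by
          rw [hu0]
          field_simp
          ring
        rw [hyp, prod_range_succ, ← hyp, h2, hα', hβ']
        have h3 : u ^ 2 = ((1 + (l : ℚ)) * (1 + (l : ℚ)))⁻¹ := by
          rw [hu0]
          field_simp
        rw [h3]
        field_simp
        ring
      rw [e1, e2]
      refine Cg.trans ?_ (aff_step H α β a1 b1 c1 A B C u z hH hα hβ ha1 hb1 hc1 hA hB hC hu hz)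
      have hF : (α + (p : ℚ) * a1) * (β + p * b1) * (u ^ 2 * z) ∈ Zp p :=
        (Zp p).mul_mem ((Zp p).mul_mem ((Zp p).add_mem hα hpa) ((Zp p).add_mem hβ hpb)) hw
      refine (h a1 ha1 b1 hb1 c1 hc1).mul ((cg_inv_one_add hcu).mul_left _ hF) ?_ ?_
      · exact (Zp p).add_mem hH ((Zp p).mul_mem (nat_mem p) ((Zp p).add_mem ((Zp p).add_mem
          ((Zp p).mul_mem ha1 hA) ((Zp p).mul_mem hb1 hB)) ((Zp p).mul_mem hc1 hC)))
      · exact (Zp p).mul_mem hF (one_add_inv_mem hcu)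

private lemma aff_hsum {a0 b0 z : ℚ} (ha0 : a0 ∈ Zp p) (hb0 : b0 ∈ Zp p) (hz : z ∈ Zp p) :
    ∀ L : ℕ, L ≤ p → ∃ A ∈ Zp p, ∃ B ∈ Zp p, ∃ C ∈ Zp p, ∀ a1 ∈ Zp p, ∀ b1 ∈ Zp p, ∀ c1 ∈ Zp p,
      Cg p 2 (hsum (a0 + p * a1) (b0 + p * b1) (1 + p * c1) z L)
        (hsum a0 b0 1 z L + p * (a1 * A + b1 * B + c1 * C)) := by
  intro L
  induction L with
  | zero =>
    intro _
    refine ⟨0, (Zp p).zero_mem, 0, (Zp p).zero_mem, 0, (Zp p).zero_mem, fun a1 _ b1 _ c1 _ => ?_⟩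
    have e : hsum (a0 + p * a1) (b0 + p * b1) (1 + p * c1) z 0 =
        hsum a0 b0 1 z 0 + p * (a1 * 0 + b1 * 0 + c1 * 0) := by
      simp [hsum]
    rw [e]
  | succ L ih =>
    intro hL
    obtain ⟨A, hA, B, hB, C, hC, h⟩ := ih (by omega)
    obtain ⟨A', hA', B', hB', C', hC', h'⟩ := aff_hyp ha0 hb0 hz L (by omega)
    refine ⟨A + A', (Zp p).add_mem hA hA', B + B', (Zp p).add_mem hB hB', C + C',
      (Zp p).add_mem hC hC', fun a1 ha1 b1 hb1 c1 hc1 => ?_⟩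
    have h1 := (h a1 ha1 b1 hb1 c1 hc1).add (h' a1 ha1 b1 hb1 c1 hc1)
    rw [hsum, hsum, sum_range_succ, sum_range_succ, ← hsum, ← hsum]
    have e : hsum a0 b0 1 z L + hyp a0 b0 1 z L +
        p * (a1 * (A + A') + b1 * (B + B') + c1 * (C + C')) =
        hsum a0 b0 1 z L + p * (a1 * A + b1 * B + c1 * C) +
        (hyp a0 b0 1 z L + p * (a1 * A' + b1 * B' + c1 * C')) := by ring
    rw [e]
    exact h1

theorem stAff : StAff := by
  intro p _ a0 ha0 b0 hb0 z hz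
  exact aff_hsum ha0 hb0 hz p le_rfl

end MPb66c90
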