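import Mathlib

/-!
Franel numbers: recurrence and the formula with central binomial coefficients.
-/

open Finset

namespace MPb66c90

/-- The Franel numbers. -/
def franel (n : ℕ) : ℕ := ∑ k ∈ range (n + 1), (n.choose k) ^ 3

/-- extend the range of summation -/
lemma franel_eq (n N : ℕ) (h : n + 1 ≤ N) : franel n = ∑ k ∈ range N, (n.choose k) ^ 3 := by
  unfold franel
  apply Finset.sum_subset
  · intro x hx
    simp only [mem_range] at hx ⊢
    omega
  · intro x _ hx
    simp only [mem_range, not_lt] at hx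
    rw [Nat.choose_eq_zero_of_lt (by omega)]
    rfl

lemma choose_rel1 (n k : ℕ) (hk : k ≤ n + 2) :
    (((n + 1).choose k : ℕ) : ℚ) * (n + 2) = ((n + 2).choose k : ℕ) * ((n : ℚ) + 2 - k) := by
  have h := Nat.choose_mul_succ_eq (n + 1) k
  have h2 : (((n + 1).choose k * (n + 1 + 1) : ℕ) : ℚ)
      = (((n + 1 + 1).choose k * (n + 1 + 1 - k) : ℕ) : ℚ) := by
    exact_mod_cast h
  rw [Nat.cast_mul, Nat.cast_mul, Nat.cast_sub (by omega)] at h2
  push_cast at h2
  linarith [h2]

lemma choose_rel2 (n k : ℕ) (hk : k ≤ n + 1) :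
    ((n.choose k : ℕ) : ℚ) * (n + 1) = ((n + 1).choose k : ℕ) * ((n : ℚ) + 1 - k) := by
  have h := Nat.choose_mul_succ_eq n k
  have h2 : ((n.choose k * (n + 1) : ℕ) : ℚ)
      = (((n + 1).choose k * (n + 1 - k) : ℕ) : ℚ) := by
    exact_mod_cast h
  rw [Nat.cast_mul, Nat.cast_mul, Nat.cast_sub (by omega)] at h2
  push_cast at h2
  linarith [h2]

lemma choose_rel3 (n k : ℕ) (hk : k ≤ n + 2) :
    (((n + 2).choose (k + 1) : ℕ) : ℚ) * (k + 1) = ((n + 2).choose k : ℕ) * ((n : ℚ) + 2 - k) := by
  have h := Nat.choose_succ_right_eq (n + 2) k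
  have h2 : (((n + 2).choose (k + 1) * (k + 1) : ℕ) : ℚ)
      = (((n + 2).choose k * (n + 2 - k) : ℕ) : ℚ) := by
    exact_mod_cast h
  rw [Nat.cast_mul, Nat.cast_mul, Nat.cast_sub (by omega)] at h2
  push_cast at h2
  linarith [h2]

/-- the polynomial of the certificate -/
def q (n k : ℚ) : ℚ :=
  (-14 * n ^ 5 - 102 * n ^ 4 - 290 * n ^ 3 - 402 * n ^ 2 - 272 * n - 72)
    + (27 * n ^ 4 + 147 * n ^ 3 + 291 * n ^ 2 + 249 * n + 78) * k
    + (-18 * n ^ 3 - 66 * n ^ 2 - 78 * n - 30) * k ^ 2 + (4 * n ^ 2 + 8 * n + 4) * k ^ 3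

lemma q_id (n k : ℚ) : (n + 2 - k) ^ 3 * q n (k + 1) - k ^ 3 * q n k
    = (n + 2) ^ 5 * (n + 1) ^ 3 - (7 * n ^ 2 + 21 * n + 16) * (n + 1) ^ 3 * (n + 2 - k) ^ 3
      - 8 * (n + 1) ^ 2 * (n + 2 - k) ^ 3 * (n + 1 - k) ^ 3 := by
  unfold q
  ring

lemma alg_step (n k a b c d Q0 Q1 : ℚ) (h1 : b * (n + 2) = c * (n + 2 - k))
    (h2 : a * (n + 1) = b * (n + 1 - k)) (h3 : d * (k + 1) = c * (n + 2 - k))
    (hq : (n + 2 - k) ^ 3 * Q1 - k ^ 3 * Q0
      = (n + 2) ^ 5 * (n + 1) ^ 3 - (7 * n ^ 2 + 21 * n + 16) * (n + 1) ^ 3 * (n + 2 - k) ^ 3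
      - 8 * (n + 1) ^ 2 * (n + 2 - k) ^ 3 * (n + 1 - k) ^ 3) :
    ((n + 1) * (n + 2)) ^ 3 * ((n + 2) ^ 2 * c ^ 3 - (7 * n ^ 2 + 21 * n + 16) * b ^ 3
      - 8 * (n + 1) ^ 2 * a ^ 3)
    = (d * (k + 1)) ^ 3 * Q1 - (c * k) ^ 3 * Q0 := by
  have hb : ((n + 1) * (n + 2)) ^ 3 * b ^ 3 = (n + 1) ^ 3 * (c * (n + 2 - k)) ^ 3 := by
    rw [← h1]; ring
  have ha : ((n + 1) * (n + 2)) ^ 3 * a ^ 3 = (c * (n + 2 - k) * (n + 1 - k)) ^ 3 := by
    rw [← h1]
    have : b * (n + 2) * (n + 1 - k) = (a * (n + 1)) * (n + 2) := by rw [h2]; ring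
    rw [this]; ring
  rw [h3]
  linear_combination (-(7 * n ^ 2 + 21 * n + 16)) * hb - 8 * (n + 1) ^ 2 * ha + (-c ^ 3) * hq

theorem franel_rec (n : ℕ) :
    ((n : ℤ) + 2) ^ 2 * franel (n + 2)
      = (7 * (n : ℤ) ^ 2 + 21 * n + 16) * franel (n + 1) + 8 * ((n : ℤ) + 1) ^ 2 * franel n := by
  have e2 := franel_eq (n + 2) (n + 3) le_rfl
  have e1 := franel_eq (n + 1) (n + 3) (by omega)
  have e0 := franel_eq n (n + 3) (by omega)
  have key : ((n + 1 : ℚ) * (n + 2)) ^ 3 * (((n : ℚ) + 2) ^ 2 * franel (n + 2)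
      - (7 * (n : ℚ) ^ 2 + 21 * n + 16) * franel (n + 1) - 8 * ((n : ℚ) + 1) ^ 2 * franel n) = 0 := by
    rw [e2, e1, e0]
    push_cast
    rw [Finset.mul_sum, Finset.mul_sum, Finset.mul_sum, ← Finset.sum_sub_distrib,
      ← Finset.sum_sub_distrib, Finset.mul_sum]
    have hstep : ∀ k ∈ range (n + 3),
        ((n + 1 : ℚ) * (n + 2)) ^ 3 * ((n + 2 : ℚ) ^ 2 * ((n + 2).choose k : ℚ) ^ 3
          - (7 * (n : ℚ) ^ 2 + 21 * n + 16) * ((n + 1).choose k : ℚ) ^ 3
          - 8 * ((n : ℚ) + 1) ^ 2 * (n.choose k : ℚ) ^ 3)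
        = (fun j : ℕ => (((n + 2).choose j : ℚ) * j) ^ 3 * q n j) (k + 1)
          - (fun j : ℕ => (((n + 2).choose j : ℚ) * j) ^ 3 * q n j) k := by
      intro k hk
      rw [mem_range] at hk
      have r1 := choose_rel1 n k (by omega)
      have r3 := choose_rel3 n k (by omega)
      have r2 : ((n.choose k : ℕ) : ℚ) * (n + 1) = ((n + 1).choose k : ℕ) * ((n : ℚ) + 1 - k) := by
        rcases Nat.lt_or_ge (n + 1) k with h | h
        · rw [Nat.choose_eq_zero_of_lt (by omega), Nat.choose_eq_zero_of_lt (by omega)]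
          simp
        · exact choose_rel2 n k h
      have := alg_step n k _ _ _ _ _ _ r1 r2 r3 (q_id n k)
      simp only [Nat.cast_add, Nat.cast_one]
      exact this
    rw [Finset.sum_congr rfl hstep,
      Finset.sum_range_sub (fun j : ℕ => (((n + 2).choose j : ℚ) * j) ^ 3 * q n j) (n + 3)]
    simp
  have hne : ((n + 1 : ℚ) * (n + 2)) ^ 3 ≠ 0 := by positivity
  have h0 := (mul_eq_zero.mp key).resolve_left hne
  have : (((n : ℤ) + 2) ^ 2 * franel (n + 2) : ℚ)
      = (7 * (n : ℤ) ^ 2 + 21 * n + 16) * franel (n + 1) + 8 * ((n : ℤ) + 1) ^ 2 * franel n := by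
    push_cast
    linarith [h0]
  exact_mod_cast this

lemma choose_mul_choose_central (n k : ℕ) (hk : k ≤ n) :
    k.choose (n - k) * (2 * k).choose k = n.choose k * (2 * k).choose n := by
  rcases Nat.lt_or_ge (2 * k) n with h | h
  · rw [Nat.choose_eq_zero_of_lt (show 2 * k < n from h),
      Nat.choose_eq_zero_of_lt (show k < n - k by omega)]
    ring
  · have := Nat.choose_mul (n := 2 * k) (k := n) (s := k) hk
    -- (2k).choose n * n.choose k = (2k).choose k * (2k-k).choose (n-k)
    have e : 2 * k - k = k := by omega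
    rw [e] at this
    rw [mul_comm (k.choose (n - k)), ← this, mul_comm]


lemma choose_comm_mul (n m i : ℕ) (hm : m ≤ n) :
    n.choose m * (n - m).choose i = n.choose i * (n - i).choose m := by
  rcases Nat.lt_or_ge n (m + i) with h | h
  · rw [Nat.choose_eq_zero_of_lt (show n - m < i by omega)]
    rcases Nat.lt_or_ge n i with h2 | h2
    · rw [Nat.choose_eq_zero_of_lt h2]
      ring
    · rw [Nat.choose_eq_zero_of_lt (show n - i < m by omega)]
      ring
  · have h1 := Nat.choose_mul (n := n) (k := m + i) (s := m) (by omega)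
    have h2 := Nat.choose_mul (n := n) (k := m + i) (s := i) (by omega)
    have e1 : m + i - m = i := by omega
    have e2 : m + i - i = m := by omega
    rw [e1] at h1
    rw [e2] at h2
    rw [← h1, ← h2, Nat.choose_symm_add]

lemma vander (n i : ℕ) (hi : i ≤ n) :
    ∑ m ∈ range (n + 1), (n - i).choose m * i.choose m = n.choose i := by
  have h1 : ∑ m ∈ range (n + 1), (n - i).choose m * i.choose m
      = ∑ m ∈ range (i + 1), (n - i).choose m * i.choose m := by
    symm
    apply Finset.sum_subset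
    · intro x hx
      simp only [mem_range] at hx ⊢
      omega
    · intro x _ hx
      simp only [mem_range, not_lt] at hx
      rw [Nat.choose_eq_zero_of_lt (show i < x by omega), mul_zero]
  have h2 := Nat.add_choose_eq (n - i) i i
  rw [show n - i + i = n by omega] at h2
  rw [h1, h2, Finset.Nat.sum_antidiagonal_eq_sum_range_succ_mk]
  apply Finset.sum_congr rfl
  intro m hm
  rw [mem_range] at hm
  simp only
  rw [Nat.choose_symm (show m ≤ i by omega)]

/-- Strehl form of the Franel numbers. -/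
theorem franel_strehl (n : ℕ) :
    franel n = ∑ k ∈ range (n + 1), n.choose k * (k.choose (n - k) * (2 * k).choose k) := by
  have h1 : ∑ k ∈ range (n + 1), n.choose k * (k.choose (n - k) * (2 * k).choose k)
      = ∑ k ∈ range (n + 1), ∑ i ∈ range (n + 1),
        (n.choose k * k.choose i) * (n.choose k * k.choose (n - i)) := by
    apply Finset.sum_congr rfl
    intro k hk
    rw [mem_range] at hk
    rw [choose_mul_choose_central n k (by omega), two_mul, Nat.add_choose_eq,
      Finset.Nat.sum_antidiagonal_eq_sum_range_succ_mk, Finset.mul_sum, Finset.mul_sum]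
    apply Finset.sum_congr rfl
    intro i _
    ring
  rw [h1, ← Finset.sum_range_reflect]
  have h2 : ∀ m ∈ range (n + 1), ∑ i ∈ range (n + 1),
        (n.choose (n + 1 - 1 - m) * (n + 1 - 1 - m).choose i)
          * (n.choose (n + 1 - 1 - m) * (n + 1 - 1 - m).choose (n - i))
      = ∑ i ∈ range (n + 1), (n.choose i) ^ 2 * ((n - i).choose m * i.choose m) := by
    intro m hm
    rw [mem_range] at hm
    apply Finset.sum_congr rfl
    intro i hi
    rw [mem_range] at hi
    rw [show n + 1 - 1 - m = n - m by omega, Nat.choose_symm (show m ≤ n by omega),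
      choose_comm_mul n m i (by omega), choose_comm_mul n m (n - i) (by omega),
      Nat.choose_symm (show i ≤ n by omega), show n - (n - i) = i by omega]
    ring
  rw [Finset.sum_congr rfl h2, Finset.sum_comm]
  unfold franel
  apply Finset.sum_congr rfl
  intro i hi
  rw [mem_range] at hi
  rw [← Finset.mul_sum, vander n i (by omega)]
  ring

/-- The binomial transform of the Franel numbers. -/
theorem franel_transform {R : Type*} [CommRing R] (h : ℕ) (y : R) :
    ∑ n ∈ range (h + 1), (h.choose n : R) * (franel n : R) * y ^ n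
      = ∑ k ∈ range (h + 1), (h.choose k : R) * ((2 * k).choose k : R) * y ^ k
          * ∑ j ∈ range (h + 1), ((h - k).choose j : R) * (k.choose j : R) * y ^ j := by
  have h1 : ∀ n ∈ range (h + 1), (h.choose n : R) * (franel n : R) * y ^ n
      = ∑ k ∈ range (h + 1), (h.choose n : R) * (n.choose k : R) * (k.choose (n - k) : R)
          * ((2 * k).choose k : R) * y ^ n := by
    intro n hn
    rw [mem_range] at hn
    rw [franel_strehl, Nat.cast_sum, Finset.mul_sum, Finset.sum_mul]
    have : ∑ k ∈ range (n + 1), (h.choose n : R) * ((n.choose k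
          * (k.choose (n - k) * (2 * k).choose k) : ℕ) : R) * y ^ n
        = ∑ k ∈ range (h + 1), (h.choose n : R) * ((n.choose k
          * (k.choose (n - k) * (2 * k).choose k) : ℕ) : R) * y ^ n := by
      apply Finset.sum_subset
      · intro x hx
        simp only [mem_range] at hx ⊢
        omega
      · intro x _ hx
        simp only [mem_range, not_lt] at hx
        rw [Nat.choose_eq_zero_of_lt (show n < x by omega)]
        simp
    rw [this]
    apply Finset.sum_congr rfl
    intro k _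
    push_cast
    ring
  rw [Finset.sum_congr rfl h1, Finset.sum_comm]
  apply Finset.sum_congr rfl
  intro k hk
  rw [mem_range] at hk
  have e : h + 1 = k + (h + 1 - k) := by omega
  have h2 : ∑ n ∈ range (h + 1), (h.choose n : R) * (n.choose k : R) * (k.choose (n - k) : R)
          * ((2 * k).choose k : R) * y ^ n
      = ∑ j ∈ range (h + 1 - k), (h.choose (k + j) : R) * ((k + j).choose k : R)
          * (k.choose (k + j - k) : R) * ((2 * k).choose k : R) * y ^ (k + j) := by
    conv_lhs => rw [e]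
    rw [Finset.sum_range_add]
    have : ∑ n ∈ range k, (h.choose n : R) * (n.choose k : R) * (k.choose (n - k) : R)
          * ((2 * k).choose k : R) * y ^ n = 0 := by
      apply Finset.sum_eq_zero
      intro n hn
      rw [mem_range] at hn
      rw [Nat.choose_eq_zero_of_lt hn]
      simp
    rw [this, zero_add]
  rw [h2]
  have h3 : ∑ j ∈ range (h + 1), ((h - k).choose j : R) * (k.choose j : R) * y ^ j
      = ∑ j ∈ range (h + 1 - k), ((h - k).choose j : R) * (k.choose j : R) * y ^ j := by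
    symm
    apply Finset.sum_subset
    · intro x hx
      simp only [mem_range] at hx ⊢
      omega
    · intro x _ hx
      simp only [mem_range, not_lt] at hx
      rw [Nat.choose_eq_zero_of_lt (show h - k < x by omega)]
      simp
  rw [h3, Finset.mul_sum]
  apply Finset.sum_congr rfl
  intro j _
  have h4 := Nat.choose_mul (n := h) (k := k + j) (s := k) (by omega)
  rw [show k + j - k = j by omega] at h4 ⊢
  have h5 : (h.choose (k + j) : R) * ((k + j).choose k : R)
      = (h.choose k : R) * ((h - k).choose j : R) := by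
    exact_mod_cast congrArg (Nat.cast (R := R)) h4
  rw [h5, pow_add]
  ring

end MPb66c90
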