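import Pool.Agent.Lib.MP_b66c90_nt.Cg
import Pool.Agent.Lib.MP_b66c90_nt.Franel

/-!
# Statements of the steps of the proof of cases (a), (b), (c)
-/

namespace MPb66c90

open Finset

/-- The terms of the hypergeometric series `F(a,b;c;z)`. -/
def hyp (a b c z : ℚ) (l : ℕ) : ℚ := ∏ i ∈ range l, ((a + i) * (b + i) / ((c + i) * (1 + i)) * z)

/-- Partial sums of the hypergeometric series `F(a,b;c;z)`. -/
def hsum (a b c z : ℚ) (L : ℕ) : ℚ := ∑ l ∈ range L, hyp a b c z l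

/-- The sum of the terms `binom(2m,m)^2 / (-16)^m` over `0 ≤ m < p`. -/
def T0 (p : ℕ) : ℚ := ∑ m ∈ range p, ((2 * m).choose m : ℚ) ^ 2 / (-16) ^ m

/-- The sum `Z_p(-16)`. -/
def Zs (p : ℕ) : ℚ := ∑ n ∈ range p, ((2 * n).choose n : ℚ) * (franel n : ℚ) / (-16) ^ n

/-- A sum which is congruent modulo `p ^ 2` to a Jacobi sum. -/
def Ssum (p k : ℕ) : ℚ := ∑ x ∈ range p, (x : ℚ) ^ (3 * k * p) * ((p : ℚ) + 1 - x) ^ (3 * k * p)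

/-- The value in the conjecture, for `p = α ^ 2 + β ^ 2` with `α` odd. -/
def V (p : ℕ) (α β : ℤ) : ℤ :=
  if 3 ∣ β then 4 * α ^ 2 - 2 * p
  else if 3 ∣ α then 2 * p - 4 * α ^ 2
  else if (α * β) % 3 = 1 then 4 * (α * β) else -(4 * (α * β))

/-- Step A1: `Z_p(-16)` is a product modulo `p ^ 2`. -/
def StA1 : Prop := ∀ (p : ℕ) [Fact p.Prime], 5 ≤ p →
  Cg p 2 (Zs p) (T0 p * hsum (1 / 4) (1 / 2) 1 (1 / 4) p)

/-- Step A2. -/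
def StA2 : Prop := ∀ (p k : ℕ) [Fact p.Prime], p = 4 * k + 1 →
  Cg p 2 (T0 p) ((-1) ^ k * (2 * k).choose k *
    (1 - (p : ℚ) / 2 * (harmonic (2 * k) - harmonic k)))

/-- Truncated hypergeometric sums are affine functions of the parameters modulo `p ^ 2`. -/
def StAff : Prop := ∀ (p : ℕ) [Fact p.Prime], ∀ a0 ∈ Zp p, ∀ b0 ∈ Zp p, ∀ z ∈ Zp p,
  ∃ A ∈ Zp p, ∃ B ∈ Zp p, ∃ C ∈ Zp p, ∀ a1 ∈ Zp p, ∀ b1 ∈ Zp p, ∀ c1 ∈ Zp p,
    Cg p 2 (hsum (a0 + p * a1) (b0 + p * b1) (1 + p * c1) z p)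
      (hsum a0 b0 1 z p + p * (a1 * A + b1 * B + c1 * C))

/-- Euler's transformation of terminating hypergeometric sums. -/
def StEuler : Prop := ∀ (c z : ℚ) (M N : ℕ), (∀ i : ℕ, c + i ≠ 0) →
  (1 - z) ^ M * hsum (c + M) (-(N : ℚ)) c z (N + 1)
    = (1 - z) ^ N * hsum (-(M : ℚ)) (c + N) c z (M + 1)

/-- First closed form. -/
def StE1 : Prop := ∀ n : ℕ,
  hsum (-(3 * n : ℚ) - 1 / 2) (-(2 * n : ℚ)) (1 / 2 - 2 * n) (1 / 4) (2 * n + 1)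
    = (27 / 16) ^ n * (2 * n).choose n / (4 * n).choose (2 * n)

/-- Second closed form. -/
def StE2 : Prop := ∀ n : ℕ,
  hsum (-(n : ℚ)) (1 / 2) (2 * n + 3 / 2) (1 / 4) (n + 1)
    = (27 / 16) ^ n * (2 * n).choose n *
      ∏ j ∈ range n, ((2 * (j + 1) : ℚ) / (4 * n + 1 + 2 * (j + 1)))

/-- Third closed form. -/
def StG2 : Prop := ∀ n : ℕ,
  hsum (-(3 * n : ℚ)) (-(2 * n : ℚ)) (1 / 2 - 2 * n) (1 / 4) (2 * n + 1)
    = (2 * n).choose n / (4 * n).choose n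

/-- Fourth closed form. -/
def StG1 : Prop := ∀ n : ℕ,
  hsum (-(n : ℚ)) (1 / 2) (2 * n + 5 / 2) (1 / 4) (n + 1)
    = ∏ i ∈ range n, ((4 * i + 5 : ℚ) * (4 * i + 7) / (4 * (2 * i + 3) ^ 2))

/-- Evaluation modulo `p ^ 2`. -/
def StEv1 : Prop := ∀ (p k : ℕ) [Fact p.Prime], p = 4 * k + 1 →
  Cg p 2 (((4 * k).choose (2 * k) : ℚ))⁻¹ (1 + p * harmonic (2 * k))

/-- Evaluation modulo `p ^ 2`. -/
def StEv2 : Prop := ∀ (p k : ℕ) [Fact p.Prime], p = 4 * k + 1 →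
  Cg p 2 (∏ j ∈ range k, ((2 * (j + 1) : ℚ) / (4 * k + 1 + 2 * (j + 1))))
    (1 - (p : ℚ) / 2 * harmonic k)

/-- Evaluation modulo `p ^ 2`. -/
def StEv3 : Prop := ∀ (p k : ℕ) [Fact p.Prime], p = 4 * k + 1 →
  Cg p 2 (((4 * k).choose k : ℚ))⁻¹ ((-1) ^ k * (1 + p * harmonic k))

/-- Evaluation modulo `p ^ 2`. -/
def StEv4 : Prop := ∀ (p k : ℕ) [Fact p.Prime], p = 4 * k + 1 →
  Cg p 2 (∏ i ∈ range (3 * k), ((4 * i + 5 : ℚ) * (4 * i + 7) / (4 * (2 * i + 3) ^ 2)))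
    ((1 / 64) ^ k * (2 * k).choose k *
      (1 - (p : ℚ) / 2 * harmonic (2 * k) - p * harmonic k))

/-- Harmonic numbers. -/
def StH1 : Prop := ∀ (p k : ℕ) [Fact p.Prime], p = 4 * k + 1 →
  Cg p 1 (3 * harmonic (2 * k)) (2 * harmonic k)

/-- A power of two modulo `p ^ 2`. -/
def StH2 : Prop := ∀ (p k : ℕ) [Fact p.Prime], p = 4 * k + 1 →
  Cg p 2 ((-1) ^ k * 2 ^ (2 * k)) (1 + (p : ℚ) / 2 * (harmonic (2 * k) - harmonic k))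

/-- The Jacobi sum modulo `p ^ 2`. -/
def StJ : Prop := ∀ (p k : ℕ) [Fact p.Prime], p = 4 * k + 1 →
  Cg p 2 (Ssum p k) (-((2 * k).choose k *
    (1 - (p : ℚ) / 2 * (harmonic (2 * k) - harmonic k))))

/-- The Jacobi sum and the quartic character of `3`. -/
def StQ : Prop := ∀ (p k : ℕ) [Fact p.Prime], p = 4 * k + 1 →
  ∃ α β : ℤ, α ^ 2 + β ^ 2 = p ∧ α % 2 = 1 ∧
    Cg p 2 ((4 / 3) ^ (k * p) * Ssum p k ^ 2) (V p α β : ℚ)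

end MPb66c90
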