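import Pool.Agent.Lib.MP_b66c90_nt.Lift
import Pool.Agent.Lib.MP_b66c90_nt.Spec

/-!
# Case (d): primes congruent to `3` modulo `4` (helper57)
-/

open Finset Polynomial

namespace MPb66c90

/-- Case (d): for every prime `p` congruent to `3` modulo `4` the sum
`Z_p(-16)` is congruent to `0` modulo `p ^ 2`. -/
theorem case_d (p : ℕ) (hp : p.Prime) (h4 : p % 4 = 3) :
    ∃ a b : ℤ, ¬ (p : ℤ) ∣ b ∧ Zs p = (p : ℚ) ^ 2 * a / b := by
  by_cases hp3 : p = 3
  · subst hp3
    refine ⟨7, 64, by decide, ?_⟩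
    have f0 : MPb66c90.franel 0 = 1 := by decide
    have f1 : MPb66c90.franel 1 = 2 := by decide
    have f2 : MPb66c90.franel 2 = 10 := by decide
    have c2 : Nat.choose 4 2 = 6 := by decide
    unfold Zs
    simp only [Finset.sum_range_succ, Finset.sum_range_zero, f0, f1, f2]
    norm_num [c2]
  · have h5 : 5 ≤ p := by
      have := hp.two_le
      omega
    have hF : Fact p.Prime := ⟨hp⟩
    have hpZ : Prime (p : ℤ) := Nat.prime_iff_prime_int.mp hp
    have not2 : ¬ (p : ℤ) ∣ 2 := by
      intro h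
      have := Int.le_of_dvd (by norm_num) h
      omega
    have not3 : ¬ (p : ℤ) ∣ 3 := by
      intro h
      have := Int.le_of_dvd (by norm_num) h
      omega
    have not16 : ¬ (p : ℤ) ∣ -16 := by
      intro h
      have h1 : (p : ℤ) ∣ 2 ^ 4 := by
        have h2 : (2 : ℤ) ^ 4 = -(-16) := by norm_num
        rw [h2]
        exact (dvd_neg).mpr h
      exact not2 (hpZ.dvd_of_dvd_pow h1)
    have hcop : IsCoprime (-16 : ℤ) ((p : ℤ) ^ 2) :=
      ((hpZ.coprime_iff_not_dvd).mpr not16).symm.pow_right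
    obtain ⟨z, v, hzv⟩ := hcop
    have hz16 : (p : ℤ) ^ 2 ∣ 1 - (-16) * z := ⟨v, by linear_combination (-1 : ℤ) * hzv⟩
    have hz16' : (p : ℤ) ∣ 1 - (-16) * z := dvd_trans (dvd_pow_self _ two_ne_zero) hz16
    have hz : ¬ (p : ℤ) ∣ z := by
      intro h
      have h1 : (p : ℤ) ∣ 1 := by
        have h2 : (1 : ℤ) = (1 - (-16) * z) + (-16) * z := by ring
        rw [h2]
        exact dvd_add hz16' (Dvd.dvd.mul_left h _)
      exact hpZ.not_isUnit (isUnit_of_dvd_one h1)
    have hP : ¬ (p : ℤ) ∣ 1 - 28 * z - 128 * z ^ 2 := by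
      intro h
      have h1 : (p : ℤ) ∣ 2 ^ 6 * 3 ^ 2 := by
        have h2 : (2 ^ 6 * 3 ^ 2 : ℤ) = 256 * (1 - 28 * z - 128 * z ^ 2)
            + (1 - (-16) * z) * (2048 * z + 320) := by ring
        rw [h2]
        exact dvd_add (Dvd.dvd.mul_left h _) (Dvd.dvd.mul_right hz16' _)
      rcases hpZ.dvd_or_dvd h1 with h3 | h3
      · exact not2 (hpZ.dvd_of_dvd_pow h3)
      · exact not3 (hpZ.dvd_of_dvd_pow h3)
    have hW0 : (p : ℤ) ∣ (MPb66c90.W p).eval z := by
      rw [← ZMod.intCast_zmod_eq_zero_iff_dvd]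
      have hz1 : (-16 : ZMod p) * (z : ZMod p) = 1 := by
        have h1 := (ZMod.intCast_zmod_eq_zero_iff_dvd _ p).mpr hz16'
        push_cast at h1
        linear_combination (-1 : ZMod p) * h1
      have h2 := MPb66c90.W_modp_zero h4 (z : ZMod p) hz1
      rw [← h2]
      unfold MPb66c90.W
      rw [eval_finsetSum, Int.cast_sum]
      apply Finset.sum_congr rfl
      intro n _
      rw [eval_mul, eval_C, eval_pow, eval_X]
      unfold MPb66c90.u
      push_cast
      ring
    have hW := MPb66c90.lift hp (by omega) z hz hP hW0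
    -- the integer numerator
    set N : ℤ := ∑ n ∈ range p, MPb66c90.u n * (-16) ^ (p - n) with hN
    have hNW : (p : ℤ) ^ 2 ∣ N := by
      have h1 : (p : ℤ) ^ 2 ∣ N - (-16) ^ p * (MPb66c90.W p).eval z := by
        have h2 : N - (-16) ^ p * (MPb66c90.W p).eval z
            = ∑ n ∈ range p, MPb66c90.u n * (-16) ^ (p - n) * (1 - ((-16) * z) ^ n) := by
          unfold MPb66c90.W
          rw [eval_finsetSum, Finset.mul_sum, hN, ← Finset.sum_sub_distrib]
          apply Finset.sum_congr rfl
          intro n hn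
          rw [mem_range] at hn
          rw [eval_mul, eval_C, eval_pow, eval_X]
          have h3 : (-16 : ℤ) ^ p = (-16) ^ (p - n) * (-16) ^ n := by
            rw [← pow_add]
            congr 1
            omega
          rw [h3, mul_pow]
          ring
        rw [h2]
        apply Finset.dvd_sum
        intro n _
        apply Dvd.dvd.mul_left
        have h4 : (1 - (-16) * z) ∣ 1 ^ n - ((-16) * z) ^ n := sub_dvd_pow_sub_pow _ _ n
        rw [one_pow] at h4
        exact dvd_trans hz16 h4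
      have h5 : N = (N - (-16) ^ p * (MPb66c90.W p).eval z) + (-16) ^ p * (MPb66c90.W p).eval z := by
        ring
      rw [h5]
      exact dvd_add h1 (Dvd.dvd.mul_left hW _)
    obtain ⟨a, ha⟩ := hNW
    refine ⟨a, (-16) ^ p, fun h => not16 (hpZ.dvd_of_dvd_pow h), ?_⟩
    have h16 : ((-16 : ℚ)) ^ p ≠ 0 := pow_ne_zero _ (by norm_num)
    have h6 : Zs p * (-16) ^ p = (N : ℚ) := by
      unfold Zs
      rw [hN, Finset.sum_mul, Int.cast_sum]
      apply Finset.sum_congr rfl
      intro n hn
      rw [mem_range] at hn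
      have h3 : (-16 : ℚ) ^ p = (-16) ^ (p - n) * (-16) ^ n := by
        rw [← pow_add]
        congr 1
        omega
      have h7 : (-16 : ℚ) ^ n ≠ 0 := pow_ne_zero _ (by norm_num)
      unfold MPb66c90.u
      push_cast
      rw [h3]
      field_simp
    push_cast
    rw [eq_div_iff h16, h6, ha]
    push_cast
    ring

end MPb66c90
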