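import Pool.Agent.Lib.MP_b66c90_nt.Spec

/-!
# Uniqueness of the sum of two squares and the three cases
-/

namespace MPb66c90

/-- the two representations of a prime as a sum of two squares agree up to order and signs -/
lemma sq_unique (p : ℕ) (hp : p.Prime) (x y α β : ℤ) (h : x ^ 2 + y ^ 2 = p)
    (h' : α ^ 2 + β ^ 2 = p) : (x ^ 2 = α ^ 2 ∧ y ^ 2 = β ^ 2) ∨ (x ^ 2 = β ^ 2 ∧ y ^ 2 = α ^ 2) := by
  have hpos : (0 : ℤ) < p := by exact_mod_cast hp.pos
  have hpZ : Prime (p : ℤ) := Nat.prime_iff_prime_int.mp hp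
  have key : ∀ s t : ℤ, (p : ℤ) ∣ s → s ^ 2 + t ^ 2 = (p : ℤ) ^ 2 → s = 0 ∨ t = 0 := by
    rintro s t ⟨c, rfl⟩ h1
    rcases eq_or_ne c 0 with rfl | hc
    · left; ring
    · right
      have h2 : 1 ≤ c ^ 2 := by
        have := sq_pos_of_ne_zero hc
        omega
      have h3 : (p : ℤ) ^ 2 * c ^ 2 + t ^ 2 = (p : ℤ) ^ 2 := by linear_combination h1
      have h4 : t ^ 2 ≤ 0 := by nlinarith [sq_nonneg (p : ℤ), sq_nonneg t]
      have h5 : t ^ 2 = 0 := le_antisymm h4 (sq_nonneg t)
      exact pow_eq_zero_iff (two_ne_zero) |>.1 h5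
  have hdiv : (p : ℤ) ∣ (α * x - β * y) * (α * x + β * y) := by
    refine ⟨α ^ 2 + x ^ 2 - p, ?_⟩
    have hy : y ^ 2 = p - x ^ 2 := by linear_combination h
    have hb : β ^ 2 = p - α ^ 2 := by linear_combination h'
    have : (α * x - β * y) * (α * x + β * y) = α ^ 2 * x ^ 2 - β ^ 2 * y ^ 2 := by ring
    rw [this, hy, hb]
    ring
  have c1 : α ^ 2 * x ^ 2 = β ^ 2 * y ^ 2 → x ^ 2 = β ^ 2 ∧ y ^ 2 = α ^ 2 := by
    intro h1
    have hy : y ^ 2 = p - x ^ 2 := by linear_combination h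
    have hb : β ^ 2 = p - α ^ 2 := by linear_combination h'
    rw [hy, hb] at h1
    have h2 : (p : ℤ) * (p - α ^ 2 - x ^ 2) = 0 := by linear_combination (-1 : ℤ) * h1
    have h3 : (p : ℤ) - α ^ 2 - x ^ 2 = 0 := (mul_eq_zero.1 h2).resolve_left hpos.ne'
    constructor
    · linear_combination (-1 : ℤ) * h3 - h'
    · linear_combination h + h3
  have c2 : α ^ 2 * y ^ 2 = β ^ 2 * x ^ 2 → x ^ 2 = α ^ 2 ∧ y ^ 2 = β ^ 2 := by
    intro h1
    have hy : y ^ 2 = p - x ^ 2 := by linear_combination h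
    have hb : β ^ 2 = p - α ^ 2 := by linear_combination h'
    rw [hy, hb] at h1
    have h2 : (p : ℤ) * (α ^ 2 - x ^ 2) = 0 := by linear_combination h1
    have h3 : α ^ 2 - x ^ 2 = 0 := (mul_eq_zero.1 h2).resolve_left hpos.ne'
    constructor
    · linear_combination (-1 : ℤ) * h3
    · linear_combination h + h3 - h'
  rcases hpZ.dvd_or_dvd hdiv with h1 | h1
  · rcases key _ (α * y + β * x) h1 (by rw [← h, mul_comm]; nlinarith [h, h']) with h2 | h2
    · right
      apply c1
      linear_combination (α * x + β * y) * h2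
    · left
      apply c2
      linear_combination (α * y - β * x) * h2
  · rcases key _ (α * y - β * x) h1 (by rw [← h, mul_comm]; nlinarith [h, h']) with h2 | h2
    · right
      apply c1
      linear_combination (α * x - β * y) * h2
    · left
      apply c2
      linear_combination (α * y + β * x) * h2

end MPb66c90
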