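import Mathlib

/-!
# Congruences modulo powers of `p` between rational numbers
-/

namespace MPb66c90

open Finset

/-- The rational numbers with denominator prime to `p`. -/
def Zp (p : ℕ) [hp : Fact p.Prime] : Subring ℚ where
  carrier := {x | ∃ a b : ℤ, ¬ (p : ℤ) ∣ b ∧ x = a / b}
  mul_mem' := by
    rintro x y ⟨a, b, hb, rfl⟩ ⟨c, d, hd, rfl⟩
    refine ⟨a * c, b * d, ?_, by push_cast; rw [div_mul_div_comm]⟩
    intro h
    rcases (Nat.prime_iff_prime_int.mp hp.out).dvd_or_dvd h with h | h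
    · exact hb h
    · exact hd h
  one_mem' := ⟨1, 1, fun h => (Nat.prime_iff_prime_int.mp hp.out).not_isUnit (isUnit_of_dvd_one h),
    by norm_num⟩
  add_mem' := by
    rintro x y ⟨a, b, hb, rfl⟩ ⟨c, d, hd, rfl⟩
    have hb0 : (b : ℚ) ≠ 0 := by
      intro h
      apply hb
      rw [Int.cast_eq_zero.1 h]
      exact dvd_zero _
    have hd0 : (d : ℚ) ≠ 0 := by
      intro h
      apply hd
      rw [Int.cast_eq_zero.1 h]
      exact dvd_zero _
    refine ⟨a * d + b * c, b * d, ?_, by push_cast; rw [div_add_div _ _ hb0 hd0]⟩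
    intro h
    rcases (Nat.prime_iff_prime_int.mp hp.out).dvd_or_dvd h with h | h
    · exact hb h
    · exact hd h
  zero_mem' := ⟨0, 1, fun h => (Nat.prime_iff_prime_int.mp hp.out).not_isUnit (isUnit_of_dvd_one h),
    by norm_num⟩
  neg_mem' := by
    rintro x ⟨a, b, hb, rfl⟩
    exact ⟨-a, b, hb, by push_cast; rw [neg_div]⟩

/-- Congruence modulo `p ^ n` of two rational numbers. -/
def Cg (p n : ℕ) [Fact p.Prime] (x y : ℚ) : Prop := ∃ z ∈ Zp p, x - y = (p : ℚ) ^ n * z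

variable {p n : ℕ} [hp : Fact p.Prime]

lemma mem_Zp (x : ℚ) : x ∈ Zp p ↔ ∃ a b : ℤ, ¬ (p : ℤ) ∣ b ∧ x = a / b := Iff.rfl

lemma nat_mem (a : ℕ) : (a : ℚ) ∈ Zp p := natCast_mem _ a

lemma int_mem (a : ℤ) : (a : ℚ) ∈ Zp p := intCast_mem _ a

lemma ofNat_mem (a : ℕ) [a.AtLeastTwo] : (OfNat.ofNat a : ℚ) ∈ Zp p := natCast_mem _ a

lemma div_int_mem {x : ℚ} (hx : x ∈ Zp p) (b : ℤ) (hb : ¬ (p : ℤ) ∣ b) : x / b ∈ Zp p := by
  have h1 : (b : ℚ)⁻¹ ∈ Zp p := ⟨1, b, hb, by push_cast; rw [one_div]⟩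
  rw [div_eq_mul_inv]
  exact (Zp p).mul_mem hx h1

lemma div_nat_mem {x : ℚ} (hx : x ∈ Zp p) (b : ℕ) (hb : ¬ p ∣ b) : x / b ∈ Zp p := by
  have := div_int_mem hx (b : ℤ) (fun h => hb (Int.natCast_dvd_natCast.1 h))
  simpa using this

lemma inv_nat_mem (b : ℕ) (hb : ¬ p ∣ b) : ((b : ℚ))⁻¹ ∈ Zp p := by
  have := div_nat_mem (p := p) (Zp p).one_mem b hb
  rwa [one_div] at this

lemma inv_nat_mem_of_lt (b : ℕ) (h0 : 0 < b) (hb : b < p) : ((b : ℚ))⁻¹ ∈ Zp p :=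
  inv_nat_mem b (fun h => absurd (Nat.le_of_dvd h0 h) (by omega))

lemma cg_zero_iff (x : ℚ) : Cg p 0 x 0 ↔ x ∈ Zp p := by
  constructor
  · rintro ⟨z, hz, h⟩
    rw [sub_zero, pow_zero, one_mul] at h
    rwa [h]
  · intro h
    exact ⟨x, h, by ring⟩

@[refl] lemma Cg.refl (x : ℚ) : Cg p n x x := ⟨0, (Zp p).zero_mem, by ring⟩

lemma Cg.symm {x y : ℚ} (h : Cg p n x y) : Cg p n y x := by
  obtain ⟨z, hz, h⟩ := h
  exact ⟨-z, (Zp p).neg_mem hz, by rw [← neg_sub, h]; ring⟩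

lemma Cg.trans {x y z : ℚ} (h : Cg p n x y) (h' : Cg p n y z) : Cg p n x z := by
  obtain ⟨u, hu, h⟩ := h
  obtain ⟨v, hv, h'⟩ := h'
  exact ⟨u + v, (Zp p).add_mem hu hv, by linear_combination h + h'⟩

lemma Cg.add {x y x' y' : ℚ} (h : Cg p n x y) (h' : Cg p n x' y') :
    Cg p n (x + x') (y + y') := by
  obtain ⟨u, hu, h⟩ := h
  obtain ⟨v, hv, h'⟩ := h'
  exact ⟨u + v, (Zp p).add_mem hu hv, by linear_combination h + h'⟩

lemma Cg.neg {x y : ℚ} (h : Cg p n x y) : Cg p n (-x) (-y) := by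
  obtain ⟨u, hu, h⟩ := h
  exact ⟨-u, (Zp p).neg_mem hu, by linear_combination -h⟩

lemma Cg.sub {x y x' y' : ℚ} (h : Cg p n x y) (h' : Cg p n x' y') :
    Cg p n (x - x') (y - y') := by
  obtain ⟨u, hu, h⟩ := h
  obtain ⟨v, hv, h'⟩ := h'
  exact ⟨u - v, (Zp p).sub_mem hu hv, by linear_combination h - h'⟩

lemma Cg.mul_left {x y : ℚ} (c : ℚ) (hc : c ∈ Zp p) (h : Cg p n x y) : Cg p n (c * x) (c * y) := by
  obtain ⟨u, hu, h⟩ := h
  exact ⟨c * u, (Zp p).mul_mem hc hu, by linear_combination c * h⟩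

lemma Cg.mul_right {x y : ℚ} (c : ℚ) (hc : c ∈ Zp p) (h : Cg p n x y) :
    Cg p n (x * c) (y * c) := by
  rw [mul_comm x, mul_comm y]
  exact h.mul_left c hc

lemma Cg.mul {x y x' y' : ℚ} (h : Cg p n x y) (h' : Cg p n x' y') (hy : y ∈ Zp p)
    (hx' : x' ∈ Zp p) : Cg p n (x * x') (y * y') :=
  (h.mul_right x' hx').trans (h'.mul_left y hy)

lemma Cg.mem_iff {x y : ℚ} (h : Cg p n x y) : x ∈ Zp p ↔ y ∈ Zp p := by
  obtain ⟨z, hz, h⟩ := h
  have h1 : (p : ℚ) ^ n * z ∈ Zp p := (Zp p).mul_mem ((Zp p).pow_mem (nat_mem p) n) hz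
  constructor
  · intro hx
    have : y = x - (p : ℚ) ^ n * z := by rw [← h]; ring
    rw [this]
    exact (Zp p).sub_mem hx h1
  · intro hy
    have : x = y + (p : ℚ) ^ n * z := by rw [← h]; ring
    rw [this]
    exact (Zp p).add_mem hy h1

lemma Cg.mono {m : ℕ} {x y : ℚ} (h : Cg p n x y) (hmn : m ≤ n) : Cg p m x y := by
  obtain ⟨z, hz, h⟩ := h
  obtain ⟨d, rfl⟩ := Nat.exists_eq_add_of_le hmn
  exact ⟨(p : ℚ) ^ d * z, (Zp p).mul_mem ((Zp p).pow_mem (nat_mem p) d) hz, by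
    rw [h, pow_add, mul_assoc]⟩

/-- a congruence modulo `p` gives one modulo `p ^ 2` after multiplication by `p` -/
lemma Cg.p_mul {x y : ℚ} (h : Cg p n x y) : Cg p (n + 1) ((p : ℚ) * x) ((p : ℚ) * y) := by
  obtain ⟨z, hz, h⟩ := h
  exact ⟨z, hz, by rw [← mul_sub, h, pow_succ]; ring⟩

lemma Cg.sum {ι : Type*} (s : Finset ι) (f g : ι → ℚ) (h : ∀ i ∈ s, Cg p n (f i) (g i)) :
    Cg p n (∑ i ∈ s, f i) (∑ i ∈ s, g i) := by
  classical
  induction s using Finset.induction_on with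
  | empty => simp only [sum_empty]; exact Cg.refl 0
  | insert a s ha ih =>
    rw [sum_insert ha, sum_insert ha]
    exact (h a (mem_insert_self a s)).add (ih fun i hi => h i (mem_insert_of_mem hi))

lemma Cg.prod {ι : Type*} (s : Finset ι) (f g : ι → ℚ) (h : ∀ i ∈ s, Cg p n (f i) (g i))
    (hg : ∀ i ∈ s, g i ∈ Zp p) : Cg p n (∏ i ∈ s, f i) (∏ i ∈ s, g i) := by
  classical
  induction s using Finset.induction_on with
  | empty => simp only [prod_empty]; exact Cg.refl 1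
  | insert a s ha ih =>
    rw [prod_insert ha, prod_insert ha]
    refine (h a (mem_insert_self a s)).mul (ih (fun i hi => h i (mem_insert_of_mem hi))
      fun i hi => hg i (mem_insert_of_mem hi)) (hg a (mem_insert_self a s)) ?_
    refine (Zp p).prod_mem fun i hi => ?_
    rw [(h i (mem_insert_of_mem hi)).mem_iff]
    exact hg i (mem_insert_of_mem hi)

lemma Cg.pow {x y : ℚ} (h : Cg p n x y) (hy : y ∈ Zp p) (m : ℕ) : Cg p n (x ^ m) (y ^ m) := by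
  have := Cg.prod (p := p) (n := n) (range m) (fun _ => x) (fun _ => y) (fun _ _ => h)
    (fun _ _ => hy)
  simpa using this

/-- cancel a unit -/
lemma Cg.of_mul_left {x y c : ℚ} (hc : c⁻¹ ∈ Zp p) (hc0 : c ≠ 0) (h : Cg p n (c * x) (c * y)) :
    Cg p n x y := by
  have := h.mul_left c⁻¹ hc
  rwa [inv_mul_cancel_left₀ hc0, inv_mul_cancel_left₀ hc0] at this

/-- `∏ (1 + p x_i) = 1 + p ∑ x_i` modulo `p ^ 2` -/
lemma cg_prod_one_add {ι : Type*} (s : Finset ι) (x : ι → ℚ) (hx : ∀ i ∈ s, x i ∈ Zp p) :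
    Cg p 2 (∏ i ∈ s, (1 + p * x i)) (1 + p * ∑ i ∈ s, x i) := by
  classical
  induction s using Finset.induction_on with
  | empty => simp only [prod_empty, sum_empty, mul_zero, add_zero]; exact Cg.refl 1
  | insert a s ha ih =>
    rw [prod_insert ha, sum_insert ha]
    have ih' := ih fun i hi => hx i (mem_insert_of_mem hi)
    have hxa := hx a (mem_insert_self a s)
    have h1 : (1 + (p : ℚ) * x a) ∈ Zp p :=
      (Zp p).add_mem (Zp p).one_mem ((Zp p).mul_mem (nat_mem p) hxa)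
    have hS : ∑ i ∈ s, x i ∈ Zp p := (Zp p).sum_mem fun i hi => hx i (mem_insert_of_mem hi)
    refine (ih'.mul_left _ h1).trans ⟨x a * ∑ i ∈ s, x i, (Zp p).mul_mem hxa hS, by ring⟩

/-- `(1 + p x)⁻¹ = 1 - p x` modulo `p ^ 2` -/
lemma one_add_ne_zero {x : ℚ} (hx : x ∈ Zp p) : (1 + (p : ℚ) * x) ≠ 0 := by
  obtain ⟨a, b, hb, rfl⟩ := hx
  have hb0 : (b : ℚ) ≠ 0 := by
    intro h
    apply hb
    rw [Int.cast_eq_zero.1 h]
    exact dvd_zero _
  intro h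
  have h1 : (b : ℚ) + p * a = 0 := by
    have : ((b : ℚ) + p * a) = b * (1 + (p : ℚ) * (a / b)) := by field_simp
    rw [this, h, mul_zero]
  have h2 : b + (p : ℤ) * a = 0 := by exact_mod_cast h1
  apply hb
  exact ⟨-a, by linear_combination h2⟩

lemma one_add_inv_mem {x : ℚ} (hx : x ∈ Zp p) : (1 + (p : ℚ) * x)⁻¹ ∈ Zp p := by
  obtain ⟨a, b, hb, rfl⟩ := hx
  have hb0 : (b : ℚ) ≠ 0 := by
    intro h
    apply hb
    rw [Int.cast_eq_zero.1 h]
    exact dvd_zero _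
  refine ⟨b, b + p * a, ?_, ?_⟩
  · intro h
    apply hb
    exact (Int.dvd_add_left (dvd_mul_right _ _)).1 h
  · push_cast
    have : (1 + (p : ℚ) * (a / b)) = (b + p * a) / b := by field_simp
    rw [this, inv_div]

lemma cg_inv_one_add {x : ℚ} (hx : x ∈ Zp p) : Cg p 2 (1 + (p : ℚ) * x)⁻¹ (1 - p * x) := by
  have h0 := one_add_ne_zero hx
  refine ⟨x ^ 2 * (1 + (p : ℚ) * x)⁻¹,
    (Zp p).mul_mem ((Zp p).pow_mem hx 2) (one_add_inv_mem hx), ?_⟩
  field_simp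
  ring

end MPb66c90
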