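import Pool.Agent.Lib.MP_b66c90_nt.Spec

/-!
# Two closed forms of terminating hypergeometric sums
-/

namespace MPb66c90

open Finset

private lemma ef_succ (a b c z : ℚ) (l : ℕ) :
    hyp a b c z (l + 1) = hyp a b c z l * ((a + l) * (b + l) / ((c + l) * (1 + l)) * z) := by
  unfold hyp
  rw [prod_range_succ]

private lemma ef_zero (b c z : ℚ) (n l : ℕ) (h : n < l) : hyp (-(n : ℚ)) b c z l = 0 := by
  unfold hyp
  apply prod_eq_zero (mem_range.mpr h)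
  simp

/-- shift of the parameters; `u = c n` and the parameter at `n + 1` is `u + 2` -/
private lemma ef_shift (n : ℕ) (u : ℚ) (hu : 0 < u) (l : ℕ) :
    hyp (-(n : ℚ)) (1 / 2) u (1 / 4) l
      = hyp (-((n + 1 : ℕ) : ℚ)) (1 / 2) (u + 2) (1 / 4) l *
        (((n : ℚ) + 1 - l) / (n + 1)) * ((u + l) * (u + 1 + l) / (u * (u + 1))) := by
  have hn : ((n : ℚ) + 1) ≠ 0 := by positivity
  have hu0 : u ≠ 0 := hu.ne'
  have hu1 : u + 1 ≠ 0 := by positivity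
  induction l with
  | zero =>
    have h1 : hyp (-(n : ℚ)) (1 / 2) u (1 / 4) 0 = 1 := by simp [hyp]
    have h2 : hyp (-((n + 1 : ℕ) : ℚ)) (1 / 2) (u + 2) (1 / 4) 0 = 1 := by simp [hyp]
    rw [h1, h2]
    push_cast
    field_simp
    ring
  | succ l ih =>
    rw [ef_succ, ef_succ, ih]
    have h1 : (u + l) ≠ 0 := by positivity
    have h2 : (u + 2 + l) ≠ 0 := by positivity
    have h3 : (1 + (l : ℚ)) ≠ 0 := by positivity
    push_cast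
    field_simp
    ring

private lemma ef_next (n : ℕ) (u : ℚ) (hu : 0 < u) (l : ℕ) :
    hyp (-((n + 1 : ℕ) : ℚ)) (1 / 2) (u + 2) (1 / 4) (l + 1) * (8 * (u + 2 + l) * (l + 1))
      = hyp (-((n + 1 : ℕ) : ℚ)) (1 / 2) (u + 2) (1 / 4) l * ((l - (n + 1)) * (1 + 2 * l)) := by
  rw [ef_succ]
  have h2 : (u + 2 + l) ≠ 0 := by positivity
  have h3 : (1 + (l : ℚ)) ≠ 0 := by positivity
  push_cast
  field_simp
  ring

private lemma ef_E2step (n l : ℕ) :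
    hyp (-((n + 1 : ℕ) : ℚ)) (1 / 2) (2 * n + 3 / 2 + 2) (1 / 4) l
      - (9 / 4) * (4 * n + 3) * (4 * n + 5) / ((6 * n + 5) * (6 * n + 7)) *
        hyp (-(n : ℚ)) (1 / 2) (2 * n + 3 / 2) (1 / 4) l
      = (-(((l + 1 : ℕ) : ℚ) * (6 * ((l + 1 : ℕ) : ℚ) - 1) * (4 * n + 5 + 2 * ((l + 1 : ℕ) : ℚ))
          / ((n + 1) * (6 * n + 5) * (6 * n + 7))) *
          hyp (-((n + 1 : ℕ) : ℚ)) (1 / 2) (2 * n + 3 / 2 + 2) (1 / 4) (l + 1))
        - (-((l : ℚ) * (6 * (l : ℚ) - 1) * (4 * n + 5 + 2 * (l : ℚ))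
          / ((n + 1) * (6 * n + 5) * (6 * n + 7))) *
          hyp (-((n + 1 : ℕ) : ℚ)) (1 / 2) (2 * n + 3 / 2 + 2) (1 / 4) l) := by
  have hu : (0 : ℚ) < 2 * n + 3 / 2 := by positivity
  rw [ef_shift n _ hu l, ef_succ]
  have hn : ((n : ℚ) + 1) ≠ 0 := by positivity
  have h5 : (6 * (n : ℚ) + 5) ≠ 0 := by positivity
  have h7 : (6 * (n : ℚ) + 7) ≠ 0 := by positivity
  have h2 : (2 * (n : ℚ) + 3 / 2 + 2 + l) ≠ 0 := by positivity
  have h3 : (1 + (l : ℚ)) ≠ 0 := by positivity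
  have h8 : (2 * (n : ℚ) + 3 / 2) ≠ 0 := by positivity
  have h9 : (2 * (n : ℚ) + 3 / 2 + 1) ≠ 0 := by positivity
  push_cast
  field_simp
  ring

private lemma ef_G1step (n l : ℕ) :
    hyp (-((n + 1 : ℕ) : ℚ)) (1 / 2) (2 * n + 5 / 2 + 2) (1 / 4) l
      - (4 * n + 5) * (4 * n + 7) / (4 * (2 * n + 3) ^ 2) *
        hyp (-(n : ℚ)) (1 / 2) (2 * n + 5 / 2) (1 / 4) l
      = (-(((l + 1 : ℕ) : ℚ) * (2 * ((l + 1 : ℕ) : ℚ) + 1) * (4 * n + 7 + 2 * ((l + 1 : ℕ) : ℚ))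
          / (3 * (n + 1) * (2 * n + 3) ^ 2)) *
          hyp (-((n + 1 : ℕ) : ℚ)) (1 / 2) (2 * n + 5 / 2 + 2) (1 / 4) (l + 1))
        - (-((l : ℚ) * (2 * (l : ℚ) + 1) * (4 * n + 7 + 2 * (l : ℚ))
          / (3 * (n + 1) * (2 * n + 3) ^ 2)) *
          hyp (-((n + 1 : ℕ) : ℚ)) (1 / 2) (2 * n + 5 / 2 + 2) (1 / 4) l) := by
  have hu : (0 : ℚ) < 2 * n + 5 / 2 := by positivity
  rw [ef_shift n _ hu l, ef_succ]
  have hn : ((n : ℚ) + 1) ≠ 0 := by positivity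
  have h5 : (2 * (n : ℚ) + 3) ≠ 0 := by positivity
  have h2 : (2 * (n : ℚ) + 5 / 2 + 2 + l) ≠ 0 := by positivity
  have h3 : (1 + (l : ℚ)) ≠ 0 := by positivity
  have h8 : (2 * (n : ℚ) + 5 / 2) ≠ 0 := by positivity
  have h9 : (2 * (n : ℚ) + 5 / 2 + 1) ≠ 0 := by positivity
  push_cast
  field_simp
  ring

private lemma ef_tel (f g G : ℕ → ℚ) (R : ℚ) (n : ℕ)
    (h : ∀ l, g l - R * f l = G (l + 1) - G l) (h0 : G 0 = 0) (h1 : G (n + 2) = 0)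
    (hf : f (n + 1) = 0) :
    ∑ l ∈ range (n + 2), g l = R * ∑ l ∈ range (n + 1), f l := by
  have h2 : ∑ l ∈ range (n + 2), (g l - R * f l) = 0 := by
    rw [sum_congr rfl fun l _ => h l, sum_range_sub, h0, h1, sub_zero]
  rw [sum_sub_distrib, ← mul_sum, sum_range_succ f (n + 1), hf, add_zero, sub_eq_zero] at h2
  exact h2

private lemma ef_shiftprod (n : ℕ) (m : ℕ) :
    (∏ j ∈ range m, ((4 : ℚ) * n + 3 + 2 * j)) * ((4 * n + 3 + 2 * m) * (4 * n + 5 + 2 * m))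
      = ((4 * n + 3) * (4 * n + 5)) * ∏ j ∈ range m, ((4 : ℚ) * n + 7 + 2 * j) := by
  induction m with
  | zero => simp
  | succ m ih =>
    rw [prod_range_succ, prod_range_succ]
    push_cast
    linear_combination (4 * (n : ℚ) + 7 + 2 * m) * ih

private lemma ef_P (n : ℕ) :
    (∏ j ∈ range (n + 1), ((2 * (j + 1) : ℚ) / (4 * ((n + 1 : ℕ) : ℚ) + 1 + 2 * (j + 1)))) *
        ((6 * n + 3) * (6 * n + 5) * (6 * n + 7))
      = (∏ j ∈ range n, ((2 * (j + 1) : ℚ) / (4 * n + 1 + 2 * (j + 1)))) *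
        (2 * (n + 1) * (4 * n + 3) * (4 * n + 5)) := by
  have h1 : (∏ j ∈ range (n + 1), ((2 * (j + 1) : ℚ) / (4 * ((n + 1 : ℕ) : ℚ) + 1 + 2 * (j + 1))))
      = (∏ j ∈ range (n + 1), (2 * (j + 1) : ℚ)) / ∏ j ∈ range (n + 1), ((4 : ℚ) * n + 7 + 2 * j) := by
    rw [← prod_div_distrib]
    refine prod_congr rfl fun j _ => ?_
    push_cast
    congr 1
    ring
  have h2 : (∏ j ∈ range n, ((2 * (j + 1) : ℚ) / (4 * n + 1 + 2 * (j + 1))))
      = (∏ j ∈ range n, (2 * (j + 1) : ℚ)) / ∏ j ∈ range n, ((4 : ℚ) * n + 3 + 2 * j) := by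
    rw [← prod_div_distrib]
    refine prod_congr rfl fun j _ => ?_
    congr 1
    ring
  have h3 : (∏ j ∈ range (n + 1), ((4 : ℚ) * n + 7 + 2 * j)) ≠ 0 :=
    prod_ne_zero_iff.mpr fun j _ => by positivity
  have h4 : (∏ j ∈ range n, ((4 : ℚ) * n + 3 + 2 * j)) ≠ 0 :=
    prod_ne_zero_iff.mpr fun j _ => by positivity
  have h5 := ef_shiftprod n n
  rw [h1, h2]
  rw [prod_range_succ (fun j : ℕ => (2 * ((j : ℚ) + 1))),
    prod_range_succ (fun j : ℕ => ((4 : ℚ) * n + 7 + 2 * j))] at *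
  set A := ∏ j ∈ range n, (2 * ((j : ℚ) + 1)) with hA
  set B := ∏ j ∈ range n, ((4 : ℚ) * n + 7 + 2 * j) with hB
  set C := ∏ j ∈ range n, ((4 : ℚ) * n + 3 + 2 * j) with hC
  rw [div_mul_eq_mul_div, div_mul_eq_mul_div, div_eq_div_iff h3 h4]
  linear_combination (A * (2 * ((n : ℚ) + 1)) * (6 * n + 7)) * h5

private lemma ef_central (n : ℕ) :
    ((2 * (n + 1)).choose (n + 1) : ℚ) * (n + 1) = 2 * (2 * n + 1) * ((2 * n).choose n : ℚ) := by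
  have h := Nat.succ_mul_centralBinom_succ n
  simp only [Nat.centralBinom] at h
  have h2 : (((n + 1) * (2 * (n + 1)).choose (n + 1) : ℕ) : ℚ)
      = ((2 * (2 * n + 1) * (2 * n).choose n : ℕ) : ℚ) := by exact_mod_cast h
  push_cast at h2
  linarith

theorem stE2 : StE2 := by
  intro n
  induction n with
  | zero => simp [hsum, hyp]
  | succ n ih =>
    have h1 : hsum (-((n + 1 : ℕ) : ℚ)) (1 / 2) (2 * ((n + 1 : ℕ) : ℚ) + 3 / 2) (1 / 4) (n + 1 + 1)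
        = (9 / 4) * (4 * n + 3) * (4 * n + 5) / ((6 * n + 5) * (6 * n + 7)) *
          hsum (-(n : ℚ)) (1 / 2) (2 * n + 3 / 2) (1 / 4) (n + 1) := by
      rw [show 2 * ((n + 1 : ℕ) : ℚ) + 3 / 2 = 2 * n + 3 / 2 + 2 by push_cast; ring]
      unfold hsum
      refine ef_tel (hyp (-(n : ℚ)) (1 / 2) (2 * n + 3 / 2) (1 / 4))
        (hyp (-((n + 1 : ℕ) : ℚ)) (1 / 2) (2 * n + 3 / 2 + 2) (1 / 4))
        (fun l => (-((l : ℚ) * (6 * (l : ℚ) - 1) * (4 * n + 5 + 2 * (l : ℚ))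
          / ((n + 1) * (6 * n + 5) * (6 * n + 7))) *
          hyp (-((n + 1 : ℕ) : ℚ)) (1 / 2) (2 * n + 3 / 2 + 2) (1 / 4) l)) _ n
        (fun l => ef_E2step n l) ?_ ?_ ?_
      · simp
      · rw [ef_zero _ _ _ (n + 1) (n + 2) (by omega), mul_zero]
      · exact ef_zero _ _ _ n (n + 1) (by omega)
    rw [h1, ih]
    have h2 := ef_P n
    have h3 := ef_central n
    have hn : ((n : ℚ) + 1) ≠ 0 := by positivity
    have h5 : (6 * (n : ℚ) + 5) ≠ 0 := by positivity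
    have h7 : (6 * (n : ℚ) + 7) ≠ 0 := by positivity
    have h6 : (6 * (n : ℚ) + 3) ≠ 0 := by positivity
    have h3' : ((2 * (n + 1)).choose (n + 1) : ℚ)
        = 2 * (2 * n + 1) * ((2 * n).choose n : ℚ) / (n + 1) := by
      rw [eq_div_iff hn]; exact h3
    have h2' : (∏ j ∈ range (n + 1), ((2 * (j + 1) : ℚ) / (4 * ((n + 1 : ℕ) : ℚ) + 1 + 2 * (j + 1))))
        = (∏ j ∈ range n, ((2 * (j + 1) : ℚ) / (4 * n + 1 + 2 * (j + 1)))) *
        (2 * (n + 1) * (4 * n + 3) * (4 * n + 5)) / ((6 * n + 3) * (6 * n + 5) * (6 * n + 7)) := by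
      rw [eq_div_iff (by positivity)]; exact h2
    rw [h2', h3', pow_succ]
    set A := ∏ j ∈ range n, ((2 * (j + 1) : ℚ) / (4 * n + 1 + 2 * (j + 1))) with hA
    field_simp
    ring

theorem stG1 : StG1 := by
  intro n
  induction n with
  | zero => simp [hsum, hyp]
  | succ n ih =>
    have h1 : hsum (-((n + 1 : ℕ) : ℚ)) (1 / 2) (2 * ((n + 1 : ℕ) : ℚ) + 5 / 2) (1 / 4) (n + 1 + 1)
        = (4 * n + 5) * (4 * n + 7) / (4 * (2 * n + 3) ^ 2) *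
          hsum (-(n : ℚ)) (1 / 2) (2 * n + 5 / 2) (1 / 4) (n + 1) := by
      rw [show 2 * ((n + 1 : ℕ) : ℚ) + 5 / 2 = 2 * n + 5 / 2 + 2 by push_cast; ring]
      unfold hsum
      refine ef_tel (hyp (-(n : ℚ)) (1 / 2) (2 * n + 5 / 2) (1 / 4))
        (hyp (-((n + 1 : ℕ) : ℚ)) (1 / 2) (2 * n + 5 / 2 + 2) (1 / 4))
        (fun l => (-((l : ℚ) * (2 * (l : ℚ) + 1) * (4 * n + 7 + 2 * (l : ℚ))
          / (3 * (n + 1) * (2 * n + 3) ^ 2)) *
          hyp (-((n + 1 : ℕ) : ℚ)) (1 / 2) (2 * n + 5 / 2 + 2) (1 / 4) l)) _ n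
        (fun l => ef_G1step n l) ?_ ?_ ?_
      · simp
      · rw [ef_zero _ _ _ (n + 1) (n + 2) (by omega), mul_zero]
      · exact ef_zero _ _ _ n (n + 1) (by omega)
    rw [h1, ih, prod_range_succ, mul_comm]

end MPb66c90
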