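import Pool.Agent.Lib.MP_b66c90_nt.Spec

/-!
# Two closed forms (E1 and G2)
-/

namespace MPb66c90

open Finset

private theorem eg_hyp_succ (a b c z : ℚ) (l : ℕ) :
    hyp a b c z (l + 1) = hyp a b c z l * ((a + l) * (b + l) / ((c + l) * (1 + l)) * z) := by
  unfold hyp
  rw [prod_range_succ]

private theorem eg_hyp_zero (a b c z : ℚ) : hyp a b c z 0 = 1 := by
  unfold hyp
  rw [prod_range_zero]

/-- Terms beyond the order of termination vanish. -/
private theorem eg_hyp_van (a c z : ℚ) {m l : ℕ} (h : m < l) : hyp a (-(m : ℚ)) c z l = 0 := by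
  unfold hyp
  refine prod_eq_zero (mem_range.2 h) ?_
  simp

/-- Shifting the parameters. -/
private theorem eg_shift {a b c z : ℚ} (hc : ∀ i : ℕ, c + i ≠ 0) (l : ℕ) :
    hyp (a + 3) (b + 2) (c + 2) z l * (a * (a + 1) * (a + 2) * b * (b + 1))
        * ((c + l) * (c + 1 + l))
      = c * (c + 1) * ((a + l) * (a + 1 + l) * (a + 2 + l) * (b + l) * (b + 1 + l))
        * hyp a b c z l := by
  induction l with
  | zero =>
    rw [eg_hyp_zero, eg_hyp_zero]
    push_cast
    ring
  | succ l ih =>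
    rw [eg_hyp_succ, eg_hyp_succ]
    have h0 := hc l
    have h1 := hc (l + 1)
    have h2 := hc (l + 2)
    have h3 : (1 : ℚ) + l ≠ 0 := by positivity
    have h1' : c + 1 + (l : ℚ) ≠ 0 := by
      intro h
      apply h1
      push_cast
      linarith
    have h2' : c + 2 + (l : ℚ) ≠ 0 := by
      intro h
      apply h2
      push_cast
      linarith
    push_cast
    have e1 : hyp (a + 3) (b + 2) (c + 2) z l * ((a + 3 + l) * (b + 2 + l)
          / ((c + 2 + l) * (1 + l)) * z) * (a * (a + 1) * (a + 2) * b * (b + 1))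
          * ((c + (l + 1)) * (c + 1 + (l + 1)))
        = (hyp (a + 3) (b + 2) (c + 2) z l * (a * (a + 1) * (a + 2) * b * (b + 1))
          * ((c + l) * (c + 1 + l))) * ((a + 3 + l) * (b + 2 + l) * z / ((c + l) * (1 + l))) := by
      field_simp
      ring
    rw [e1, ih]
    field_simp
    ring

/-- The certificate implies the recurrence of the sums. -/
private theorem eg_rec {a b c e r : ℚ} {P : ℚ → ℚ} {m : ℕ} (hm : b = -(m : ℚ)) (hm2 : 2 ≤ m)
    (hc : ∀ i : ℕ, c + i ≠ 0)
    (hcert : ∀ l : ℚ, e * (c * (c + 1)) * ((a + l) * (a + 1 + l) * (a + 2 + l) * (b + l)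
      * (b + 1 + l)) - r * ((c + l) * (c + 1 + l))
        = P (l + 1) * ((a + l) * (b + l)) / 4 - l * P l * (c + 1 + l)) :
    e * (a * (a + 1) * (a + 2) * b * (b + 1)) * hsum (a + 3) (b + 2) (c + 2) (1 / 4) (m - 1)
      = r * hsum a b c (1 / 4) (m + 1) := by
  obtain ⟨K, hK⟩ : ∃ K : ℕ → ℚ, K = fun l : ℕ => (l : ℚ) * P l / (c + l)
    * hyp a b c (1 / 4) l := ⟨_, rfl⟩
  have hK0 : K 0 = 0 := by
    rw [hK]
    simp
  have hKL : K (m + 1) = 0 := by
    rw [hK]
    show ((m + 1 : ℕ) : ℚ) * P ((m + 1 : ℕ) : ℚ) / (c + ((m + 1 : ℕ) : ℚ))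
      * hyp a b c (1 / 4) (m + 1) = 0
    rw [hm, eg_hyp_van _ _ _ (Nat.lt_succ_self m), mul_zero]
  have hstep : ∀ l : ℕ, e * (a * (a + 1) * (a + 2) * b * (b + 1))
      * hyp (a + 3) (b + 2) (c + 2) (1 / 4) l - r * hyp a b c (1 / 4) l = K (l + 1) - K l := by
    intro l
    have h1 := eg_shift (a := a) (b := b) (z := 1 / 4) hc l
    have h0 := hc l
    have h2 := hc (l + 1)
    have h2' : c + 1 + (l : ℚ) ≠ 0 := by
      intro h
      apply h2
      push_cast
      linarith
    have h3 : (1 : ℚ) + l ≠ 0 := by positivity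
    have h3' : (l : ℚ) + 1 ≠ 0 := by positivity
    have h4 : K (l + 1) = P (l + 1) * ((a + l) * (b + l)) / 4 / ((c + l) * (c + 1 + l))
        * hyp a b c (1 / 4) l := by
      rw [hK]
      show ((l + 1 : ℕ) : ℚ) * P ((l + 1 : ℕ) : ℚ) / (c + ((l + 1 : ℕ) : ℚ))
        * hyp a b c (1 / 4) (l + 1) = _
      rw [eg_hyp_succ]
      push_cast
      rw [show c + ((l : ℚ) + 1) = c + 1 + l by ring]
      field_simp
      ring
    have h5 : K l = l * P l * (c + 1 + l) / ((c + l) * (c + 1 + l)) * hyp a b c (1 / 4) l := by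
      rw [hK]
      show (l : ℚ) * P l / (c + l) * hyp a b c (1 / 4) l = _
      field_simp
    have h6 : e * (a * (a + 1) * (a + 2) * b * (b + 1))
        * hyp (a + 3) (b + 2) (c + 2) (1 / 4) l
        = e * (c * (c + 1)) * ((a + l) * (a + 1 + l) * (a + 2 + l) * (b + l) * (b + 1 + l))
          / ((c + l) * (c + 1 + l)) * hyp a b c (1 / 4) l := by
      rw [div_mul_eq_mul_div, eq_div_iff (mul_ne_zero h0 h2')]
      linear_combination e * h1
    have h7 : r * hyp a b c (1 / 4) l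
        = r * ((c + l) * (c + 1 + l)) / ((c + l) * (c + 1 + l)) * hyp a b c (1 / 4) l := by
      rw [mul_div_assoc, div_self (mul_ne_zero h0 h2'), mul_one]
    rw [h4, h5, h6, h7, ← sub_mul, ← sub_mul, ← sub_div, ← sub_div, hcert]
  have h1 : e * (a * (a + 1) * (a + 2) * b * (b + 1)) * hsum (a + 3) (b + 2) (c + 2) (1 / 4) (m + 1)
      - r * hsum a b c (1 / 4) (m + 1) = 0 := by
    unfold hsum
    rw [mul_sum, mul_sum, ← sum_sub_distrib, sum_congr rfl (fun l _ => hstep l),
      sum_range_sub, hK0, hKL, sub_zero]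
  have h2 : hsum (a + 3) (b + 2) (c + 2) (1 / 4) (m + 1)
      = hsum (a + 3) (b + 2) (c + 2) (1 / 4) (m - 1) := by
    unfold hsum
    symm
    refine sum_subset (range_mono (by omega)) fun l _ hl => ?_
    rw [mem_range, not_lt] at hl
    have h3 : b + 2 = -((m - 2 : ℕ) : ℚ) := by
      rw [hm]
      push_cast [hm2]
      ring
    rw [h3]
    exact eg_hyp_van _ _ _ (by omega)
  rw [← h2]
  linarith

private theorem eg_half {c : ℚ} {m : ℤ} (hc : c = m + 1 / 2) (i : ℕ) : c + i ≠ 0 := by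
  intro h
  rw [hc] at h
  have h1 : (2 * (m + i) + 1 : ℚ) = 0 := by linarith
  have h2 : (2 * (m + i) + 1 : ℤ) = 0 := by exact_mod_cast h1
  omega

theorem stE1 : StE1 := by
  intro n
  induction n with
  | zero =>
    unfold hsum hyp
    simp
  | succ n ih =>
    have hn : (0 : ℚ) ≤ n := Nat.cast_nonneg n
    obtain ⟨al, hal⟩ : ∃ al : ℚ, al = -((n : ℚ) + 1) := ⟨_, rfl⟩
    have h1 := eg_rec (a := 3 * al - 1 / 2) (b := 2 * al) (c := 2 * al + 1 / 2) (e := 36)
      (r := 16 * al * (36 * al ^ 2 - 1) * (4 * al + 1) * (4 * al + 3))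
      (P := fun l => (12 + 82 * al - 896 * al ^ 2 - 8200 * al ^ 3 - 19840 * al ^ 4
          - 14208 * al ^ 5)
          + (9 - 360 * al - 4180 * al ^ 2 - 13120 * al ^ 3 - 10944 * al ^ 4) * l
          + (-48 - 688 * al - 2560 * al ^ 2 - 2304 * al ^ 3) * l ^ 2
          + (-36 - 192 * al - 192 * al ^ 2) * l ^ 3) (m := 2 * n + 2)
      (by rw [hal]; push_cast; ring) (by omega)
      (eg_half (m := -2 * ((n : ℤ) + 1)) (by rw [hal]; push_cast; ring))
      (fun l => by ring)
    have e1 : 3 * al - 1 / 2 + 3 = -(3 * n : ℚ) - 1 / 2 := by rw [hal]; ring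
    have e2 : 2 * al + 2 = -(2 * n : ℚ) := by rw [hal]; ring
    have e3 : 2 * al + 1 / 2 + 2 = 1 / 2 - 2 * n := by rw [hal]; ring
    rw [e1, e2, e3, show 2 * n + 2 - 1 = 2 * n + 1 by omega, ih] at h1
    have e4 : -(3 * ((n + 1 : ℕ) : ℚ)) - 1 / 2 = 3 * al - 1 / 2 := by rw [hal]; push_cast; ring
    have e5 : -(2 * ((n + 1 : ℕ) : ℚ)) = 2 * al := by rw [hal]; push_cast; ring
    have e6 : 1 / 2 - 2 * ((n + 1 : ℕ) : ℚ) = 2 * al + 1 / 2 := by rw [hal]; push_cast; ring
    rw [e4, e5, e6, show 2 * (n + 1) + 1 = 2 * n + 2 + 1 by ring]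
    -- central binomial coefficients
    have c1 := Nat.succ_mul_centralBinom_succ n
    have c2 := Nat.succ_mul_centralBinom_succ (2 * n)
    have c3 := Nat.succ_mul_centralBinom_succ (2 * n + 1)
    have d1 : ((2 * (n + 1)).choose (n + 1) : ℚ) = (n + 1).centralBinom := by
      rw [Nat.centralBinom_eq_two_mul_choose]
    have d2 : ((4 * (n + 1)).choose (2 * (n + 1)) : ℚ) = (2 * n + 1 + 1).centralBinom := by
      rw [Nat.centralBinom_eq_two_mul_choose]
      congr 2
      ring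
    have d3 : ((2 * n).choose n : ℚ) = n.centralBinom := by
      rw [Nat.centralBinom_eq_two_mul_choose]
    have d4 : ((4 * n).choose (2 * n) : ℚ) = (2 * n).centralBinom := by
      rw [Nat.centralBinom_eq_two_mul_choose]
      congr 2
      ring
    rw [d3, d4] at h1
    rw [d1, d2]
    have p1 : (0 : ℚ) < n.centralBinom := by exact_mod_cast Nat.centralBinom_pos n
    have p2 : (0 : ℚ) < (2 * n).centralBinom := by exact_mod_cast Nat.centralBinom_pos _
    have p3 : (0 : ℚ) < (2 * n + 1 + 1).centralBinom := by exact_mod_cast Nat.centralBinom_pos _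
    have q1 : ((n : ℚ) + 1) * (n + 1).centralBinom = 2 * (2 * n + 1) * n.centralBinom := by
      exact_mod_cast c1
    have q2 : (2 * (n : ℚ) + 1) * (2 * n + 1).centralBinom
        = 2 * (2 * (2 * n) + 1) * (2 * n).centralBinom := by
      exact_mod_cast c2
    have q3 : (2 * (n : ℚ) + 1 + 1) * (2 * n + 1 + 1).centralBinom
        = 2 * (2 * (2 * n + 1) + 1) * (2 * n + 1).centralBinom := by
      exact_mod_cast c3
    obtain ⟨x, hx⟩ : ∃ x : ℚ, x = n.centralBinom := ⟨_, rfl⟩
    obtain ⟨y, hy⟩ : ∃ y : ℚ, y = (2 * n).centralBinom := ⟨_, rfl⟩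
    have r1 : ((n + 1).centralBinom : ℚ) = 2 * (2 * n + 1) * x / (n + 1) := by
      rw [eq_div_iff (by positivity), hx]
      linarith
    have r2 : ((2 * n + 1).centralBinom : ℚ) = 2 * (4 * n + 1) * y / (2 * n + 1) := by
      rw [eq_div_iff (by positivity), hy]
      linarith
    have r3 : ((2 * n + 1 + 1).centralBinom : ℚ)
        = 2 * (4 * n + 3) * (2 * (4 * n + 1) * y / (2 * n + 1)) / (2 * n + 2) := by
      rw [eq_div_iff (by positivity), ← r2]
      linarith
    rw [← hx, ← hy] at h1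
    rw [r1, r3]
    rw [← hx] at p1
    rw [← hy] at p2
    have hr : 16 * al * (36 * al ^ 2 - 1) * (4 * al + 1) * (4 * al + 3) ≠ 0 := by
      have : 16 * al * (36 * al ^ 2 - 1) * (4 * al + 1) * (4 * al + 3)
          = -(16 * (n + 1) * ((6 * n + 5) * (6 * n + 7)) * (4 * n + 3) * (4 * n + 1)) := by
        rw [hal]
        ring
      rw [this]
      have : (0 : ℚ) < 16 * (n + 1) * ((6 * n + 5) * (6 * n + 7)) * (4 * n + 3) * (4 * n + 1) := by
        positivity
      linarith
    refine mul_left_cancel₀ hr ?_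
    rw [← h1, hal, pow_succ]
    field_simp
    ring

private theorem eg_choose (n : ℕ) : ((4 * (n + 1)).choose (n + 1) : ℚ)
    = (4 * n).choose n * ((4 * n + 4) * (4 * n + 3) * (4 * n + 2) * (4 * n + 1)
      / ((n + 1) * ((3 * n + 3) * (3 * n + 2) * (3 * n + 1)))) := by
  have h1 : ((4 * n).choose n : ℚ) = (4 * n).factorial / (n.factorial * (3 * n).factorial) := by
    have := Nat.cast_add_choose ℚ (a := n) (b := 3 * n)
    rw [show n + 3 * n = 4 * n by ring] at this
    exact this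
  have h2 : ((4 * (n + 1)).choose (n + 1) : ℚ)
      = (4 * n + 4).factorial / ((n + 1).factorial * (3 * n + 3).factorial) := by
    have := Nat.cast_add_choose ℚ (a := n + 1) (b := 3 * n + 3)
    rw [show n + 1 + (3 * n + 3) = 4 * n + 4 by ring] at this
    rw [show 4 * (n + 1) = 4 * n + 4 by ring]
    exact this
  have f1 : ((4 * n + 4).factorial : ℚ)
      = (4 * n + 4) * ((4 * n + 3) * ((4 * n + 2) * ((4 * n + 1) * (4 * n).factorial))) := by
    rw [Nat.factorial_succ, Nat.factorial_succ, Nat.factorial_succ, Nat.factorial_succ]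
    push_cast
    ring
  have f2 : ((3 * n + 3).factorial : ℚ)
      = (3 * n + 3) * ((3 * n + 2) * ((3 * n + 1) * (3 * n).factorial)) := by
    rw [Nat.factorial_succ, Nat.factorial_succ, Nat.factorial_succ]
    push_cast
    ring
  have f3 : ((n + 1).factorial : ℚ) = (n + 1) * n.factorial := by
    rw [Nat.factorial_succ]
    push_cast
    ring
  have g1 : ((4 * n).factorial : ℚ) ≠ 0 := by exact_mod_cast Nat.factorial_ne_zero _
  have g2 : ((3 * n).factorial : ℚ) ≠ 0 := by exact_mod_cast Nat.factorial_ne_zero _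
  have g3 : (n.factorial : ℚ) ≠ 0 := by exact_mod_cast Nat.factorial_ne_zero _
  rw [h1, h2, f1, f2, f3]
  field_simp

theorem stG2 : StG2 := by
  intro n
  induction n with
  | zero =>
    unfold hsum hyp
    simp
  | succ n ih =>
    have hn : (0 : ℚ) ≤ n := Nat.cast_nonneg n
    obtain ⟨al, hal⟩ : ∃ al : ℚ, al = -((n : ℚ) + 1) := ⟨_, rfl⟩
    have h1 := eg_rec (a := 3 * al) (b := 2 * al) (c := 2 * al + 1 / 2)
      (e := 9 / 2 * (2 * al + 1))
      (r := 36 * al ^ 2 * (2 * al + 1) ^ 2 * (4 * al + 1) * (4 * al + 3))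
      (P := fun l => (-45 * al - 573 * al ^ 2 - 2835 * al ^ 3 - 6810 * al ^ 4 - 7920 * al ^ 5
          - 3552 * al ^ 6)
          + (-9 - 375 / 2 * al - 2583 / 2 * al ^ 2 - 3921 * al ^ 3 - 5400 * al ^ 4
            - 2736 * al ^ 5) * l
          + (-(27 / 2) - 153 * al - 612 * al ^ 2 - 1008 * al ^ 3 - 576 * al ^ 4) * l ^ 2
          + (-(9 / 2) - 33 * al - 72 * al ^ 2 - 48 * al ^ 3) * l ^ 3) (m := 2 * n + 2)
      (by rw [hal]; push_cast; ring) (by omega)
      (eg_half (m := -2 * ((n : ℤ) + 1)) (by rw [hal]; push_cast; ring))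
      (fun l => by ring)
    have e1 : 3 * al + 3 = -(3 * n : ℚ) := by rw [hal]; ring
    have e2 : 2 * al + 2 = -(2 * n : ℚ) := by rw [hal]; ring
    have e3 : 2 * al + 1 / 2 + 2 = 1 / 2 - 2 * n := by rw [hal]; ring
    rw [e1, e2, e3, show 2 * n + 2 - 1 = 2 * n + 1 by omega, ih] at h1
    have e4 : -(3 * ((n + 1 : ℕ) : ℚ)) = 3 * al := by rw [hal]; push_cast; ring
    have e5 : -(2 * ((n + 1 : ℕ) : ℚ)) = 2 * al := by rw [hal]; push_cast; ring
    have e6 : 1 / 2 - 2 * ((n + 1 : ℕ) : ℚ) = 2 * al + 1 / 2 := by rw [hal]; push_cast; ring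
    rw [e4, e5, e6, show 2 * (n + 1) + 1 = 2 * n + 2 + 1 by ring]
    have c1 := Nat.succ_mul_centralBinom_succ n
    have d1 : ((2 * (n + 1)).choose (n + 1) : ℚ) = (n + 1).centralBinom := by
      rw [Nat.centralBinom_eq_two_mul_choose]
    have d3 : ((2 * n).choose n : ℚ) = n.centralBinom := by
      rw [Nat.centralBinom_eq_two_mul_choose]
    rw [d3] at h1
    rw [d1, eg_choose]
    have q1 : ((n : ℚ) + 1) * (n + 1).centralBinom = 2 * (2 * n + 1) * n.centralBinom := by
      exact_mod_cast c1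
    obtain ⟨x, hx⟩ : ∃ x : ℚ, x = n.centralBinom := ⟨_, rfl⟩
    obtain ⟨y, hy⟩ : ∃ y : ℚ, y = (4 * n).choose n := ⟨_, rfl⟩
    have hy0 : 0 < y := by
      rw [hy]
      exact_mod_cast Nat.choose_pos (by omega)
    have r1 : ((n + 1).centralBinom : ℚ) = 2 * (2 * n + 1) * x / (n + 1) := by
      rw [eq_div_iff (by positivity), hx]
      linarith
    rw [← hx, ← hy] at h1
    rw [r1, ← hy]
    have hr : 36 * al ^ 2 * (2 * al + 1) ^ 2 * (4 * al + 1) * (4 * al + 3) ≠ 0 := by
      have : 36 * al ^ 2 * (2 * al + 1) ^ 2 * (4 * al + 1) * (4 * al + 3)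
          = 36 * ((n : ℚ) + 1) ^ 2 * (2 * n + 1) ^ 2 * (4 * n + 3) * (4 * n + 1) := by
        rw [hal]
        ring
      rw [this]
      positivity
    refine mul_left_cancel₀ hr ?_
    rw [← h1, hal]
    field_simp
    ring

end MPb66c90
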