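import Pool.Agent.Lib.MP_b66c90_nt.Spec

/-!
# Euler's transformation of terminating hypergeometric sums
-/

namespace MPb66c90

open Finset

/-- Rising factorials. -/
private def eup (x : ℚ) (l : ℕ) : ℚ := ∏ i ∈ range l, (x + i)

private lemma eup_succ (x : ℚ) (l : ℕ) : eup x (l + 1) = eup x l * (x + l) :=
  prod_range_succ _ _

private lemma eup_zero (x : ℚ) : eup x 0 = 1 := prod_range_zero _

private lemma eup_succ' (x : ℚ) (l : ℕ) : eup x (l + 1) = x * eup (x + 1) l := by
  unfold eup
  rw [prod_range_succ', Nat.cast_zero, add_zero, mul_comm]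
  congr 1
  refine prod_congr rfl fun i _ => ?_
  push_cast
  ring

private lemma eup_ne (x : ℚ) (h : ∀ i : ℕ, x + i ≠ 0) (l : ℕ) : eup x l ≠ 0 :=
  prod_ne_zero_iff.2 fun i _ => h i

private lemma eup_sub (x : ℚ) (l : ℕ) :
    eup (x + 1) (l + 1) = eup x (l + 1) + (l + 1) * eup (x + 1) l := by
  rw [eup_succ (x + 1) l, eup_succ' x l]
  ring

/-- The Chu-Vandermonde identity. -/
private lemma eu_vander (M : ℕ) : ∀ (c : ℚ) (l : ℕ), (∀ i : ℕ, c + i ≠ 0) →
    eup (c + M) l / eup c l
      = ∑ i ∈ range (M + 1), (M.choose i : ℚ) * (l.choose i : ℚ) * (i.factorial : ℚ) / eup c i := by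
  induction M with
  | zero =>
    intro c l h
    rw [Nat.cast_zero, add_zero, div_self (eup_ne c h l)]
    simp [eup_zero]
  | succ M ih =>
    intro c l h
    have h' : ∀ i : ℕ, c + 1 + i ≠ 0 := fun i => by
      have := h (i + 1)
      push_cast at this
      intro h0
      apply this
      rw [← h0]
      ring
    have hc : c ≠ 0 := by simpa using h 0
    cases l with
    | zero =>
      rw [eup_zero, eup_zero, sum_range_succ']
      simp [eup_zero]
    | succ l =>
      have e1 := ih c (l + 1) h
      have e2 := ih (c + 1) l h'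
      have e3 : ∑ i ∈ range (M + 1 + 1),
            ((M + 1).choose i : ℚ) * ((l + 1).choose i : ℚ) * (i.factorial : ℚ) / eup c i
          = (∑ i ∈ range (M + 1),
              (M.choose i : ℚ) * ((l + 1).choose i : ℚ) * (i.factorial : ℚ) / eup c i)
            + ((l : ℚ) + 1) / c * ∑ i ∈ range (M + 1),
              (M.choose i : ℚ) * (l.choose i : ℚ) * (i.factorial : ℚ) / eup (c + 1) i := by
        have e4 : ∑ i ∈ range (M + 1),
              (M.choose i : ℚ) * ((l + 1).choose i : ℚ) * (i.factorial : ℚ) / eup c i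
            = ∑ i ∈ range (M + 1 + 1),
              (M.choose i : ℚ) * ((l + 1).choose i : ℚ) * (i.factorial : ℚ) / eup c i := by
          rw [sum_range_succ _ (M + 1), Nat.choose_succ_self]
          simp
        rw [e4, sum_range_succ', sum_range_succ' _ (M + 1), mul_sum, add_right_comm,
          ← sum_add_distrib]
        congr 1
        · refine sum_congr rfl fun i _ => ?_
          have h5 : ((l + 1).choose (i + 1) : ℚ) * (i + 1) = (l + 1) * (l.choose i : ℚ) := by
            have := Nat.add_one_mul_choose_eq l i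
            have h6 : (((l + 1) * l.choose i : ℕ) : ℚ)
              = (((l + 1).choose (i + 1) * (i + 1) : ℕ) : ℚ) := by rw [this]
            push_cast at h6
            linarith
          have h7 := eup_ne (c + 1) h' i
          rw [eup_succ' c i, Nat.choose_succ_succ M i, Nat.factorial_succ]
          push_cast
          field_simp
          linear_combination (M.choose i : ℚ) * h5
        · simp
      rw [e3, ← e1, ← e2]
      have h8 := eup_ne (c + 1) h' l
      have h9 := eup_sub (c + M) l
      have h10 : c + ((M + 1 : ℕ) : ℚ) = c + M + 1 := by push_cast; ring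
      have h11 : c + 1 + (M : ℚ) = c + M + 1 := by ring
      rw [h10, h9, h11, eup_succ' c l]
      field_simp

private lemma eu_binom (N i : ℕ) (x : ℚ) :
    ∑ l ∈ range (N + 1), (N.choose l : ℚ) * (l.choose i : ℚ) * x ^ l
      = (N.choose i : ℚ) * x ^ i * (1 + x) ^ (N - i) := by
  rcases Nat.lt_or_ge N i with h | h
  · rw [Nat.choose_eq_zero_of_lt h]
    rw [sum_eq_zero]
    · simp
    · intro l hl
      rw [Nat.choose_eq_zero_of_lt (lt_of_lt_of_le (mem_range.1 hl) h)]
      simp
  · obtain ⟨n, rfl⟩ := Nat.exists_eq_add_of_le h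
    rw [add_assoc, sum_range_add, sum_eq_zero, zero_add, Nat.add_sub_cancel_left, add_comm 1 x,
      add_pow, mul_sum]
    · refine sum_congr rfl fun j hj => ?_
      have hj' : j ≤ n := Nat.lt_succ_iff.1 (mem_range.1 hj)
      have h1 := Nat.choose_mul (n := i + n) (k := i + j) (s := i) (by omega)
      have h2 : (((i + n).choose (i + j) * (i + j).choose i : ℕ) : ℚ)
        = (((i + n).choose i * (i + n - i).choose (i + j - i) : ℕ) : ℚ) := by rw [h1]
      rw [Nat.add_sub_cancel_left, Nat.add_sub_cancel_left] at h2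
      push_cast at h2
      rw [h2, one_pow, pow_add]
      ring
    · intro l hl
      rw [Nat.choose_eq_zero_of_lt (mem_range.1 hl)]
      simp

private lemma eu_hyp (c z : ℚ) (M N : ℕ) (h : ∀ i : ℕ, c + i ≠ 0) (l : ℕ) :
    hyp (c + M) (-(N : ℚ)) c z l = eup (c + M) l / eup c l * ((N.choose l : ℚ) * (-z) ^ l) := by
  induction l with
  | zero => simp [hyp, eup_zero]
  | succ l ih =>
    have h1 : hyp (c + M) (-(N : ℚ)) c z (l + 1) = hyp (c + M) (-(N : ℚ)) c z l *
        ((c + M + l) * (-(N : ℚ) + l) / ((c + l) * (1 + l)) * z) := prod_range_succ _ _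
    have h2 : (N.choose (l + 1) : ℚ) * (l + 1) = (N.choose l : ℚ) * (N - l) := by
      rcases Nat.lt_or_ge N l with h3 | h3
      · rw [Nat.choose_eq_zero_of_lt h3, Nat.choose_eq_zero_of_lt (by omega)]
        simp
      · have := Nat.choose_succ_right_eq N l
        have h4 : ((N.choose (l + 1) * (l + 1) : ℕ) : ℚ) = ((N.choose l * (N - l) : ℕ) : ℚ) := by
          rw [this]
        push_cast [Nat.cast_sub h3] at h4
        exact h4
    have h5 := eup_ne c h l
    have h6 := h l
    have h7 : (1 + (l : ℚ)) ≠ 0 := by positivity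
    rw [h1, ih, eup_succ, eup_succ, pow_succ]
    field_simp
    linear_combination (eup (c + M) l * z * (-z) ^ l * (c + M + l)) * h2

private lemma eu_hsum (c z : ℚ) (M N : ℕ) (h : ∀ i : ℕ, c + i ≠ 0) :
    hsum (c + M) (-(N : ℚ)) c z (N + 1)
      = ∑ i ∈ range (M + 1), (M.choose i : ℚ) * (i.factorial : ℚ) / eup c i *
        ((N.choose i : ℚ) * (-z) ^ i * (1 - z) ^ (N - i)) := by
  have h1 : ∀ l : ℕ, hyp (c + M) (-(N : ℚ)) c z l
      = ∑ i ∈ range (M + 1), (M.choose i : ℚ) * (i.factorial : ℚ) / eup c i *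
        ((N.choose l : ℚ) * (l.choose i : ℚ) * (-z) ^ l) := fun l => by
    rw [eu_hyp c z M N h l, eu_vander M c l h, sum_mul]
    refine sum_congr rfl fun i _ => ?_
    ring
  unfold hsum
  rw [sum_congr rfl fun l _ => h1 l, sum_comm]
  refine sum_congr rfl fun i _ => ?_
  rw [← mul_sum, eu_binom N i (-z)]
  ring

private lemma eu_half (c z : ℚ) (M N : ℕ) (h : ∀ i : ℕ, c + i ≠ 0) :
    (1 - z) ^ M * hsum (c + M) (-(N : ℚ)) c z (N + 1)
      = ∑ i ∈ range (M + N + 1), (M.choose i : ℚ) * (N.choose i : ℚ) * (i.factorial : ℚ) / eup c i *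
        ((-z) ^ i * (1 - z) ^ (M + N - i)) := by
  have h0 : M + N + 1 = (M + 1) + N := by ring
  rw [eu_hsum c z M N h, mul_sum, h0, sum_range_add _ (M + 1) N,
    ← add_zero (∑ i ∈ range (M + 1), (1 - z) ^ M * _)]
  congr 1
  · refine sum_congr rfl fun i _ => ?_
    rcases Nat.lt_or_ge N i with h1 | h1
    · rw [Nat.choose_eq_zero_of_lt h1]
      simp
    · rw [Nat.add_sub_assoc h1, pow_add]
      ring
  · symm
    refine sum_eq_zero fun i _ => ?_
    rw [Nat.choose_eq_zero_of_lt (n := M) (by omega)]
    simp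

private lemma eu_symm (a b c z : ℚ) (L : ℕ) : hsum a b c z L = hsum b a c z L := by
  unfold hsum hyp
  refine sum_congr rfl fun l _ => prod_congr rfl fun i _ => ?_
  ring

theorem stEuler : StEuler := by
  intro c z M N h
  rw [eu_half c z M N h, eu_symm, eu_half c z N M h, add_comm N M]
  refine sum_congr rfl fun i _ => ?_
  ring

end MPb66c90
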