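import Pool.Agent.Lib.MP_b66c90_nt.Spec

/-!
# Evaluations of products modulo `p ^ 2`
-/

namespace MPb66c90

open Finset

section

variable {p : ℕ} [hp : Fact p.Prime]

private lemma ev_harm (n : ℕ) : harmonic n = ∑ i ∈ range n, (((i + 1 : ℕ) : ℚ))⁻¹ := rfl

private lemma ev_inv_mem {i : ℕ} (hi : i + 1 < p) : (((i + 1 : ℕ) : ℚ))⁻¹ ∈ Zp p :=
  inv_nat_mem_of_lt (i + 1) (Nat.succ_pos i) hi

private lemma ev_harm_mem {m : ℕ} (hm : m < p) : (harmonic m : ℚ) ∈ Zp p := by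
  rw [ev_harm]
  exact (Zp p).sum_mem fun i hi => ev_inv_mem (by rw [mem_range] at hi; omega)

/-- `∏ (1 + p c / (i + 1)) = 1 + p c H_m` -/
private lemma ev_prod (c : ℚ) (hc : c ∈ Zp p) {m : ℕ} (hm : m < p) :
    Cg p 2 (∏ i ∈ range m, (1 + (p : ℚ) * (c * (((i + 1 : ℕ) : ℚ))⁻¹))) (1 + p * (c * harmonic m)) := by
  have h := cg_prod_one_add (p := p) (range m) (fun i => c * (((i + 1 : ℕ) : ℚ))⁻¹)
    (fun i hi => (Zp p).mul_mem hc (ev_inv_mem (by rw [mem_range] at hi; omega)))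
  rw [← mul_sum, ← ev_harm] at h
  exact h

/-- `∏ (1 + p c / (i + 1))⁻¹ = 1 - p c H_m` -/
private lemma ev_prod_inv (c : ℚ) (hc : c ∈ Zp p) {m : ℕ} (hm : m < p) :
    Cg p 2 (∏ i ∈ range m, (1 + (p : ℚ) * (c * (((i + 1 : ℕ) : ℚ))⁻¹))⁻¹)
      (1 + p * (-c * harmonic m)) := by
  refine Cg.trans ?_ (ev_prod (-c) ((Zp p).neg_mem hc) hm)
  refine Cg.prod _ _ _ (fun i hi => ?_) (fun i hi => ?_)
  · have h1 : c * (((i + 1 : ℕ) : ℚ))⁻¹ ∈ Zp p :=
      (Zp p).mul_mem hc (ev_inv_mem (by rw [mem_range] at hi; omega))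
    have h2 := cg_inv_one_add h1
    have e : 1 + (p : ℚ) * (-c * (((i + 1 : ℕ) : ℚ))⁻¹) = 1 - p * (c * (((i + 1 : ℕ) : ℚ))⁻¹) := by
      ring
    rw [e]
    exact h2
  · exact (Zp p).add_mem (Zp p).one_mem ((Zp p).mul_mem (nat_mem p)
      ((Zp p).mul_mem ((Zp p).neg_mem hc) (ev_inv_mem (by rw [mem_range] at hi; omega))))

omit hp in
/-- `binom(p-1,m) = (-1)^m ∏ (1 - p / (i + 1))` -/
private lemma ev_choose (m : ℕ) (hm : m < p) :
    (((p - 1).choose m : ℕ) : ℚ) = (-1) ^ m *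
      ∏ i ∈ range m, (1 + (p : ℚ) * (-1 * (((i + 1 : ℕ) : ℚ))⁻¹)) := by
  induction m with
  | zero => simp
  | succ m ih =>
    have ih' := ih (by omega)
    have h1 := Nat.choose_succ_right_eq (p - 1) m
    have h2 : (((p - 1).choose (m + 1) : ℕ) : ℚ) * ((m : ℚ) + 1)
        = (((p - 1).choose m : ℕ) : ℚ) * ((p : ℚ) - 1 - m) := by
      have h3 : (((p - 1).choose (m + 1) * (m + 1) : ℕ) : ℚ)
          = (((p - 1).choose m * (p - 1 - m) : ℕ) : ℚ) := by rw [h1]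
      rw [Nat.cast_mul, Nat.cast_mul, Nat.cast_sub (by omega), Nat.cast_sub (by omega)] at h3
      push_cast at h3
      exact h3
    have h4 : ((m : ℚ) + 1) ≠ 0 := by positivity
    rw [prod_range_succ, pow_succ]
    have h5 : (((p - 1).choose (m + 1) : ℕ) : ℚ)
        = (((p - 1).choose m : ℕ) : ℚ) * (-(1 + (p : ℚ) * (-1 * (((m + 1 : ℕ) : ℚ))⁻¹))) := by
      push_cast
      field_simp
      linear_combination h2
    rw [h5, ih']
    ring

private lemma ev_choose_inv (m : ℕ) (hm : m < p) :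
    Cg p 2 ((((p - 1).choose m : ℕ) : ℚ))⁻¹ ((-1) ^ m * (1 + p * harmonic m)) := by
  rw [ev_choose m hm, mul_inv, ← prod_inv_distrib]
  have h1 : (((-1 : ℚ)) ^ m)⁻¹ = (-1) ^ m := by
    rw [← inv_pow]
    norm_num
  rw [h1]
  have h2 := ev_prod_inv (-1 : ℚ) ((Zp p).neg_mem (Zp p).one_mem) hm
  have h3 : (1 + (p : ℚ) * (- -1 * harmonic m)) = 1 + p * harmonic m := by ring
  rw [h3] at h2
  exact h2.mul_left _ ((Zp p).pow_mem ((Zp p).neg_mem (Zp p).one_mem) m)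

private lemma ev_choose_cg (m : ℕ) (hm : m < p) :
    Cg p 2 ((((p - 1).choose m : ℕ) : ℚ)) ((-1) ^ m * (1 - p * harmonic m)) := by
  rw [ev_choose m hm]
  have h2 := ev_prod (-1 : ℚ) ((Zp p).neg_mem (Zp p).one_mem) hm
  have h3 : (1 + (p : ℚ) * (-1 * harmonic m)) = 1 - p * harmonic m := by ring
  rw [h3] at h2
  exact h2.mul_left _ ((Zp p).pow_mem ((Zp p).neg_mem (Zp p).one_mem) m)

end

theorem stEv1 : StEv1 := by
  intro p k hp hk
  have h := ev_choose_inv (p := p) (2 * k) (by omega)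
  have e : p - 1 = 4 * k := by omega
  rw [e, pow_mul, neg_one_sq, one_pow, one_mul] at h
  exact h

theorem stEv3 : StEv3 := by
  intro p k hp hk
  have h := ev_choose_inv (p := p) k (by omega)
  have e : p - 1 = 4 * k := by omega
  rw [e] at h
  exact h

private lemma ev_half_mem {p k : ℕ} [Fact p.Prime] (hk : p = 4 * k + 1) : (1 / 2 : ℚ) ∈ Zp p := by
  have h := inv_nat_mem (p := p) 2 (fun h => by
    have := Nat.le_of_dvd (by norm_num) h
    have h1 : p ≠ 1 := (Fact.out : p.Prime).one_lt.ne'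
    omega)
  rw [one_div]
  exact_mod_cast h

theorem stEv2 : StEv2 := by
  intro p k hp hk
  have h := ev_prod_inv (p := p) (1 / 2 : ℚ) (ev_half_mem hk) (m := k) (by omega)
  have e1 : ∏ j ∈ range k, ((2 * (j + 1) : ℚ) / (4 * k + 1 + 2 * (j + 1)))
      = ∏ i ∈ range k, (1 + (p : ℚ) * (1 / 2 * (((i + 1 : ℕ) : ℚ))⁻¹))⁻¹ := by
    refine prod_congr rfl fun j _ => ?_
    have hpc : (p : ℚ) = 4 * k + 1 := by rw [hk]; push_cast; ring
    have h1 : ((j : ℚ) + 1) ≠ 0 := by positivity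
    have h2 : ((4 : ℚ) * k + 1 + 2 * (j + 1)) ≠ 0 := by positivity
    rw [hpc]
    push_cast
    have e2 : (1 + ((4 : ℚ) * k + 1) * (1 / 2 * ((j : ℚ) + 1)⁻¹))
        = (4 * k + 1 + 2 * (j + 1)) / (2 * (j + 1)) := by
      field_simp
      ring
    rw [e2, inv_div]
  rw [e1]
  have e2 : (1 + (p : ℚ) * (-(1 / 2) * harmonic k)) = 1 - (p : ℚ) / 2 * harmonic k := by ring
  rw [e2] at h
  exact h

private lemma ev_harm_zero {p k : ℕ} [Fact p.Prime] (hk : p = 4 * k + 1) :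
    ∃ z ∈ Zp p, (harmonic (4 * k) : ℚ) = p * z := by
  refine ⟨1 / 2 * ∑ i ∈ range (4 * k), (((i + 1 : ℕ) : ℚ))⁻¹ * (((4 * k - 1 - i + 1 : ℕ) : ℚ))⁻¹,
    ?_, ?_⟩
  · refine (Zp p).mul_mem (ev_half_mem hk) ((Zp p).sum_mem fun i hi => ?_)
    rw [mem_range] at hi
    exact (Zp p).mul_mem (ev_inv_mem (by omega)) (ev_inv_mem (by omega))
  · have h1 : (harmonic (4 * k) : ℚ) = ∑ i ∈ range (4 * k), (((4 * k - 1 - i + 1 : ℕ) : ℚ))⁻¹ := by
      rw [ev_harm]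
      exact (sum_range_reflect (fun i => (((i + 1 : ℕ) : ℚ))⁻¹) (4 * k)).symm
    have h2 : (harmonic (4 * k) : ℚ) + harmonic (4 * k) = p *
        ∑ i ∈ range (4 * k), (((i + 1 : ℕ) : ℚ))⁻¹ * (((4 * k - 1 - i + 1 : ℕ) : ℚ))⁻¹ := by
      nth_rewrite 1 [ev_harm]
      rw [h1, ← sum_add_distrib, mul_sum]
      refine sum_congr rfl fun i hi => ?_
      rw [mem_range] at hi
      have a1 : (((i + 1 : ℕ) : ℚ)) ≠ 0 := by positivity
      have a2 : (((4 * k - 1 - i + 1 : ℕ) : ℚ)) ≠ 0 := by positivity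
      have a3 : (p : ℚ) = ((i + 1 : ℕ) : ℚ) + ((4 * k - 1 - i + 1 : ℕ) : ℚ) := by
        have : p = (i + 1) + (4 * k - 1 - i + 1) := by omega
        exact_mod_cast this
      rw [a3]
      field_simp
      ring
    linear_combination (1 / 2 : ℚ) * h2

private lemma ev_fact (n m : ℕ) :
    ((n + m).factorial : ℚ) = n.factorial * ∏ i ∈ range m, ((n : ℚ) + ((i + 1 : ℕ) : ℚ)) := by
  induction m with
  | zero => simp
  | succ m ih =>
    rw [← add_assoc, Nat.factorial_succ, Nat.cast_mul, ih, prod_range_succ]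
    push_cast
    ring

private lemma ev_fact0 (m : ℕ) : (m.factorial : ℚ) = ∏ i ∈ range m, (((i + 1 : ℕ) : ℚ)) := by
  have h := ev_fact 0 m
  simp only [zero_add, Nat.factorial_zero, Nat.cast_one, one_mul, Nat.cast_zero] at h
  exact h

/-- `∏ (a + (i + 1)) = m! ∏ (1 + a / (i + 1))` -/
private lemma ev_shift (a : ℚ) (m : ℕ) :
    ∏ i ∈ range m, (a + ((i + 1 : ℕ) : ℚ)) =
      m.factorial * ∏ i ∈ range m, (1 + a * (((i + 1 : ℕ) : ℚ))⁻¹) := by
  rw [ev_fact0, ← prod_mul_distrib]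
  refine prod_congr rfl fun i _ => ?_
  have : (((i + 1 : ℕ) : ℚ)) ≠ 0 := by positivity
  field_simp
  ring

/-- the product as a quotient of factorials -/
private lemma ev_closed (n : ℕ) :
    ∏ i ∈ range n, ((4 * i + 5 : ℚ) * (4 * i + 7) / (4 * (2 * i + 3) ^ 2)) =
      ((4 * n + 3).factorial : ℚ) * (n.factorial : ℚ) ^ 2 /
        (3 * 2 ^ (2 * n + 1) * ((2 * n + 1).factorial : ℚ) ^ 3) := by
  induction n with
  | zero => norm_num [Nat.factorial]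
  | succ n ih =>
    rw [prod_range_succ, ih]
    have e1 : ((4 * (n + 1) + 3).factorial : ℚ)
        = (4 * n + 7) * (4 * n + 6) * (4 * n + 5) * (4 * n + 4) * ((4 * n + 3).factorial : ℚ) := by
      have : 4 * (n + 1) + 3 = 4 * n + 3 + 1 + 1 + 1 + 1 := by ring
      rw [this, Nat.factorial_succ, Nat.factorial_succ, Nat.factorial_succ, Nat.factorial_succ]
      push_cast
      ring
    have e2 : ((2 * (n + 1) + 1).factorial : ℚ)
        = (2 * n + 3) * (2 * n + 2) * ((2 * n + 1).factorial : ℚ) := by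
      have : 2 * (n + 1) + 1 = 2 * n + 1 + 1 + 1 := by ring
      rw [this, Nat.factorial_succ, Nat.factorial_succ]
      push_cast
      ring
    have e3 : ((n + 1).factorial : ℚ) = (n + 1) * (n.factorial : ℚ) := by
      rw [Nat.factorial_succ]
      push_cast
      ring
    have e4 : (2 : ℚ) ^ (2 * (n + 1) + 1) = 4 * 2 ^ (2 * n + 1) := by
      rw [show 2 * (n + 1) + 1 = 2 * n + 1 + 2 by ring, pow_add]
      ring
    rw [e1, e2, e3, e4]
    have f1 : ((2 * n + 1).factorial : ℚ) ≠ 0 := by positivity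
    have f2 : (2 * (n : ℚ) + 3) ≠ 0 := by positivity
    have f3 : ((n : ℚ) + 1) ≠ 0 := by positivity
    field_simp
    ring

/-- the exact identity behind `stEv4` -/
private lemma ev_exact {p k : ℕ} (hk : p = 4 * k + 1) :
    ∏ i ∈ range (3 * k), ((4 * i + 5 : ℚ) * (4 * i + 7) / (4 * (2 * i + 3) ^ 2)) =
      (1 / 64) ^ k * (2 * k).choose k *
        ((((4 * k).choose (2 * k) : ℚ) * (((4 * k).choose k : ℚ))⁻¹) ^ 2 *
        (∏ i ∈ range (4 * k), (1 + (p : ℚ) * (1 * (((i + 1 : ℕ) : ℚ))⁻¹))) *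
        (∏ i ∈ range (4 * k), (1 + (p : ℚ) * (2 * (((i + 1 : ℕ) : ℚ))⁻¹))) *
        (∏ i ∈ range (2 * k), (1 + (p : ℚ) * (1 * (((i + 1 : ℕ) : ℚ))⁻¹))⁻¹) ^ 3) := by
  have hpc : (p : ℚ) = 4 * k + 1 := by rw [hk]; push_cast; ring
  have hp0 : (p : ℚ) ≠ 0 := by rw [hpc]; positivity
  rw [ev_closed]
  have g1 : 4 * (3 * k) + 3 = (2 * p) + p := by omega
  have g2 : 2 * (3 * k) + 1 = p + 2 * k := by omega
  rw [g1, g2, ev_fact (2 * p) p, ev_fact p (2 * k)]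
  have g3 : ((2 * p).factorial : ℚ) = p.factorial * ∏ i ∈ range p, ((p : ℚ) + ((i + 1 : ℕ) : ℚ)) := by
    have := ev_fact p p
    rwa [← two_mul] at this
  rw [g3]
  obtain ⟨A, hA⟩ : ∃ A, A = ∏ i ∈ range (4 * k), (1 + (p : ℚ) * (1 * (((i + 1 : ℕ) : ℚ))⁻¹)) :=
    ⟨_, rfl⟩
  obtain ⟨B, hB⟩ : ∃ B, B = ∏ i ∈ range (4 * k), (1 + (p : ℚ) * (2 * (((i + 1 : ℕ) : ℚ))⁻¹)) :=
    ⟨_, rfl⟩
  obtain ⟨F, hF⟩ : ∃ F, F = ∏ i ∈ range (2 * k), (1 + (p : ℚ) * (1 * (((i + 1 : ℕ) : ℚ))⁻¹)) :=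
    ⟨_, rfl⟩
  have hF0 : F ≠ 0 := by
    rw [hF]
    refine prod_ne_zero_iff.2 fun i _ => ?_
    positivity
  have pA : ∏ i ∈ range p, ((p : ℚ) + ((i + 1 : ℕ) : ℚ)) = (4 * k).factorial * A * (2 * p) := by
    rw [show range p = range (4 * k + 1) by rw [hk], prod_range_succ, ev_shift]
    have e1 : ∏ i ∈ range (4 * k), (1 + (p : ℚ) * (((i + 1 : ℕ) : ℚ))⁻¹) = A := by
      rw [hA]
      exact prod_congr rfl fun i _ => by rw [one_mul]
    rw [e1, hpc]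
    push_cast
    ring
  have pB : ∏ i ∈ range p, (((2 * p : ℕ) : ℚ) + ((i + 1 : ℕ) : ℚ))
      = (4 * k).factorial * B * (3 * p) := by
    rw [show range p = range (4 * k + 1) by rw [hk], prod_range_succ, ev_shift]
    have e1 : ∏ i ∈ range (4 * k), (1 + ((2 * p : ℕ) : ℚ) * (((i + 1 : ℕ) : ℚ))⁻¹) = B := by
      rw [hB]
      refine prod_congr rfl fun i _ => ?_
      push_cast
      ring
    rw [e1]
    push_cast
    rw [hpc]
    ring
  have pF : ∏ i ∈ range (2 * k), ((p : ℚ) + ((i + 1 : ℕ) : ℚ)) = (2 * k).factorial * F := by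
    rw [ev_shift]
    have e1 : ∏ i ∈ range (2 * k), (1 + (p : ℚ) * (((i + 1 : ℕ) : ℚ))⁻¹) = F := by
      rw [hF]
      exact prod_congr rfl fun i _ => by rw [one_mul]
    rw [e1]
  have pp : (p.factorial : ℚ) = p * (4 * k).factorial := by
    rw [show p.factorial = (4 * k + 1).factorial by rw [hk], Nat.factorial_succ]
    push_cast
    rw [hpc]
  rw [pA, pB, pF, pp, prod_inv_distrib, ← hA, ← hB, ← hF]
  have c1 : ((2 * k).choose k : ℚ) = (2 * k).factorial / ((k.factorial : ℚ) * k.factorial) := by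
    rw [Nat.cast_choose ℚ (show k ≤ 2 * k by omega)]
    rw [show 2 * k - k = k by omega]
  have c2 : ((4 * k).choose (2 * k) : ℚ)
      = (4 * k).factorial / (((2 * k).factorial : ℚ) * (2 * k).factorial) := by
    rw [Nat.cast_choose ℚ (show 2 * k ≤ 4 * k by omega)]
    rw [show 4 * k - 2 * k = 2 * k by omega]
  have c3 : ((4 * k).choose k : ℚ) = (4 * k).factorial / ((k.factorial : ℚ) * (3 * k).factorial) := by
    rw [Nat.cast_choose ℚ (show k ≤ 4 * k by omega)]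
    rw [show 4 * k - k = 3 * k by omega]
  rw [c1, c2, c3]
  have q1 : (k.factorial : ℚ) ≠ 0 := by positivity
  have q2 : ((2 * k).factorial : ℚ) ≠ 0 := by positivity
  have q3 : ((3 * k).factorial : ℚ) ≠ 0 := by positivity
  have q4 : ((4 * k).factorial : ℚ) ≠ 0 := by positivity
  have q5 : (2 : ℚ) ^ (p + 2 * k) = 2 * 64 ^ k := by
    rw [← g2, pow_succ, show 2 * (3 * k) = 6 * k by ring, pow_mul]
    norm_num
    ring
  have q6 : (64 : ℚ) ^ k ≠ 0 := by positivity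
  rw [q5, div_pow, one_pow]
  field_simp

theorem stEv4 (h : StH1) : StEv4 := by
  intro p k hp hk
  have h1 := h p k hk
  rw [ev_exact hk]
  set a : ℚ := harmonic k with ha
  set b : ℚ := harmonic (2 * k) with hb
  have hk0 : 0 < k := by
    rcases Nat.eq_zero_or_pos k with h0 | h0
    · exfalso
      have := (Fact.out : p.Prime).one_lt
      omega
    · exact h0
  have ma : a ∈ Zp p := ev_harm_mem (by omega)
  have mb : b ∈ Zp p := ev_harm_mem (by omega)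
  have mp : (p : ℚ) ∈ Zp p := nat_mem p
  have mhalf := ev_half_mem hk
  have mmul : ∀ x y : ℚ, x ∈ Zp p → y ∈ Zp p →
      Cg p 2 ((1 + p * x) * (1 + p * y)) (1 + p * (x + y)) := fun x y hx hy =>
    ⟨x * y, (Zp p).mul_mem hx hy, by ring⟩
  have mone : ∀ x : ℚ, x ∈ Zp p → (1 + (p : ℚ) * x) ∈ Zp p := fun x hx =>
    (Zp p).add_mem (Zp p).one_mem ((Zp p).mul_mem mp hx)
  -- the five factors
  have e : p - 1 = 4 * k := by omega
  have u1 := ev_choose_cg (p := p) (2 * k) (by omega)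
  rw [e, pow_mul, neg_one_sq, one_pow, one_mul, ← hb] at u1
  have u2 := ev_choose_inv (p := p) k (by omega)
  rw [e, ← ha] at u2
  have s_mem : ((-1 : ℚ)) ^ k ∈ Zp p := (Zp p).pow_mem ((Zp p).neg_mem (Zp p).one_mem) k
  have u1' : (((4 * k).choose (2 * k) : ℕ) : ℚ) ∈ Zp p := nat_mem _
  have u2' : ((((4 * k).choose k : ℕ) : ℚ))⁻¹ ∈ Zp p := by
    rw [u2.mem_iff]
    exact (Zp p).mul_mem s_mem (mone a ma)
  have m1b : (1 - (p : ℚ) * b) ∈ Zp p := (Zp p).sub_mem (Zp p).one_mem ((Zp p).mul_mem mp mb)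
  have u12 := u1.mul u2 m1b u2'
  have u12m : (1 - (p : ℚ) * b) * ((-1) ^ k * (1 + p * a)) ∈ Zp p :=
    (Zp p).mul_mem m1b ((Zp p).mul_mem s_mem (mone a ma))
  have v1 := u12.pow u12m 2
  have v1' : Cg p 2 (((1 - (p : ℚ) * b) * ((-1) ^ k * (1 + p * a))) ^ 2)
      (1 + p * (2 * a - 2 * b)) := by
    have hs : (((-1 : ℚ)) ^ k) ^ 2 = 1 := by rw [← pow_mul, mul_comm, pow_mul, neg_one_sq, one_pow]
    refine ⟨a ^ 2 + b ^ 2 - 4 * a * b + p * (2 * a * b ^ 2 - 2 * a ^ 2 * b) + p ^ 2 * (a ^ 2 * b ^ 2),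
      ?_, ?_⟩
    · have two : (2 : ℚ) ∈ Zp p := ofNat_mem 2
      have four : (4 : ℚ) ∈ Zp p := ofNat_mem 4
      refine (Zp p).add_mem ((Zp p).add_mem ((Zp p).sub_mem ((Zp p).add_mem ((Zp p).pow_mem ma 2)
        ((Zp p).pow_mem mb 2)) ((Zp p).mul_mem ((Zp p).mul_mem four ma) mb))
        ((Zp p).mul_mem mp ((Zp p).sub_mem ((Zp p).mul_mem ((Zp p).mul_mem two ma)
        ((Zp p).pow_mem mb 2)) ((Zp p).mul_mem ((Zp p).mul_mem two ((Zp p).pow_mem ma 2)) mb))))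
        ((Zp p).mul_mem ((Zp p).pow_mem mp 2) ((Zp p).mul_mem ((Zp p).pow_mem ma 2)
        ((Zp p).pow_mem mb 2)))
    · rw [mul_pow, mul_pow, hs]
      ring
  have w1 := v1.trans v1'
  obtain ⟨z, hz, hz'⟩ := ev_harm_zero hk
  have two : (2 : ℚ) ∈ Zp p := ofNat_mem 2
  have w2 : Cg p 2 (∏ i ∈ range (4 * k), (1 + (p : ℚ) * (1 * (((i + 1 : ℕ) : ℚ))⁻¹))) 1 := by
    refine (ev_prod (p := p) (1 : ℚ) (Zp p).one_mem (m := 4 * k) (by omega)).trans ?_
    exact ⟨z, hz, by rw [hz']; ring⟩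
  have w3 : Cg p 2 (∏ i ∈ range (4 * k), (1 + (p : ℚ) * (2 * (((i + 1 : ℕ) : ℚ))⁻¹))) 1 := by
    refine (ev_prod (p := p) (2 : ℚ) two (m := 4 * k) (by omega)).trans ?_
    exact ⟨2 * z, (Zp p).mul_mem two hz, by rw [hz']; ring⟩
  have w4 : Cg p 2 ((∏ i ∈ range (2 * k), (1 + (p : ℚ) * (1 * (((i + 1 : ℕ) : ℚ))⁻¹))⁻¹) ^ 3)
      (1 + p * (-(3 * b))) := by
    have t1 := ev_prod_inv (p := p) (1 : ℚ) (Zp p).one_mem (m := 2 * k) (by omega)
    rw [← hb] at t1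
    have mnb : (-1 * b) ∈ Zp p := (Zp p).mul_mem ((Zp p).neg_mem (Zp p).one_mem) mb
    have t2 := t1.pow (mone _ mnb) 3
    refine t2.trans ?_
    have t3 := cg_prod_one_add (p := p) (range 3) (fun _ => -1 * b) (fun _ _ => mnb)
    rw [prod_const, sum_const, card_range] at t3
    have t4 : (1 + (p : ℚ) * (3 • (-1 * b))) = 1 + p * (-(3 * b)) := by
      rw [nsmul_eq_mul]
      push_cast
      ring
    rw [t4] at t3
    exact t3
  have m2 : (2 * a - 2 * b) ∈ Zp p :=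
    (Zp p).sub_mem ((Zp p).mul_mem two ma) ((Zp p).mul_mem two mb)
  have m3 : -(3 * b) ∈ Zp p := (Zp p).neg_mem ((Zp p).mul_mem (ofNat_mem 3) mb)
  have x2 : (∏ i ∈ range (4 * k), (1 + (p : ℚ) * (1 * (((i + 1 : ℕ) : ℚ))⁻¹))) ∈ Zp p :=
    w2.mem_iff.2 (Zp p).one_mem
  have x3 : (∏ i ∈ range (4 * k), (1 + (p : ℚ) * (2 * (((i + 1 : ℕ) : ℚ))⁻¹))) ∈ Zp p :=
    w3.mem_iff.2 (Zp p).one_mem
  have x4 : ((∏ i ∈ range (2 * k), (1 + (p : ℚ) * (1 * (((i + 1 : ℕ) : ℚ))⁻¹))⁻¹) ^ 3) ∈ Zp p :=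
    w4.mem_iff.2 (mone _ m3)
  have y1 := ((w1.mul w2 (mone _ m2) x2).mul w3 (by rw [mul_one]; exact mone _ m2) x3).mul w4
    (by rw [mul_one, mul_one]; exact mone _ m2) x4
  rw [mul_one, mul_one] at y1
  have y2 := y1.trans (mmul _ _ m2 m3)
  -- the harmonic numbers
  have y3 : Cg p 2 (1 + (p : ℚ) * (2 * a - 2 * b + -(3 * b))) (1 - (p : ℚ) / 2 * b - p * a) := by
    have h2 := (h1.p_mul).mul_left (-(3 * (1 / 2))) ((Zp p).neg_mem
      ((Zp p).mul_mem (ofNat_mem 3) mhalf))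
    obtain ⟨w, hw, hw'⟩ := h2
    exact ⟨w, hw, by linear_combination hw'⟩
  have y4 := y2.trans y3
  refine y4.mul_left _ ?_
  refine (Zp p).mul_mem ((Zp p).pow_mem ?_ k) (nat_mem _)
  have h64 : (1 / 64 : ℚ) = (1 / 2) ^ 6 := by norm_num
  rw [h64]
  exact (Zp p).pow_mem mhalf 6

end MPb66c90
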