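import Pool.Agent.Lib.MP_b66c90_nt.Spec

/-!
# Two congruences for harmonic numbers and powers of two
-/

namespace MPb66c90

open Finset

section generic

/-- The alternating harmonic sum. -/
private lemma hh_alt (k : ℕ) :
    ∑ l ∈ range (2 * k), (-1 : ℚ) ^ l / ((l : ℚ) + 1) = harmonic (2 * k) - harmonic k := by
  induction k with
  | zero => simp
  | succ k ih =>
    rw [show 2 * (k + 1) = 2 * k + 1 + 1 by ring, sum_range_succ, sum_range_succ, ih,
      harmonic_succ, harmonic_succ, harmonic_succ, pow_succ, pow_mul]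
    have h1 : ((k : ℚ) + 1) ≠ 0 := by positivity
    have h2 : (2 * (k : ℚ) + 1) ≠ 0 := by positivity
    have h3 : (2 * (k : ℚ) + 1 + 1) ≠ 0 := by positivity
    push_cast
    norm_num
    field_simp
    ring

/-- The alternating sum of the binomial coefficients in even places. -/
private def hh_E (N n : ℕ) : ℤ := ∑ l ∈ range N, (-1) ^ l * (n.choose (2 * l) : ℤ)

/-- The alternating sum of the binomial coefficients in odd places. -/
private def hh_O (N n : ℕ) : ℤ := ∑ l ∈ range N, (-1) ^ l * (n.choose (2 * l + 1) : ℤ)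

private lemma hh_O_succ (N n : ℕ) : hh_O N (n + 1) = hh_E N n + hh_O N n := by
  rw [hh_O, hh_E, hh_O, ← sum_add_distrib]
  refine sum_congr rfl fun l _ => ?_
  rw [Nat.choose_succ_succ' n (2 * l)]
  push_cast
  ring

private lemma hh_E_succ (N n : ℕ) (h : n < 2 * N + 1) :
    hh_E (N + 1) (n + 1) = hh_E (N + 1) n - hh_O (N + 1) n := by
  have h1 : hh_E (N + 1) (n + 1) = 1 +
      ∑ l ∈ range N, (-1) ^ (l + 1) * (((n + 1).choose (2 * (l + 1)) : ℕ) : ℤ) := by
    rw [hh_E, sum_range_succ', add_comm]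
    simp
  have h2 : hh_E (N + 1) n = 1 +
      ∑ l ∈ range N, (-1) ^ (l + 1) * ((n.choose (2 * (l + 1)) : ℕ) : ℤ) := by
    rw [hh_E, sum_range_succ', add_comm]
    simp
  have h3 : hh_O (N + 1) n = ∑ l ∈ range N, (-1) ^ l * ((n.choose (2 * l + 1) : ℕ) : ℤ) := by
    rw [hh_O, sum_range_succ, Nat.choose_eq_zero_of_lt h]
    simp
  rw [h1, h2, h3, add_sub_assoc, ← sum_sub_distrib]
  congr 1
  refine sum_congr rfl fun l _ => ?_
  rw [show 2 * (l + 1) = 2 * l + 1 + 1 by ring, Nat.choose_succ_succ' n (2 * l + 1)]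
  push_cast
  ring

private lemma hh_EO (N : ℕ) : ∀ m : ℕ, 4 * m ≤ 2 * N →
    hh_E (N + 1) (4 * m + 1) = (-4) ^ m ∧ hh_O (N + 1) (4 * m + 1) = (-4) ^ m := by
  intro m
  induction m with
  | zero =>
    intro _
    constructor
    · rw [hh_E, sum_range_succ', sum_eq_zero]
      · simp
      · intro l _
        rw [Nat.choose_eq_zero_of_lt (by omega)]
        simp
    · rw [hh_O, sum_range_succ', sum_eq_zero]
      · simp
      · intro l _
        rw [Nat.choose_eq_zero_of_lt (by omega)]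
        simp
  | succ m ih =>
    intro hm
    obtain ⟨h1, h2⟩ := ih (by omega)
    have e1 := hh_E_succ N (4 * m + 1) (by omega)
    have e2 := hh_E_succ N (4 * m + 2) (by omega)
    have e3 := hh_E_succ N (4 * m + 3) (by omega)
    have e4 := hh_E_succ N (4 * m + 4) (by omega)
    have o1 := hh_O_succ (N + 1) (4 * m + 1)
    have o2 := hh_O_succ (N + 1) (4 * m + 2)
    have o3 := hh_O_succ (N + 1) (4 * m + 3)
    have o4 := hh_O_succ (N + 1) (4 * m + 4)
    rw [show 4 * m + 1 + 1 = 4 * m + 2 by ring] at e1 o1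
    rw [show 4 * m + 2 + 1 = 4 * m + 3 by ring] at e2 o2
    rw [show 4 * m + 3 + 1 = 4 * m + 4 by ring] at e3 o3
    rw [show 4 * (m + 1) + 1 = 4 * m + 4 + 1 by ring, pow_succ]
    constructor
    · rw [e4, e3, o3, e2, o2, e1, o1, h1, h2]
      ring
    · rw [o4, e3, o3, e2, o2, e1, o1, h1, h2]
      ring

end generic

variable {p : ℕ} [hp : Fact p.Prime]

private lemma hh_harm_mem {n : ℕ} (hn : n < p) : harmonic n ∈ Zp p := by
  rw [harmonic]
  exact (Zp p).sum_mem fun i hi => inv_nat_mem_of_lt (i + 1) (by omega)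
    (by have := mem_range.1 hi; omega)

/-- `C(p - 1, j) = (-1) ^ j` modulo `p`. -/
private lemma hh_choose1 {q : ℕ} (hq : p = q + 1) :
    ∀ j : ℕ, j ≤ q → Cg p 1 ((q.choose j : ℕ) : ℚ) ((-1) ^ j) := by
  intro j
  induction j with
  | zero =>
    intro _
    rw [Nat.choose_zero_right, Nat.cast_one, pow_zero]
  | succ j ih =>
    intro hj
    have h1 := ih (by omega)
    have h2 : p ∣ p.choose (j + 1) := hp.out.dvd_choose_self (by omega) (by omega)
    obtain ⟨c, hc⟩ := h2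
    have h3 : Cg p 1 ((p.choose (j + 1) : ℕ) : ℚ) 0 :=
      ⟨c, nat_mem c, by rw [hc]; push_cast; ring⟩
    have h4 : (((q.choose (j + 1) : ℕ)) : ℚ) =
        ((p.choose (j + 1) : ℕ) : ℚ) - ((q.choose j : ℕ) : ℚ) := by
      rw [hq, Nat.choose_succ_succ' q j]
      push_cast
      ring
    rw [h4, show ((-1 : ℚ)) ^ (j + 1) = 0 - (-1) ^ j by ring]
    exact h3.sub h1

/-- `C(p, j) = p (-1) ^ (j - 1) / j` modulo `p ^ 2`. -/
private lemma hh_choose2 {j : ℕ} (hj : j + 1 < p) :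
    Cg p 2 ((p.choose (j + 1) : ℕ) : ℚ) (p * ((-1) ^ j / ((j : ℚ) + 1))) := by
  obtain ⟨q, hq⟩ : ∃ q, p = q + 1 := ⟨p - 1, by have := hp.out.pos; omega⟩
  have h1 := hh_choose1 hq j (by omega)
  have hu : ((((j + 1 : ℕ) : ℚ)))⁻¹ ∈ Zp p := inv_nat_mem_of_lt (j + 1) (by omega) hj
  have h2 := (h1.mul_right _ hu).p_mul
  have h0 : ((j : ℚ) + 1) ≠ 0 := by positivity
  have h3 : ((p.choose (j + 1) : ℕ) : ℚ) =
      p * (((q.choose j : ℕ) : ℚ) * (((j + 1 : ℕ) : ℚ))⁻¹) := by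
    have h4 := Nat.add_one_mul_choose_eq q j
    have h5 : ((q : ℚ) + 1) * ((q.choose j : ℕ) : ℚ) =
        (((q + 1).choose (j + 1) : ℕ) : ℚ) * ((j : ℚ) + 1) := by
      exact_mod_cast h4
    rw [hq]
    push_cast
    field_simp
    linear_combination -h5
  rw [h3, div_eq_mul_inv]
  push_cast at h2 ⊢
  exact h2

/-- `H_{p - 1} = 0` modulo `p`. -/
private lemma hh_harm_zero {q : ℕ} (hq : p = q + 1) (h2p : 2 < p) : Cg p 1 (harmonic q) 0 := by
  have h1 : 2 * harmonic q = p * ∑ j ∈ range q,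
      ((((j + 1 : ℕ) : ℚ))⁻¹ * (((q - j : ℕ) : ℚ))⁻¹) := by
    have h2 : harmonic q = ∑ j ∈ range q, (((q - j : ℕ) : ℚ))⁻¹ := by
      rw [harmonic, ← sum_range_reflect]
      refine sum_congr rfl fun j hj => ?_
      have := mem_range.1 hj
      rw [show q - 1 - j + 1 = q - j by omega]
    have h3 : harmonic q = ∑ j ∈ range q, (((j + 1 : ℕ) : ℚ))⁻¹ := rfl
    rw [two_mul]
    nth_rewrite 1 [h3]
    rw [h2, ← sum_add_distrib, mul_sum]
    refine sum_congr rfl fun j hj => ?_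
    have hj' := mem_range.1 hj
    obtain ⟨d, hd⟩ : ∃ d, q = j + (d + 1) := ⟨q - j - 1, by omega⟩
    rw [show q - j = d + 1 by omega, hq, hd]
    have h4 : ((j : ℚ) + 1) ≠ 0 := by positivity
    have h5 : ((d : ℚ) + 1) ≠ 0 := by positivity
    push_cast
    field_simp
    ring
  have h2 : Cg p 1 (2 * harmonic q) 0 := by
    refine ⟨∑ j ∈ range q, ((((j + 1 : ℕ) : ℚ))⁻¹ * (((q - j : ℕ) : ℚ))⁻¹), ?_, by
      rw [h1]; ring⟩
    refine (Zp p).sum_mem fun j hj => ?_
    have hj' := mem_range.1 hj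
    exact (Zp p).mul_mem (inv_nat_mem_of_lt (j + 1) (by omega) (by omega))
      (inv_nat_mem_of_lt (q - j) (by omega) (by omega))
  have h3 := h2.mul_left (((2 : ℕ) : ℚ))⁻¹ (inv_nat_mem_of_lt 2 (by norm_num) h2p)
  rw [mul_zero] at h3
  have h4 : (((2 : ℕ) : ℚ))⁻¹ * (2 * harmonic q) = harmonic q := by
    push_cast
    ring
  rwa [h4] at h3

theorem stH2 : StH2 := by
  intro p k _ hpk
  have hE := (hh_EO (2 * k) k (by omega)).1
  have h1 : ((-1 : ℚ)) ^ k * 2 ^ (2 * k) = ((-4 : ℚ)) ^ k := by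
    rw [pow_mul, ← mul_pow]
    norm_num
  have h2 : ((-4 : ℚ)) ^ k = 1 + ∑ l ∈ range (2 * k),
      (-1) ^ (l + 1) * (((p.choose (2 * l + 1 + 1) : ℕ)) : ℚ) := by
    have h3 : (((hh_E (2 * k + 1) (4 * k + 1) : ℤ)) : ℚ) = ((-4 : ℚ)) ^ k := by
      rw [hE]
      push_cast
      ring
    rw [← h3, hh_E, sum_range_succ', hpk]
    push_cast
    rw [add_comm]
    congr 1
    simp
  rw [h1, h2]
  have h4 : (1 : ℚ) + (p : ℚ) / 2 * (harmonic (2 * k) - harmonic k) = 1 + ∑ l ∈ range (2 * k),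
      (-1) ^ (l + 1) * (p * ((-1) ^ (2 * l + 1) / (((2 * l + 1 : ℕ) : ℚ) + 1))) := by
    rw [← hh_alt, mul_sum]
    congr 1
    refine sum_congr rfl fun l _ => ?_
    rw [pow_succ, pow_succ, pow_mul]
    have h5 : ((l : ℚ) + 1) ≠ 0 := by positivity
    have h6 : (2 * (l : ℚ) + 1 + 1) ≠ 0 := by positivity
    push_cast
    norm_num
    field_simp
    ring
  rw [h4]
  refine (Cg.refl 1).add (Cg.sum _ _ _ fun l hl => ?_)
  have hl' := mem_range.1 hl
  refine (hh_choose2 (by omega)).mul_left _ ((Zp p).pow_mem ((Zp p).neg_mem (Zp p).one_mem) _)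

theorem stH1 : StH1 := by
  intro p k hpr hpk
  have hk : 1 ≤ k := by
    rcases Nat.eq_zero_or_pos k with h | h
    · rw [h] at hpk
      have := hpr.out.one_lt
      omega
    · exact h
  have hm1 : harmonic (2 * k) ∈ Zp p := hh_harm_mem (by omega)
  have hm2 : harmonic k ∈ Zp p := hh_harm_mem (by omega)
  have hm4 : harmonic (4 * k) ∈ Zp p := hh_harm_mem (by omega)
  have hhalf : (((2 : ℕ) : ℚ))⁻¹ ∈ Zp p := inv_nat_mem_of_lt 2 (by norm_num) (by omega)
  -- the first expression for `2 ^ p`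
  have h1 : ((2 : ℚ)) ^ p = 2 + ∑ j ∈ range (4 * k), ((p.choose (j + 1) : ℕ) : ℚ) := by
    have h2 := Nat.sum_range_choose p
    have h3 : ((2 : ℚ)) ^ p = ∑ j ∈ range (p + 1), ((p.choose j : ℕ) : ℚ) := by
      rw [← Nat.cast_sum, h2]
      push_cast
      ring
    rw [h3, sum_range_succ, Nat.choose_self]
    nth_rewrite 1 [hpk]
    rw [sum_range_succ', Nat.choose_zero_right]
    push_cast
    ring
  have h2 : Cg p 2 (((2 : ℚ)) ^ p) (2 - p * harmonic (2 * k)) := by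
    have h3 : Cg p 2 (((2 : ℚ)) ^ p)
        (2 + ∑ j ∈ range (4 * k), (p * ((-1) ^ j / ((j : ℚ) + 1)))) := by
      rw [h1]
      exact (Cg.refl 2).add (Cg.sum _ _ _ fun j hj => hh_choose2 (by
        have := mem_range.1 hj
        omega))
    have h4 : (2 : ℚ) + ∑ j ∈ range (4 * k), (p * ((-1 : ℚ) ^ j / ((j : ℚ) + 1))) =
        2 - p * harmonic (2 * k) + p * harmonic (4 * k) := by
      rw [← mul_sum, show 4 * k = 2 * (2 * k) by ring, hh_alt]
      ring
    rw [h4] at h3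
    refine h3.trans ?_
    have h5 := (hh_harm_zero hpk (by omega)).p_mul
    have h6 := (Cg.refl (p := p) (n := 2) (2 - (p : ℚ) * harmonic (2 * k))).add h5
    rwa [mul_zero, add_zero] at h6
  -- the second expression for `2 ^ p`
  have h3 : Cg p 2 (((2 : ℚ)) ^ p) (2 + 2 * p * (harmonic (2 * k) - harmonic k)) := by
    have hd : (((2 : ℕ) : ℚ))⁻¹ * (harmonic (2 * k) - harmonic k) ∈ Zp p :=
      (Zp p).mul_mem hhalf ((Zp p).sub_mem hm1 hm2)
    have hx : (1 : ℚ) + (p : ℚ) / 2 * (harmonic (2 * k) - harmonic k) ∈ Zp p := by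
      have e : (1 : ℚ) + (p : ℚ) / 2 * (harmonic (2 * k) - harmonic k) =
          1 + p * ((((2 : ℕ) : ℚ))⁻¹ * (harmonic (2 * k) - harmonic k)) := by
        push_cast
        ring
      rw [e]
      exact (Zp p).add_mem (Zp p).one_mem ((Zp p).mul_mem (nat_mem p) hd)
    have h4 := ((stH2 p k hpk).pow hx 2).mul_left 2 (ofNat_mem 2)
    have e1 : (2 : ℚ) * ((-1) ^ k * 2 ^ (2 * k)) ^ 2 = 2 ^ p := by
      have e2 : ((-1 : ℚ)) ^ (k * 2) = 1 := by
        rw [mul_comm, pow_mul]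
        norm_num
      rw [mul_pow, ← pow_mul, ← pow_mul, e2, hpk, pow_succ,
        show 2 * k * 2 = 4 * k by ring]
      ring
    rw [e1] at h4
    refine h4.trans ⟨2 * ((((2 : ℕ) : ℚ))⁻¹ * (harmonic (2 * k) - harmonic k)) ^ 2,
      (Zp p).mul_mem (ofNat_mem 2) ((Zp p).pow_mem hd 2), ?_⟩
    push_cast
    ring
  have h4 := h3.symm.trans h2
  obtain ⟨z, hz, hzz⟩ := h4
  refine ⟨z, hz, ?_⟩
  have hp0 : (p : ℚ) ≠ 0 := by
    have := hpr.out.pos
    positivity
  have h5 : (p : ℚ) * (3 * harmonic (2 * k) - 2 * harmonic k) = p * ((p : ℚ) ^ 1 * z) := by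
    linear_combination hzz
  exact mul_left_cancel₀ hp0 h5

end MPb66c90
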