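import Pool.Agent.Lib.MP_b66c90_nt.SpecQ

/-!
# Step Ja: power sums of `x ^ p` modulo `p ^ 2`
-/

namespace MPb66c90

open Finset

/-- the Teichmueller-like map -/
def jaT (p : ℕ) (a : ZMod p) : ZMod (p ^ 2) := ((a.val : ℕ) : ZMod (p ^ 2)) ^ p

lemma ja_pow_congr {p : ℕ} (a b : ℕ) (h : (a : ZMod p) = (b : ZMod p)) :
    ((a : ℕ) : ZMod (p ^ 2)) ^ p = ((b : ℕ) : ZMod (p ^ 2)) ^ p := by
  have h1 : (p : ℤ) ∣ (a : ℤ) - b := by
    have h2 : ((a : ℤ) : ZMod p) = ((b : ℤ) : ZMod p) := by exact_mod_cast h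
    exact (ZMod.intCast_eq_intCast_iff_dvd_sub _ _ _).1 h2.symm
  have h2 := dvd_sub_pow_of_dvd_sub h1 1
  rw [pow_one] at h2
  have h3 : (((b : ℤ) ^ p : ℤ) : ZMod (p ^ 2)) = (((a : ℤ) ^ p : ℤ) : ZMod (p ^ 2)) := by
    rw [ZMod.intCast_eq_intCast_iff_dvd_sub]
    push_cast
    exact h2
  push_cast at h3
  exact h3.symm

lemma jaT_mul {p : ℕ} [hp : Fact p.Prime] (a b : ZMod p) : jaT p (a * b) = jaT p a * jaT p b := by
  rw [jaT, jaT, jaT, ← mul_pow, ← Nat.cast_mul]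
  apply ja_pow_congr
  push_cast
  rw [ZMod.natCast_zmod_val, ZMod.natCast_zmod_val, ZMod.natCast_zmod_val]

lemma ja_sum {p : ℕ} [hp : Fact p.Prime] (e : ℕ) :
    ((∑ x ∈ range p, x ^ (p * e) : ℕ) : ZMod (p ^ 2)) = ∑ a : ZMod p, jaT p a ^ e := by
  push_cast
  have h0 : p ≠ 0 := hp.out.ne_zero
  rw [← Fin.sum_univ_eq_sum_range (fun x : ℕ => (x : ZMod (p ^ 2)) ^ (p * e))]
  obtain ⟨q, rfl⟩ := Nat.exists_eq_succ_of_ne_zero h0
  refine Finset.sum_congr rfl fun a _ => ?_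
  unfold jaT
  rw [pow_mul]
  rfl

lemma jaT_ne {p : ℕ} [hp : Fact p.Prime] (e : ℕ) (h : ¬ p - 1 ∣ e) :
    ∑ a : ZMod p, jaT p a ^ e = 0 := by
  have h1 : ¬ ∀ x : (ZMod p)ˣ, x ^ e = 1 := by
    rw [FiniteField.forall_pow_eq_one_iff, ZMod.card]
    exact h
  push Not at h1
  obtain ⟨g, hg⟩ := h1
  have h2 : jaT p (g : ZMod p) ^ e * ∑ a : ZMod p, jaT p a ^ e = ∑ a : ZMod p, jaT p a ^ e := by
    rw [mul_sum]
    rw [← Equiv.sum_comp (Units.mulLeft g) (fun a : ZMod p => jaT p a ^ e)]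
    refine sum_congr rfl fun a _ => ?_
    rw [Units.mulLeft_apply, jaT_mul, mul_pow]
  have h3 : (jaT p (g : ZMod p) ^ e - 1) * ∑ a : ZMod p, jaT p a ^ e = 0 := by
    rw [sub_mul, one_mul, h2, sub_self]
  have h4 : IsUnit (jaT p (g : ZMod p) ^ e - 1) := by
    set v := (g : ZMod p).val with hv
    have h5 : jaT p (g : ZMod p) ^ e - 1 = ((((v : ℤ) ^ p) ^ e - 1 : ℤ) : ZMod (p ^ 2)) := by
      push_cast
      rw [jaT]
    have h6 : IsCoprime (((v : ℤ) ^ p) ^ e - 1 : ℤ) ((p ^ 2 : ℕ) : ℤ) := by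
      push_cast
      apply IsCoprime.pow_right
      apply IsCoprime.symm
      rw [(Nat.prime_iff_prime_int.mp hp.out).coprime_iff_not_dvd]
      intro h7
      apply hg
      ext
      rw [← ZMod.intCast_zmod_eq_zero_iff_dvd] at h7
      push_cast at h7
      rw [hv, ZMod.natCast_zmod_val, ZMod.pow_card] at h7
      push_cast
      exact sub_eq_zero.1 h7
    rw [h5]
    obtain ⟨a, b, hab⟩ := h6
    refine IsUnit.of_mul_eq_one (a : ZMod (p ^ 2)) ?_
    have h8 := congrArg (Int.cast : ℤ → ZMod (p ^ 2)) hab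
    rw [Int.cast_add, Int.cast_mul, Int.cast_mul, Int.cast_natCast, ZMod.natCast_self, mul_zero,
      add_zero, Int.cast_one, mul_comm] at h8
    exact h8
  exact (h4.mul_right_eq_zero).1 h3

lemma jaT_eq {p : ℕ} [hp : Fact p.Prime] (e : ℕ) (he : 1 ≤ e) (h : p - 1 ∣ e) :
    ∑ a : ZMod p, jaT p a ^ e = (p : ZMod (p ^ 2)) - 1 := by
  have hp2 := hp.out.two_le
  have h0 : ∀ a : ZMod p, jaT p a ^ e = if a = 0 then 0 else 1 := by
    intro a
    split_ifs with ha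
    · rw [ha, jaT, ZMod.val_zero, Nat.cast_zero, zero_pow hp.out.ne_zero, zero_pow (by omega)]
    · rw [jaT, ← pow_mul]
      obtain ⟨c, rfl⟩ := h
      have hc : Nat.Coprime a.val (p ^ 2) := by
        apply Nat.Coprime.pow_right
        exact (ZMod.val_coe_unit_coprime (Units.mk0 a ha))
      have h1 := ZMod.pow_totient (ZMod.unitOfCoprime a.val hc)
      have h2 := congrArg (Units.val) h1
      rw [Nat.totient_prime_pow hp.out (by norm_num)] at h2
      push_cast at h2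
      rw [show p ^ (2 - 1) = p by norm_num] at h2
      rw [← mul_assoc, pow_mul]
      simp only [ZMod.coe_unitOfCoprime] at h2
      rw [h2, one_pow]
  rw [sum_congr rfl fun a _ => h0 a]
  rw [sum_ite, sum_const_zero, zero_add, sum_const, nsmul_eq_mul, mul_one]
  rw [filter_not, filter_eq' univ (0 : ZMod p)]
  simp only [mem_univ, if_true]
  rw [card_sdiff_of_subset (subset_univ _), card_univ, ZMod.card, card_singleton]
  rw [Nat.cast_sub (by omega), Nat.cast_one]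

theorem stJa : StJa := by
  intro p e hp he
  have h1 := ja_sum (p := p) e
  obtain ⟨c, hc, hcz⟩ : ∃ c : ℤ, (c : ℚ) = (if p - 1 ∣ e then (p : ℚ) - 1 else 0) ∧
      ((c : ℤ) : ZMod (p ^ 2)) = ∑ a : ZMod p, jaT p a ^ e := by
    by_cases h : p - 1 ∣ e
    · refine ⟨(p : ℤ) - 1, by rw [if_pos h]; push_cast; ring, ?_⟩
      rw [jaT_eq e he h]
      push_cast
      ring
    · refine ⟨0, by rw [if_neg h]; simp, ?_⟩
      rw [jaT_ne e h]
      simp
  rw [← hc]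
  rw [← hcz] at h1
  have h2 : ((c : ℤ) : ZMod (p ^ 2)) = (((∑ x ∈ range p, x ^ (p * e) : ℕ) : ℤ) : ZMod (p ^ 2)) := by
    rw [← h1, Int.cast_natCast]
  rw [ZMod.intCast_eq_intCast_iff_dvd_sub] at h2
  obtain ⟨z, hz⟩ := h2
  refine ⟨z, int_mem z, ?_⟩
  have h3 := congrArg (Int.cast : ℤ → ℚ) hz
  push_cast at h3
  exact h3

end MPb66c90
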