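import Pool.Agent.Lib.MP_b66c90_nt.SpecQ

/-!
# A logarithmic Jacobi sum modulo `p`
-/

namespace MPb66c90

open Finset

section Jb

variable {p : ℕ} [hp : Fact p.Prime]

private lemma jb_den_ne {x : ℚ} (hx : x ∈ Zp p) : (x.den : ZMod p) ≠ 0 := by
  obtain ⟨a, b, hb, rfl⟩ := hx
  intro h
  rw [ZMod.natCast_eq_zero_iff] at h
  apply hb
  have h1 : ((((a : ℚ) / b).den : ℕ) : ℤ) ∣ b := by
    have := Rat.den_dvd a b
    rwa [Rat.divInt_eq_div] at this
  exact (Int.natCast_dvd_natCast.2 h).trans h1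

/-- Reduction modulo `p`. -/
private def jbCast (p : ℕ) [Fact p.Prime] : Zp p →+* ZMod p where
  toFun x := ((x : ℚ) : ZMod p)
  map_one' := by simp
  map_mul' x y := by
    rw [Subring.coe_mul]
    exact Rat.cast_mul_of_ne_zero (jb_den_ne x.2) (jb_den_ne y.2)
  map_zero' := by simp
  map_add' x y := by
    rw [Subring.coe_add]
    exact Rat.cast_add_of_ne_zero (jb_den_ne x.2) (jb_den_ne y.2)

private lemma jbCast_apply (x : Zp p) : jbCast p x = ((x : ℚ) : ZMod p) := rfl

private lemma jb_cg {x y : Zp p} (h : jbCast p x = jbCast p y) : Cg p 1 (x : ℚ) y := by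
  have h1 : jbCast p (x - y) = 0 := by rw [map_sub, h, sub_self]
  obtain ⟨z, hz⟩ : ∃ z, z = x - y := ⟨_, rfl⟩
  rw [← hz] at h1
  rw [jbCast_apply, Rat.cast_def] at h1
  have hd := jb_den_ne z.2
  have h2 : ((z : ℚ).num : ZMod p) = 0 := by
    rcases div_eq_zero_iff.1 h1 with h | h
    · exact h
    · exact absurd h hd
  rw [ZMod.intCast_zmod_eq_zero_iff_dvd] at h2
  obtain ⟨c, hc⟩ := h2
  refine ⟨(c : ℚ) / (z : ℚ).den, ?_, ?_⟩
  · refine ⟨c, ((z : ℚ).den : ℤ), ?_, by push_cast; rfl⟩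
    intro h
    apply hd
    rw [ZMod.natCast_eq_zero_iff]
    exact Int.natCast_dvd_natCast.1 h
  · have h3 : (x : ℚ) - y = (z : ℚ) := by rw [hz]; rfl
    rw [h3, pow_one, ← mul_div_assoc]
    have h4 : ((p : ℚ) * (c : ℚ)) = (((z : ℚ).num : ℤ) : ℚ) := by
      rw [hc]
      push_cast
      ring
    rw [h4]
    exact (Rat.num_div_den _).symm

/-- The truncated logarithm. -/
private def jbL (p : ℕ) [Fact p.Prime] (y : ZMod p) : ZMod p :=
  ∑ j ∈ Ico 1 p, y ^ j * (j : ZMod p)⁻¹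

private lemma jb_choose {i : ℕ} (hi : i < p) : ((p - 1).choose i : ZMod p) = (-1) ^ i := by
  obtain ⟨q, rfl⟩ : ∃ q, p = q + 1 := ⟨p - 1, by have := hp.out.pos; omega⟩
  rw [Nat.add_sub_cancel]
  induction i with
  | zero => simp
  | succ i ih =>
    have h1 := ih (by omega)
    have h2 : ((q + 1).choose (i + 1) : ZMod (q + 1)) = 0 := by
      rw [ZMod.natCast_eq_zero_iff]
      exact hp.out.dvd_choose_self (by omega) hi
    rw [Nat.choose_succ_succ] at h2
    push_cast at h2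
    rw [h1] at h2
    rw [pow_succ]
    linear_combination h2

private lemma jb_coef {j : ℕ} (h1 : 1 ≤ j) (hj : j < p) :
    ((p.choose j / p : ℕ) : ZMod p) = (-1) ^ (j - 1) * (j : ZMod p)⁻¹ := by
  have hd : p ∣ p.choose j := hp.out.dvd_choose_self (by omega) hj
  have e1 : j * (p.choose j / p) = (p - 1).choose (j - 1) := by
    have h2 := Nat.add_one_mul_choose_eq (p - 1) (j - 1)
    have h3 : (p - 1) + 1 = p := by have := hp.out.pos; omega
    have h4 : (j - 1) + 1 = j := by omega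
    rw [h3, h4] at h2
    obtain ⟨c, hc⟩ := hd
    rw [hc] at h2
    rw [hc, Nat.mul_div_cancel_left _ hp.out.pos]
    have h5 : p * (j * c) = p * (p - 1).choose (j - 1) := by rw [h2]; ring
    exact Nat.eq_of_mul_eq_mul_left hp.out.pos h5
  have hj0 : (j : ZMod p) ≠ 0 := by
    rw [Ne, ZMod.natCast_eq_zero_iff]
    exact fun h => absurd (Nat.le_of_dvd (by omega) h) (by omega)
  have e2 : (j : ZMod p) * ((p.choose j / p : ℕ) : ZMod p) = (-1) ^ (j - 1) := by
    rw [← jb_choose (p := p) (i := j - 1) (by omega), ← e1]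
    push_cast
    rfl
  rw [← e2]
  field_simp

/-- Integral lift of the truncated logarithm. -/
private def jbM (p : ℕ) (x : ℤ) : ℤ := -∑ j ∈ Ico 1 p, ((p.choose j / p : ℕ) : ℤ) * (-x) ^ j

private lemma jbM_cast (x : ℤ) : ((jbM p x : ℤ) : ZMod p) = jbL p x := by
  unfold jbM jbL
  rw [← sum_neg_distrib, Int.cast_sum]
  refine sum_congr rfl fun j hj => ?_
  rw [mem_Ico] at hj
  have h := jb_coef (p := p) hj.1 hj.2
  rw [Int.cast_neg, Int.cast_mul, Int.cast_natCast, Int.cast_pow, Int.cast_neg, h,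
    neg_pow (x : ZMod p) j]
  obtain ⟨i, rfl⟩ : ∃ i, j = i + 1 := ⟨j - 1, by omega⟩
  rw [Nat.add_sub_cancel]
  have h1 : ((-1 : ZMod p) ^ i) * (-1) ^ (i + 1) = -1 := by
    rw [pow_succ, ← mul_assoc, ← mul_pow]
    simp
  linear_combination (-(x : ZMod p) ^ (i + 1) * ((i + 1 : ℕ) : ZMod p)⁻¹) * h1

private lemma jbM_eq (hodd : p % 2 = 1) (x : ℤ) :
    (p : ℤ) * jbM p x = 1 - x ^ p - (1 - x) ^ p := by
  have h1 : (1 - x) ^ p = ∑ j ∈ range (p + 1), (p.choose j : ℤ) * (-x) ^ j := by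
    rw [sub_eq_add_neg, add_comm, add_pow]
    refine sum_congr rfl fun j _ => ?_
    rw [one_pow]
    ring
  have h2 : ∑ j ∈ range (p + 1), (p.choose j : ℤ) * (-x) ^ j
      = 1 + (∑ j ∈ Ico 1 p, (p.choose j : ℤ) * (-x) ^ j) + (-x) ^ p := by
    rw [sum_range_succ, range_eq_Ico, sum_eq_sum_Ico_succ_bot hp.out.pos]
    simp
  have h3 : (-x) ^ p = -x ^ p := (Nat.odd_iff.2 hodd).neg_pow x
  have h4 : ∑ j ∈ Ico 1 p, (p.choose j : ℤ) * (-x) ^ j
      = (p : ℤ) * ∑ j ∈ Ico 1 p, ((p.choose j / p : ℕ) : ℤ) * (-x) ^ j := by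
    rw [mul_sum]
    refine sum_congr rfl fun j hj => ?_
    rw [mem_Ico] at hj
    have hd : p ∣ p.choose j := hp.out.dvd_choose_self (by omega) hj.2
    have h5 : (p : ℤ) * ((p.choose j / p : ℕ) : ℤ) = (p.choose j : ℤ) := by
      exact_mod_cast Nat.mul_div_cancel' hd
    rw [← mul_assoc, h5]
  unfold jbM
  rw [h1, h2, h3, h4]
  ring

private lemma jbL_symm (hodd : p % 2 = 1) (y : ZMod p) : jbL p (1 - y) = jbL p y := by
  obtain ⟨x, rfl⟩ := ZMod.intCast_surjective y
  have h1 := jbM_eq (p := p) hodd x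
  have h2 := jbM_eq (p := p) hodd (1 - x)
  have h3 : jbM p (1 - x) = jbM p x := by
    have h4 : (p : ℤ) ≠ 0 := by exact_mod_cast hp.out.ne_zero
    apply mul_left_cancel₀ h4
    rw [h1, h2]
    ring
  rw [← jbM_cast, ← h3, jbM_cast]
  push_cast
  rfl

private lemma jbL_zero : jbL p 0 = 0 := by
  unfold jbL
  refine sum_eq_zero fun j hj => ?_
  rw [mem_Ico] at hj
  rw [zero_pow (by omega), zero_mul]

private lemma jbL_one (hodd : p % 2 = 1) : jbL p 1 = 0 := by
  have := jbL_symm (p := p) hodd 0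
  rw [sub_zero, jbL_zero] at this
  exact this

private lemma jb_sum_pow {n : ℕ} (hn : 1 ≤ n) :
    ∑ y : ZMod p, y ^ n = if p - 1 ∣ n then -1 else 0 := by
  classical
  have h := FiniteField.sum_pow_units (ZMod p) n
  rw [ZMod.card] at h
  rw [← h]
  let φ : (ZMod p)ˣ ↪ ZMod p := ⟨fun x => x, Units.val_injective⟩
  have e : (univ : Finset (ZMod p)).erase 0 = univ.map φ := by
    ext y
    simp only [mem_erase, mem_univ, and_true, mem_map, true_and, φ, Function.Embedding.coeFn_mk]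
    constructor
    · intro hy
      exact ⟨Units.mk0 y hy, rfl⟩
    · rintro ⟨u, rfl⟩
      exact u.ne_zero
  rw [← add_sum_erase univ _ (mem_univ (0 : ZMod p)), zero_pow (by omega), zero_add, e, sum_map]
  rfl

/-- The sums. -/
private def jbD (p : ℕ) [Fact p.Prime] (a b : ℕ) : ZMod p :=
  ∑ y : ZMod p, y ^ (p - 1 - a) * (1 - y) ^ (p - 1 - b) * jbL p y

private lemma jbD_rec {a b : ℕ} (ha : a + 1 ≤ p - 1) (hb : b + 1 ≤ p - 1) :
    jbD p (a + 1) (b + 1) = jbD p a (b + 1) + jbD p (a + 1) b := by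
  unfold jbD
  rw [← sum_add_distrib]
  refine sum_congr rfl fun y _ => ?_
  have h1 : p - 1 - a = p - 1 - (a + 1) + 1 := by omega
  have h2 : p - 1 - b = p - 1 - (b + 1) + 1 := by omega
  rw [h1, h2, pow_succ, pow_succ]
  ring

private lemma jbD_symm (hodd : p % 2 = 1) (a b : ℕ) : jbD p a b = jbD p b a := by
  unfold jbD
  rw [← Equiv.sum_comp (Equiv.subLeft (1 : ZMod p))]
  refine sum_congr rfl fun y _ => ?_
  rw [Equiv.subLeft_apply, jbL_symm hodd]
  ring

private lemma jbD_zero (hodd : p % 2 = 1) {a : ℕ} (h1 : 1 ≤ a) (ha : a ≤ p - 1) :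
    jbD p a 0 = -(a : ZMod p)⁻¹ := by
  have h2 : jbD p a 0 = ∑ y : ZMod p, y ^ (p - 1 - a) * jbL p y := by
    unfold jbD
    refine sum_congr rfl fun y _ => ?_
    rw [Nat.sub_zero]
    by_cases hy : y = 1
    · rw [hy, jbL_one hodd, mul_zero, mul_zero]
    · rw [ZMod.pow_card_sub_one_eq_one (sub_ne_zero.2 (Ne.symm hy)), mul_one]
  rw [h2]
  unfold jbL
  simp_rw [mul_sum]
  rw [sum_comm]
  have h3 : ∀ j ∈ Ico 1 p, ∑ y : ZMod p, y ^ (p - 1 - a) * (y ^ j * (j : ZMod p)⁻¹)
      = if j = a then -(a : ZMod p)⁻¹ else 0 := by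
    intro j hj
    rw [mem_Ico] at hj
    have e1 : ∀ y : ZMod p, y ^ (p - 1 - a) * (y ^ j * (j : ZMod p)⁻¹)
        = (j : ZMod p)⁻¹ * y ^ (p - 1 - a + j) := by
      intro y
      rw [pow_add]
      ring
    simp_rw [e1]
    rw [← mul_sum, jb_sum_pow (by omega)]
    by_cases hja : j = a
    · subst hja
      rw [if_pos rfl, if_pos]
      · ring
      · rw [Nat.sub_add_cancel ha]
    · rw [if_neg hja, if_neg, mul_zero]
      rintro ⟨c, hc⟩
      have hp2 := hp.out.two_le
      rcases Nat.lt_or_ge c 2 with h | h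
      · interval_cases c <;> omega
      · have : (p - 1) * 2 ≤ (p - 1) * c := Nat.mul_le_mul_left _ h
        omega
  rw [sum_congr rfl h3, sum_ite_eq', if_pos]
  rw [mem_Ico]
  omega

/-- The rational numbers behind the sums. -/
private def jbF : ℕ → ℕ → ℚ := fun a b =>
  ((a + b).choose a : ℚ) / (a + b) *
    ((a + b) * harmonic (a + b) - a * harmonic a - b * harmonic b + 1)

private lemma jbF_zero (a : ℕ) (ha : 1 ≤ a) : jbF a 0 = (a : ℚ)⁻¹ := by
  unfold jbF
  rw [Nat.add_zero, Nat.choose_self]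
  simp

private lemma jbF_symm (a b : ℕ) : jbF a b = jbF b a := by
  unfold jbF
  have h : (a + b).choose a = (b + a).choose b := by
    rw [Nat.choose_symm_add, add_comm]
  rw [h, add_comm a b]
  ring

private lemma jbF_rec (a b : ℕ) : jbF (a + 1) (b + 1) = jbF a (b + 1) + jbF (a + 1) b := by
  have c1 : (((a + 1) + (b + 1)).choose (a + 1) : ℚ) * (a + 1)
      = ((a + (b + 1)).choose a : ℚ) * (a + b + 2) := by
    have := Nat.add_one_mul_choose_eq (a + b + 1) a
    have h : (((a + b + 1 + 1) * (a + b + 1).choose a : ℕ) : ℚ)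
        = (((a + b + 1 + 1).choose (a + 1) * (a + 1) : ℕ) : ℚ) := by rw [this]
    push_cast at h
    have e1 : (a + 1) + (b + 1) = a + b + 1 + 1 := by ring
    have e2 : a + (b + 1) = a + b + 1 := by ring
    rw [e1, e2]
    linear_combination -h
  have c2 : (((a + 1) + (b + 1)).choose (a + 1) : ℚ) * (b + 1)
      = (((a + 1) + b).choose (a + 1) : ℚ) * (a + b + 2) := by
    have := Nat.add_one_mul_choose_eq (a + b + 1) b
    have h : (((a + b + 1 + 1) * (a + b + 1).choose b : ℕ) : ℚ)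
        = (((a + b + 1 + 1).choose (b + 1) * (b + 1) : ℕ) : ℚ) := by rw [this]
    push_cast at h
    have e1 : ((a + 1) + (b + 1)).choose (a + 1) = (a + b + 1 + 1).choose (b + 1) := by
      rw [Nat.choose_symm_add]
      congr 1
      ring
    have e2 : ((a + 1) + b).choose (a + 1) = (a + b + 1).choose b := by
      rw [Nat.choose_symm_add]
      congr 1
      ring
    rw [e1, e2]
    linear_combination -h
  have hs : harmonic (a + 1 + (b + 1)) = harmonic (a + b + 1) + ((a : ℚ) + b + 2)⁻¹ := by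
    have : a + 1 + (b + 1) = (a + b + 1) + 1 := by ring
    rw [this, harmonic_succ]
    push_cast
    ring_nf
  have hs1 : a + (b + 1) = a + b + 1 := by ring
  have hs2 : a + 1 + b = a + b + 1 := by ring
  have ha : harmonic (a + 1) = harmonic a + ((a : ℚ) + 1)⁻¹ := by
    rw [harmonic_succ]
    push_cast
    rfl
  have hb : harmonic (b + 1) = harmonic b + ((b : ℚ) + 1)⁻¹ := by
    rw [harmonic_succ]
    push_cast
    rfl
  have n1 : (a : ℚ) + 1 ≠ 0 := by positivity
  have n2 : (b : ℚ) + 1 ≠ 0 := by positivity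
  have n3 : (a : ℚ) + b + 2 ≠ 0 := by positivity
  have n4 : (a : ℚ) + b + 1 ≠ 0 := by positivity
  have c1' : ((a + (b + 1)).choose a : ℚ)
      = (((a + 1) + (b + 1)).choose (a + 1) : ℚ) * (a + 1) / (a + b + 2) := by
    rw [c1]
    field_simp
  have c2' : (((a + 1) + b).choose (a + 1) : ℚ)
      = (((a + 1) + (b + 1)).choose (a + 1) : ℚ) * (b + 1) / (a + b + 2) := by
    rw [c2]
    field_simp
  unfold jbF
  rw [c1', c2', hs, hs1, hs2, ha, hb]
  push_cast
  have n5 : (a : ℚ) + 1 + (b + 1) ≠ 0 := by positivity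
  have n6 : (a : ℚ) + (b + 1) ≠ 0 := by positivity
  have n7 : (a : ℚ) + 1 + b ≠ 0 := by positivity
  field_simp
  ring

private lemma jbF_mem : ∀ (n a b : ℕ), a + b = n → 1 ≤ n → n ≤ p - 1 → jbF a b ∈ Zp p := by
  intro n
  induction n with
  | zero => intro a b _ h; omega
  | succ n ih =>
    intro a b hab _ hn
    have hp2 := hp.out.two_le
    rcases a with _ | a
    · rw [jbF_symm, jbF_zero b (by omega)]
      exact inv_nat_mem_of_lt b (by omega) (by omega)
    · rcases b with _ | b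
      · rw [jbF_zero (a + 1) (by omega)]
        exact inv_nat_mem_of_lt (a + 1) (by omega) (by omega)
      · rw [jbF_rec]
        exact (Zp p).add_mem (ih a (b + 1) (by omega) (by omega) (by omega))
          (ih (a + 1) b (by omega) (by omega) (by omega))

private lemma jbCast_inv {j : ℕ} (h0 : 0 < j) (hj : j < p) (h : ((j : ℚ))⁻¹ ∈ Zp p) :
    jbCast p ⟨(j : ℚ)⁻¹, h⟩ = (j : ZMod p)⁻¹ := by
  have hj0 : (j : ZMod p) ≠ 0 := by
    rw [Ne, ZMod.natCast_eq_zero_iff]
    exact fun h => absurd (Nat.le_of_dvd h0 h) (by omega)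
  have h1 : jbCast p ((j : Zp p) * ⟨(j : ℚ)⁻¹, h⟩) = 1 := by
    have : (j : Zp p) * ⟨(j : ℚ)⁻¹, h⟩ = 1 := by
      apply Subtype.ext
      push_cast
      have : (j : ℚ) ≠ 0 := by exact_mod_cast (by omega : j ≠ 0)
      exact mul_inv_cancel₀ this
    rw [this, map_one]
  rw [map_mul, map_natCast] at h1
  exact eq_inv_of_mul_eq_one_right h1

private lemma jb_main (hodd : p % 2 = 1) : ∀ (n a b : ℕ) (_ : a + b = n) (_ : 1 ≤ n)
    (_ : n ≤ p - 1) (hF : jbF a b ∈ Zp p), jbD p a b = -jbCast p ⟨jbF a b, hF⟩ := by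
  intro n
  induction n with
  | zero => intro a b _ h; omega
  | succ n ih =>
    intro a b hab _ hn hF
    have hp2 := hp.out.two_le
    rcases a with _ | a
    · rw [jbD_symm hodd, jbD_zero hodd (by omega) (by omega)]
      have e : (⟨jbF 0 b, hF⟩ : Zp p) = ⟨(b : ℚ)⁻¹, inv_nat_mem_of_lt b (by omega) (by omega)⟩ :=
        Subtype.ext (by show jbF 0 b = _; rw [jbF_symm, jbF_zero b (by omega)])
      rw [e, jbCast_inv (by omega) (by omega)]
    · rcases b with _ | b
      · rw [jbD_zero hodd (by omega) (by omega)]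
        have e : (⟨jbF (a + 1) 0, hF⟩ : Zp p)
            = ⟨((a + 1 : ℕ) : ℚ)⁻¹, inv_nat_mem_of_lt (a + 1) (by omega) (by omega)⟩ :=
          Subtype.ext (by show jbF (a + 1) 0 = _; rw [jbF_zero (a + 1) (by omega)])
        rw [e, jbCast_inv (by omega) (by omega)]
      · rw [jbD_rec (by omega) (by omega)]
        have m1 : jbF a (b + 1) ∈ Zp p := jbF_mem n a (b + 1) (by omega) (by omega) (by omega)
        have m2 : jbF (a + 1) b ∈ Zp p := jbF_mem n (a + 1) b (by omega) (by omega) (by omega)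
        rw [ih a (b + 1) (by omega) (by omega) (by omega) m1,
          ih (a + 1) b (by omega) (by omega) (by omega) m2]
        have e : (⟨jbF (a + 1) (b + 1), hF⟩ : Zp p)
            = ⟨jbF a (b + 1), m1⟩ + ⟨jbF (a + 1) b, m2⟩ := Subtype.ext (jbF_rec a b)
        rw [e, map_add]
        ring

private lemma jb_sum_range (f : ZMod p → ZMod p) :
    ∑ x ∈ range p, f (x : ZMod p) = ∑ y : ZMod p, f y := by
  refine sum_nbij' (fun x => (x : ZMod p)) (fun y => y.val) ?_ ?_ ?_ ?_ ?_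
  · intro x _
    exact mem_univ _
  · intro y _
    exact mem_range.2 (ZMod.val_lt y)
  · intro x hx
    exact ZMod.val_cast_of_lt (mem_range.1 hx)
  · intro y _
    exact ZMod.natCast_zmod_val y
  · intro x _
    rfl

end Jb

theorem stJb : StJb := by
  intro p k hpp hpk
  have hk : 1 ≤ k := by
    have := hpp.out.two_le
    omega
  have hodd : p % 2 = 1 := by omega
  have hF : jbF k (k + 1) ∈ Zp p := jbF_mem (2 * k + 1) k (k + 1) (by omega) (by omega) (by omega)
  have hmain := jb_main hodd (2 * k + 1) k (k + 1) (by omega) (by omega) (by omega) hF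
  -- the closed form
  have hval : jbF k (k + 1) = (2 * k).choose k / (k + 1) *
      ((2 * k + 1) * (harmonic (2 * k) - harmonic k) + 1) := by
    unfold jbF
    have e0 : k + (k + 1) = 2 * k + 1 := by ring
    have e1 : ((2 * k + 1).choose k : ℚ) * (k + 1) = (2 * k).choose k * (2 * k + 1) := by
      have h := Nat.add_one_mul_choose_eq (2 * k) k
      have h2 : (2 * k + 1).choose (k + 1) = (2 * k + 1).choose k := by
        have := Nat.choose_symm_add (a := k) (b := k + 1)
        rw [e0] at this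
        exact this.symm
      have h3 : (((2 * k + 1) * (2 * k).choose k : ℕ) : ℚ)
          = (((2 * k + 1).choose (k + 1) * (k + 1) : ℕ) : ℚ) := by rw [h]
      rw [h2] at h3
      push_cast at h3
      linear_combination -h3
    have n1 : (k : ℚ) + 1 ≠ 0 := by positivity
    have n2 : (2 * (k : ℚ)) + 1 ≠ 0 := by positivity
    have e2 : ((2 * k + 1).choose k : ℚ) = (2 * k).choose k * (2 * k + 1) / (k + 1) := by
      rw [← e1]
      field_simp
    have h1 : harmonic (2 * k + 1) = harmonic (2 * k) + (2 * (k : ℚ) + 1)⁻¹ := by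
      rw [harmonic_succ]
      push_cast
      rfl
    have h2 : harmonic (k + 1) = harmonic k + ((k : ℚ) + 1)⁻¹ := by
      rw [harmonic_succ]
      push_cast
      rfl
    rw [e0, e2, h1, h2]
    push_cast
    have n3 : (k : ℚ) + (k + 1) ≠ 0 := by positivity
    field_simp
    ring
  -- the sum as an element of `Zp`
  have hinv : ∀ j ∈ Ico 1 p, ((j : ℚ))⁻¹ ∈ Zp p := by
    intro j hj
    rw [mem_Ico] at hj
    exact inv_nat_mem_of_lt j (by omega) hj.2
  let inv' : ℕ → Zp p := fun j => if h : j ∈ Ico 1 p then ⟨(j : ℚ)⁻¹, hinv j h⟩ else 0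
  let E : Zp p := ∑ x ∈ range p, (x : Zp p) ^ (3 * k) * ((p : Zp p) + 1 - x) ^ (3 * k - 1) *
      ∑ j ∈ Ico 1 p, (x : Zp p) ^ j * inv' j
  have hE : (E : ℚ) = ∑ x ∈ range p, (x : ℚ) ^ (3 * k) * ((p : ℚ) + 1 - x) ^ (3 * k - 1) *
      ∑ j ∈ Ico 1 p, (x : ℚ) ^ j / j := by
    show ((∑ x ∈ range p, (x : Zp p) ^ (3 * k) * ((p : Zp p) + 1 - x) ^ (3 * k - 1) *
      ∑ j ∈ Ico 1 p, (x : Zp p) ^ j * inv' j : Zp p) : ℚ) = _
    push_cast
    refine sum_congr rfl fun x _ => ?_
    congr 1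
    refine sum_congr rfl fun j hj => ?_
    have : (inv' j : ℚ) = (j : ℚ)⁻¹ := by
      show (((if h : j ∈ Ico 1 p then (⟨(j : ℚ)⁻¹, hinv j h⟩ : Zp p) else 0) : Zp p) : ℚ) = _
      rw [dif_pos hj]
    rw [this]
    rfl
  have hEc : jbCast p E = jbD p k (k + 1) := by
    show jbCast p (∑ x ∈ range p, (x : Zp p) ^ (3 * k) * ((p : Zp p) + 1 - x) ^ (3 * k - 1) *
      ∑ j ∈ Ico 1 p, (x : Zp p) ^ j * inv' j) = _
    rw [map_sum]
    unfold jbD
    rw [← jb_sum_range]
    refine sum_congr rfl fun x _ => ?_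
    rw [map_mul, map_mul, map_pow, map_pow, map_natCast, map_sub, map_add, map_one, map_natCast,
      map_natCast, map_sum]
    have e1 : p - 1 - k = 3 * k := by omega
    have e2 : p - 1 - (k + 1) = 3 * k - 1 := by omega
    rw [e1, e2, ZMod.natCast_self, zero_add]
    congr 1
    unfold jbL
    refine sum_congr rfl fun j hj => ?_
    rw [map_mul, map_pow, map_natCast]
    congr 1
    have : inv' j = ⟨(j : ℚ)⁻¹, hinv j hj⟩ := dif_pos hj
    rw [this]
    rw [mem_Ico] at hj
    exact jbCast_inv (by omega) hj.2 _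
  have hfin : jbCast p E = jbCast p (-⟨jbF k (k + 1), hF⟩) := by
    rw [hEc, hmain, map_neg]
  have := jb_cg hfin
  rw [hE] at this
  have e : (((-⟨jbF k (k + 1), hF⟩ : Zp p)) : ℚ) = -jbF k (k + 1) := rfl
  rw [e, hval] at this
  exact this

end MPb66c90
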