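import Pool.Agent.Lib.MP_b66c90_nt.SpecQ

/-!
# The Jacobi sum modulo `p ^ 2` from power sums
-/

namespace MPb66c90

open Finset

variable {p : ℕ} [hp : Fact p.Prime]

/-- elements congruent modulo `p` have `p`-th powers congruent modulo `p ^ 2` -/
private lemma jc_pow_p {a b : ℚ} (h : Cg p 1 a b) (hb : b ∈ Zp p) : Cg p 2 (a ^ p) (b ^ p) := by
  have hgs : Cg p 1 (∑ i ∈ range p, a ^ i * b ^ (p - 1 - i)) (∑ i ∈ range p, b ^ (p - 1)) := by
    refine Cg.sum _ _ _ fun i hi => ?_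
    have hi' := mem_range.1 hi
    have h1 : b ^ (p - 1) = b ^ i * b ^ (p - 1 - i) := by
      rw [← pow_add]
      congr 1
      omega
    rw [h1]
    exact (h.pow hb i).mul_right _ ((Zp p).pow_mem hb _)
  have h2 : (∑ i ∈ range p, b ^ (p - 1)) = p * b ^ (p - 1) := by
    rw [sum_const, card_range, nsmul_eq_mul]
  rw [h2] at hgs
  obtain ⟨w, hw, hw'⟩ := hgs
  obtain ⟨z, hz, hz'⟩ := h
  have h3 := (Commute.all a b).geom_sum₂_mul p
  refine ⟨z * (w + b ^ (p - 1)), (Zp p).mul_mem hz ((Zp p).add_mem hw ((Zp p).pow_mem hb _)), ?_⟩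
  rw [← h3, hz']
  have h4 : (∑ i ∈ range p, a ^ i * b ^ (p - 1 - i)) = p * b ^ (p - 1) + (p : ℚ) ^ 1 * w := by
    linear_combination hw'
  rw [h4]
  ring

/-- Fermat's little theorem -/
private lemma jc_fermat (x : ℕ) : Cg p 1 ((x : ℚ) ^ p) x := by
  have h : ((x ^ p : ℤ) : ZMod p) = ((x : ℤ) : ZMod p) := by
    push_cast
    exact ZMod.pow_card _
  rw [ZMod.intCast_eq_intCast_iff_dvd_sub] at h
  obtain ⟨c, hc⟩ := h
  refine ⟨((-c : ℤ) : ℚ), int_mem _, ?_⟩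
  have h1 : ((x : ℤ) : ℚ) - (((x : ℤ) ^ p : ℤ) : ℚ) = ((p : ℤ) : ℚ) * (c : ℚ) := by
    exact_mod_cast hc
  push_cast at h1 ⊢
  linear_combination -h1

private lemma jc_L_mem {x : ℚ} (hx : x ∈ Zp p) : ∑ j ∈ Ico 1 p, x ^ j / j ∈ Zp p := by
  refine (Zp p).sum_mem fun j hj => ?_
  have hj' := mem_Ico.1 hj
  rw [div_eq_mul_inv]
  exact (Zp p).mul_mem ((Zp p).pow_mem hx j) (inv_nat_mem_of_lt j (by omega) hj'.2)

private lemma jc_L_cg {x y : ℚ} (hy : y ∈ Zp p) (h : Cg p 1 x y) :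
    Cg p 1 (∑ j ∈ Ico 1 p, x ^ j / j) (∑ j ∈ Ico 1 p, y ^ j / j) := by
  refine Cg.sum _ _ _ fun j hj => ?_
  have hj' := mem_Ico.1 hj
  rw [div_eq_mul_inv, div_eq_mul_inv]
  exact (h.pow hy j).mul_right _ (inv_nat_mem_of_lt j (by omega) hj'.2)

/-- `binom(p-1, j) = (-1)^j` modulo `p` -/
private lemma jc_choose (j : ℕ) (hj : j < p) : Cg p 1 ((p - 1).choose j : ℚ) ((-1) ^ j) := by
  induction j with
  | zero => simp only [Nat.choose_zero_right, Nat.cast_one, pow_zero]; exact Cg.refl 1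
  | succ j ih =>
    have ih' := ih (by omega)
    have h1 : (p - 1).choose (j + 1) + (p - 1).choose j = p.choose (j + 1) := by
      have := Nat.choose_succ_succ (p - 1) j
      rw [Nat.succ_eq_add_one, Nat.sub_add_cancel hp.out.one_le] at this
      rw [this]
      ring
    have h2 : p ∣ p.choose (j + 1) := hp.out.dvd_choose_self (by omega) hj
    obtain ⟨c, hc⟩ := h2
    rw [hc] at h1
    obtain ⟨z, hz, hz'⟩ := ih'
    refine ⟨c - z, (Zp p).sub_mem (nat_mem c) hz, ?_⟩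
    have h3 : (((p - 1).choose (j + 1) : ℕ) : ℚ) + ((p - 1).choose j : ℕ) = p * c := by
      exact_mod_cast h1
    rw [pow_succ]
    linear_combination h3 - hz'

/-- `binom(p, j) (-1)^j = - p / j` modulo `p ^ 2` -/
private lemma jc_choose_p (j : ℕ) (h0 : 0 < j) (hj : j < p) :
    Cg p 2 ((p.choose j : ℚ) * (-1) ^ j) (-(p * (j : ℚ)⁻¹)) := by
  obtain ⟨i, rfl⟩ : ∃ i, j = i + 1 := ⟨j - 1, by omega⟩
  have h1 : p * (p - 1).choose i = p.choose (i + 1) * (i + 1) := by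
    have := Nat.add_one_mul_choose_eq (p - 1) i
    rwa [Nat.sub_add_cancel hp.out.one_le] at this
  have h2 : (p.choose (i + 1) : ℚ) = p * (((p - 1).choose i : ℚ) * ((i + 1 : ℕ) : ℚ)⁻¹) := by
    have h3 : (p : ℚ) * ((p - 1).choose i : ℕ) = (p.choose (i + 1) : ℕ) * ((i + 1 : ℕ) : ℚ) := by
      exact_mod_cast h1
    have h4 : ((i + 1 : ℕ) : ℚ) ≠ 0 := by positivity
    rw [← mul_assoc, h3, mul_assoc, mul_inv_cancel₀ h4, mul_one]
  have h5 := (jc_choose (p := p) i (by omega)).mul_right (((i + 1 : ℕ) : ℚ)⁻¹ * (-1) ^ (i + 1))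
    ((Zp p).mul_mem (inv_nat_mem_of_lt _ (by omega) hj)
      ((Zp p).pow_mem ((Zp p).neg_mem (Zp p).one_mem) _))
  have h6 := h5.p_mul
  have h7 : (p : ℚ) * ((-1) ^ i * (((i + 1 : ℕ) : ℚ)⁻¹ * (-1) ^ (i + 1)))
      = -(p * ((i + 1 : ℕ) : ℚ)⁻¹) := by
    have h8 : ((-1 : ℚ)) ^ i * (-1) ^ i = 1 := by
      rw [← mul_pow]
      norm_num
    rw [pow_succ]
    linear_combination (-(p : ℚ) * ((i + 1 : ℕ) : ℚ)⁻¹) * h8
  rw [h7] at h6
  rw [h2]
  have h9 : (p : ℚ) * (((p - 1).choose i : ℚ) * ((i + 1 : ℕ) : ℚ)⁻¹) * (-1) ^ (i + 1)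
      = p * (((p - 1).choose i : ℚ) * (((i + 1 : ℕ) : ℚ)⁻¹ * (-1) ^ (i + 1))) := by ring
  rw [h9]
  exact h6

/-- `(1 - y)^p` modulo `p ^ 2` -/
private lemma jc_one_sub_pow (hodd : Odd p) {y : ℚ} (hy : y ∈ Zp p) :
    Cg p 2 ((1 - y) ^ p) (1 - y ^ p - p * ∑ j ∈ Ico 1 p, y ^ j / j) := by
  have h1 : (1 - y) ^ p = ∑ j ∈ range (p + 1), (p.choose j : ℚ) * (-1) ^ j * y ^ j := by
    have : (1 - y) = (-y) + 1 := by ring
    rw [this, add_pow]
    refine sum_congr rfl fun j _ => ?_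
    rw [one_pow, mul_one, neg_pow]
    ring
  have h2 : range (p + 1) = insert 0 (insert p (Ico 1 p)) := by
    have := hp.out.pos
    ext j
    simp only [mem_range, mem_insert, mem_Ico]
    omega
  have hp0 := hp.out.pos
  have h3 : ∑ j ∈ range (p + 1), (p.choose j : ℚ) * (-1) ^ j * y ^ j
      = 1 + (-(y ^ p) + ∑ j ∈ Ico 1 p, (p.choose j : ℚ) * (-1) ^ j * y ^ j) := by
    rw [h2, sum_insert, sum_insert]
    · simp [hodd.neg_one_pow]
    · simp
    · simp only [mem_insert, mem_Ico]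
      omega
  rw [h1, h3]
  have h4 : Cg p 2 (∑ j ∈ Ico 1 p, (p.choose j : ℚ) * (-1) ^ j * y ^ j)
      (∑ j ∈ Ico 1 p, -(p * (j : ℚ)⁻¹) * y ^ j) := by
    refine Cg.sum _ _ _ fun j hj => ?_
    have hj' := mem_Ico.1 hj
    exact (jc_choose_p j (by omega) hj'.2).mul_right _ ((Zp p).pow_mem hy j)
  have h5 : (∑ j ∈ Ico 1 p, -(p * (j : ℚ)⁻¹) * y ^ j) = -(p * ∑ j ∈ Ico 1 p, y ^ j / j) := by
    rw [mul_sum, ← sum_neg_distrib]
    refine sum_congr rfl fun j _ => ?_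
    rw [div_eq_mul_inv]
    ring
  rw [h5] at h4
  have h6 := ((Cg.refl (p := p) (n := 2) (1 - y ^ p)).add h4)
  have h7 : (1 : ℚ) + (-(y ^ p) + ∑ j ∈ Ico 1 p, (p.choose j : ℚ) * (-1) ^ j * y ^ j)
      = (1 - y ^ p) + ∑ j ∈ Ico 1 p, (p.choose j : ℚ) * (-1) ^ j * y ^ j := by ring
  rw [h7, sub_eq_add_neg (1 - y ^ p)]
  exact h6

/-- binomial expansion to first order -/
private lemma jc_add_pow {u v : ℚ} (hu : u ∈ Zp p) (hv : v ∈ Zp p) (m : ℕ) :
    Cg p 2 ((u - p * v) ^ (m + 1)) (u ^ (m + 1) - (m + 1) * p * (u ^ m * v)) := by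
  induction m with
  | zero =>
    simp only [zero_add, pow_one, pow_zero, Nat.cast_zero, one_mul]
    exact Cg.refl _
  | succ m ih =>
    have h1 : (u - p * v) ∈ Zp p := (Zp p).sub_mem hu ((Zp p).mul_mem (nat_mem p) hv)
    rw [pow_succ]
    refine (ih.mul_right _ h1).trans ⟨(m + 1) * (u ^ m * v) * v, ?_, ?_⟩
    · have h2 : ((m : ℚ) + 1) ∈ Zp p := (Zp p).add_mem (nat_mem m) (Zp p).one_mem
      exact (Zp p).mul_mem ((Zp p).mul_mem h2 ((Zp p).mul_mem ((Zp p).pow_mem hu m) hv)) hv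
    · push_cast
      ring

/-- the powers of `p + 1 - x` -/
private lemma jc_term (hodd : Odd p) (x m : ℕ) :
    Cg p 2 (((p : ℚ) + 1 - x) ^ ((m + 1) * p))
      ((1 - (x : ℚ) ^ p) ^ (m + 1)
        - (m + 1) * p * (((p : ℚ) + 1 - x) ^ m * ∑ j ∈ Ico 1 p, (x : ℚ) ^ j / j)) := by
  set y : ℚ := (x : ℚ) ^ p with hy
  have hx : (x : ℚ) ∈ Zp p := nat_mem x
  have hyZ : y ∈ Zp p := (Zp p).pow_mem hx p
  have hyx : Cg p 1 y x := jc_fermat x
  have hyp : Cg p 2 (y ^ p) y := jc_pow_p hyx hx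
  have hu : (1 - y) ∈ Zp p := (Zp p).sub_mem (Zp p).one_mem hyZ
  have h1 : Cg p 1 ((p : ℚ) + 1 - x) (1 - y) := by
    obtain ⟨z, hz, hz'⟩ := hyx
    exact ⟨1 + z, (Zp p).add_mem (Zp p).one_mem hz, by linear_combination hz'⟩
  have h2 : Cg p 2 (((p : ℚ) + 1 - x) ^ p) ((1 - y) ^ p) := jc_pow_p h1 hu
  have h3 : Cg p 2 ((1 - y) ^ p) (1 - y - p * ∑ j ∈ Ico 1 p, (x : ℚ) ^ j / j) := by
    refine (jc_one_sub_pow hodd hyZ).trans ?_
    exact ((Cg.refl 1).sub hyp).sub (jc_L_cg hx hyx).p_mul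
  have h4 := h2.trans h3
  have hL := jc_L_mem (p := p) hx
  have h5 : (1 - y - p * ∑ j ∈ Ico 1 p, (x : ℚ) ^ j / j) ∈ Zp p :=
    (Zp p).sub_mem hu ((Zp p).mul_mem (nat_mem p) hL)
  have h6 := h4.pow h5 (m + 1)
  rw [← pow_mul, mul_comm p (m + 1)] at h6
  refine h6.trans ((jc_add_pow hu hL m).trans ?_)
  refine (Cg.refl _).sub ?_
  have h7 : Cg p 1 ((1 - y) ^ m * ∑ j ∈ Ico 1 p, (x : ℚ) ^ j / j)
      (((p : ℚ) + 1 - x) ^ m * ∑ j ∈ Ico 1 p, (x : ℚ) ^ j / j) :=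
    ((h1.pow hu m).symm).mul_right _ hL
  have h8 := h7.p_mul.mul_left ((m : ℚ) + 1) ((Zp p).add_mem (nat_mem m) (Zp p).one_mem)
  rw [mul_assoc, mul_assoc]
  exact h8

/-- the first sum -/
private lemma jc_first (ha : StJa) {k : ℕ} (hk : p = 4 * k + 1) :
    Cg p 2 (∑ x ∈ range p, ((x : ℚ) ^ p) ^ (3 * k) * (1 - (x : ℚ) ^ p) ^ (3 * k))
      (((p : ℚ) - 1) * ((-1) ^ k * ((3 * k).choose k : ℚ))) := by
  have hp1 := hp.out.one_lt
  have hk0 : 0 < k := by omega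
  have h1 : ∑ x ∈ range p, ((x : ℚ) ^ p) ^ (3 * k) * (1 - (x : ℚ) ^ p) ^ (3 * k)
      = ∑ i ∈ range (3 * k + 1), ((3 * k).choose i : ℚ) * (-1) ^ i *
          ∑ x ∈ range p, (x : ℚ) ^ (p * (3 * k + i)) := by
    simp_rw [mul_sum]
    rw [sum_comm]
    refine sum_congr rfl fun x _ => ?_
    have h2 : (1 - (x : ℚ) ^ p) = -((x : ℚ) ^ p) + 1 := by ring
    rw [h2, add_pow, mul_sum]
    refine sum_congr rfl fun i _ => ?_
    have h3 : (x : ℚ) ^ (p * (3 * k + i)) = ((x : ℚ) ^ p) ^ (3 * k) * ((x : ℚ) ^ p) ^ i := by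
      rw [pow_mul, pow_add]
    rw [one_pow, mul_one, neg_pow, h3]
    ring
  rw [h1]
  have h3 : Cg p 2 (∑ i ∈ range (3 * k + 1), ((3 * k).choose i : ℚ) * (-1) ^ i *
          ∑ x ∈ range p, (x : ℚ) ^ (p * (3 * k + i)))
      (∑ i ∈ range (3 * k + 1), ((3 * k).choose i : ℚ) * (-1) ^ i *
          (if p - 1 ∣ 3 * k + i then (p : ℚ) - 1 else 0)) := by
    refine Cg.sum _ _ _ fun i _ => ?_
    exact (ha p (3 * k + i) (by omega)).mul_left _
      ((Zp p).mul_mem (nat_mem _) ((Zp p).pow_mem ((Zp p).neg_mem (Zp p).one_mem) i))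
  refine h3.trans ?_
  have h4 : (∑ i ∈ range (3 * k + 1), ((3 * k).choose i : ℚ) * (-1) ^ i *
          (if p - 1 ∣ 3 * k + i then (p : ℚ) - 1 else 0))
      = ((p : ℚ) - 1) * ((-1) ^ k * ((3 * k).choose k : ℚ)) := by
    rw [sum_eq_single k]
    · rw [if_pos]
      · ring
      · exact ⟨1, by omega⟩
    · intro i hi hik
      have hi' := mem_range.1 hi
      rw [if_neg, mul_zero]
      rintro ⟨c, hc⟩
      have h5 : p - 1 = 4 * k := by omega
      rw [h5] at hc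
      have hc1 : c = 1 := by
        rcases Nat.lt_or_ge c 1 with h | h
        · have : c = 0 := by omega
          subst this
          omega
        · rcases Nat.lt_or_ge 1 c with h' | h'
          · have : 4 * k * 2 ≤ 4 * k * c := Nat.mul_le_mul_left _ h'
            omega
          · omega
      subst hc1
      omega
    · intro h
      exact absurd (mem_range.2 (by omega)) h
  rw [h4]

private lemma jc_harm (k : ℕ) :
    harmonic (2 * k) - harmonic k = ∑ i ∈ range k, (((k + 1 + i : ℕ) : ℚ))⁻¹ := by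
  rw [harmonic, harmonic, two_mul, sum_range_add, add_sub_cancel_left]
  refine sum_congr rfl fun i _ => ?_
  congr 1
  push_cast
  ring

private lemma jc_choose_prod (n k : ℕ) (h : k ≤ n) :
    ((n.choose k : ℕ) : ℚ) = ∏ i ∈ range k, (((n : ℚ) - i) / (i + 1)) := by
  induction k with
  | zero => simp
  | succ k ih =>
    rw [prod_range_succ, ← ih (by omega)]
    have h1 := Nat.choose_succ_right_eq n k
    have h2 : ((n.choose (k + 1) : ℕ) : ℚ) * (k + 1) = (n.choose k : ℕ) * ((n : ℚ) - k) := by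
      rw [← Nat.cast_sub (by omega : k ≤ n)]
      exact_mod_cast h1
    have h3 : ((k : ℚ) + 1) ≠ 0 := by positivity
    field_simp
    linear_combination h2

private lemma jc_choose_prod' (k : ℕ) :
    (((2 * k).choose k : ℕ) : ℚ) = ∏ i ∈ range k, (((k + 1 + i : ℕ) : ℚ) / (i + 1)) := by
  rw [jc_choose_prod _ _ (by omega), prod_div_distrib, prod_div_distrib]
  congr 1
  rw [← prod_range_reflect]
  refine prod_congr rfl fun i hi => ?_
  have hi' := mem_range.1 hi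
  rw [Nat.sub_sub, Nat.cast_sub (by omega)]
  push_cast
  ring

private lemma jc_central {k : ℕ} (hk : p = 4 * k + 1) :
    Cg p 2 ((-1) ^ k * ((3 * k).choose k : ℚ))
      (((2 * k).choose k : ℚ) * (1 - p * (harmonic (2 * k) - harmonic k))) := by
  have hp1 := hp.out.one_lt
  have h1 : (-1) ^ k * ((3 * k).choose k : ℚ) = ((2 * k).choose k : ℚ) *
      ∏ i ∈ range k, (1 + p * (-(((k + 1 + i : ℕ) : ℚ))⁻¹)) := by
    rw [jc_choose_prod _ _ (by omega), jc_choose_prod', ← prod_mul_distrib]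
    have h2 : ((-1 : ℚ)) ^ k = ∏ _i ∈ range k, (-1 : ℚ) := by
      rw [prod_const, card_range]
    rw [h2, ← prod_mul_distrib]
    refine prod_congr rfl fun i _ => ?_
    have h3 : ((k + 1 + i : ℕ) : ℚ) ≠ 0 := by positivity
    have h4 : ((i : ℚ) + 1) ≠ 0 := by positivity
    have h5 : (p : ℚ) = 4 * k + 1 := by rw [hk]; push_cast; ring
    rw [h5]
    push_cast at h3 ⊢
    field_simp
    ring
  rw [h1]
  have h6 : ∀ i ∈ range k, (-(((k + 1 + i : ℕ) : ℚ))⁻¹) ∈ Zp p := by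
    intro i hi
    have hi' := mem_range.1 hi
    exact (Zp p).neg_mem (inv_nat_mem_of_lt _ (by omega) (by omega))
  have h7 := (cg_prod_one_add (range k) _ h6).mul_left _ (nat_mem ((2 * k).choose k))
  rw [jc_harm]
  rw [sum_neg_distrib] at h7
  have h8 : (1 : ℚ) + p * -∑ i ∈ range k, (((k + 1 + i : ℕ) : ℚ))⁻¹
      = 1 - p * ∑ i ∈ range k, (((k + 1 + i : ℕ) : ℚ))⁻¹ := by ring
  rw [h8] at h7
  exact h7

/-- The Jacobi sum modulo `p ^ 2`. -/
theorem stJ (ha : StJa) (hb : StJb) : StJ := by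
  intro p k hp hk
  have hp1 := hp.out.one_lt
  have hk0 : 0 < k := by omega
  have hodd : Odd p := ⟨2 * k, by omega⟩
  set C : ℚ := ((2 * k).choose k : ℚ) with hC
  set d : ℚ := harmonic (2 * k) - harmonic k with hd
  have hCZ : C ∈ Zp p := nat_mem _
  have hdZ : d ∈ Zp p := by
    rw [hd, jc_harm]
    refine (Zp p).sum_mem fun i hi => ?_
    have hi' := mem_range.1 hi
    exact inv_nat_mem_of_lt _ (by omega) (by omega)
  -- the expansion of the sum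
  have h1 : Cg p 2 (Ssum p k)
      ((∑ x ∈ range p, ((x : ℚ) ^ p) ^ (3 * k) * (1 - (x : ℚ) ^ p) ^ (3 * k)) -
        (3 * k) * (p * ∑ x ∈ range p, (x : ℚ) ^ (3 * k) * ((p : ℚ) + 1 - x) ^ (3 * k - 1) *
          ∑ j ∈ Ico 1 p, (x : ℚ) ^ j / j)) := by
    have h2 : Cg p 2 (Ssum p k) (∑ x ∈ range p, (((x : ℚ) ^ p) ^ (3 * k) *
        (1 - (x : ℚ) ^ p) ^ (3 * k) - (3 * k) * (p * ((x : ℚ) ^ (3 * k) *
          ((p : ℚ) + 1 - x) ^ (3 * k - 1) * ∑ j ∈ Ico 1 p, (x : ℚ) ^ j / j)))) := by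
      rw [Ssum]
      refine Cg.sum _ _ _ fun x _ => ?_
      have h3 := jc_term (p := p) hodd x (3 * k - 1)
      have h4 : 3 * k - 1 + 1 = 3 * k := by omega
      have h5 : (((3 * k - 1 : ℕ) : ℚ) + 1) = 3 * k := by
        have : ((3 * k - 1 + 1 : ℕ) : ℚ) = ((3 * k : ℕ) : ℚ) := by rw [h4]
        push_cast at this
        exact this
      rw [h4, h5] at h3
      have hx : (x : ℚ) ∈ Zp p := nat_mem x
      have h6 := h3.mul_left _ ((Zp p).pow_mem hx (3 * k * p))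
      refine h6.trans ?_
      have h7 : (x : ℚ) ^ (3 * k * p) = ((x : ℚ) ^ p) ^ (3 * k) := by
        rw [← pow_mul, mul_comm]
      rw [mul_sub, h7]
      refine (Cg.refl _).sub ?_
      have hpx : ((p : ℚ) + 1 - x) ∈ Zp p :=
        (Zp p).sub_mem ((Zp p).add_mem (nat_mem p) (Zp p).one_mem) hx
      have h8 := ((jc_fermat (p := p) x).pow hx (3 * k)).mul_right _
        ((Zp p).mul_mem ((Zp p).pow_mem hpx (3 * k - 1)) (jc_L_mem (p := p) hx))
      have h9 := h8.p_mul.mul_left (3 * k : ℚ) ((Zp p).mul_mem (ofNat_mem 3) (nat_mem k))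
      have h10 : ((x : ℚ) ^ p) ^ (3 * k) * (3 * k * p * (((p : ℚ) + 1 - x) ^ (3 * k - 1) *
          ∑ j ∈ Ico 1 p, (x : ℚ) ^ j / j)) = 3 * k * (p * (((x : ℚ) ^ p) ^ (3 * k) *
          (((p : ℚ) + 1 - x) ^ (3 * k - 1) * ∑ j ∈ Ico 1 p, (x : ℚ) ^ j / j))) := by ring
      have h11 : (x : ℚ) ^ (3 * k) * ((p : ℚ) + 1 - x) ^ (3 * k - 1) *
          ∑ j ∈ Ico 1 p, (x : ℚ) ^ j / j = (x : ℚ) ^ (3 * k) *
          (((p : ℚ) + 1 - x) ^ (3 * k - 1) * ∑ j ∈ Ico 1 p, (x : ℚ) ^ j / j) := by ring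
      rw [h10, h11]
      exact h9
    refine h2.trans ?_
    rw [sum_sub_distrib, ← mul_sum, ← mul_sum]
  -- the second sum
  have h12 := (hb p k hk).p_mul.mul_left (3 * k : ℚ) ((Zp p).mul_mem (ofNat_mem 3) (nat_mem k))
  have h13 := (jc_first ha hk).trans ((jc_central hk).mul_left ((p : ℚ) - 1)
    ((Zp p).sub_mem (nat_mem p) (Zp p).one_mem))
  refine (h1.trans (h13.sub h12)).trans ?_
  have hk1 : ((k : ℚ) + 1) ≠ 0 := by positivity
  have hk1Z : ((k : ℚ) + 1)⁻¹ ∈ Zp p := by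
    have := inv_nat_mem_of_lt (p := p) (k + 1) (by omega) (by omega)
    push_cast at this
    exact this
  have h2Z : ((2 : ℚ))⁻¹ ∈ Zp p := by
    have := inv_nat_mem_of_lt (p := p) 2 (by omega) (by omega)
    push_cast at this
    exact this
  have hp4 : (p : ℚ) = 4 * k + 1 := by rw [hk]; push_cast; ring
  rw [← hC, ← hd]
  -- final algebra
  refine ⟨-(C * d) + C * ((k : ℚ) + 1)⁻¹ * ((2 * k + 1) * d + 1) - 2⁻¹ * C * d, ?_, ?_⟩
  · have e1 : (C * d) ∈ Zp p := (Zp p).mul_mem hCZ hdZ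
    have e2 : ((2 * k + 1 : ℚ)) ∈ Zp p :=
      (Zp p).add_mem ((Zp p).mul_mem (ofNat_mem 2) (nat_mem k)) (Zp p).one_mem
    have e3 : ((2 * k + 1 : ℚ) * d + 1) ∈ Zp p :=
      (Zp p).add_mem ((Zp p).mul_mem e2 hdZ) (Zp p).one_mem
    exact (Zp p).sub_mem ((Zp p).add_mem ((Zp p).neg_mem e1)
      ((Zp p).mul_mem ((Zp p).mul_mem hCZ hk1Z) e3))
      ((Zp p).mul_mem ((Zp p).mul_mem h2Z hCZ) hdZ)
  · rw [hp4]
    field_simp
    ring

end MPb66c90
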