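import Pool.Agent.Lib.MP_b66c90_nt.ModP

/-!
The quadratic first integral of the differential equation, modulo `p ^ 2`, and the lifting
principle: a zero modulo `p` of the truncated series is a zero modulo `p ^ 2`.
-/

open Finset Polynomial

namespace MPb66c90

/-- the coefficients -/
def u (n : ℕ) : ℤ := ((2 * n).choose n : ℤ) * franel n

lemma u_rec (n : ℕ) : ((n : ℤ) + 2) ^ 3 * u (n + 2)
    = (28 * ((n : ℤ) + 1) ^ 3 + 42 * ((n : ℤ) + 1) ^ 2 + 22 * ((n : ℤ) + 1) + 4) * u (n + 1)
      + (128 * (n : ℤ) ^ 3 + 384 * (n : ℤ) ^ 2 + 352 * n + 96) * u n := by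
  have hf := franel_rec n
  have h1 := Nat.succ_mul_centralBinom_succ n
  have h2 := Nat.succ_mul_centralBinom_succ (n + 1)
  rw [Nat.centralBinom_eq_two_mul_choose, Nat.centralBinom_eq_two_mul_choose] at h1 h2
  have h1' : ((n : ℤ) + 1) * (((2 * (n + 1)).choose (n + 1) : ℕ) : ℤ)
        = 2 * (2 * n + 1) * (((2 * n).choose n : ℕ) : ℤ) := by exact_mod_cast h1
  have h2' : ((n : ℤ) + 2) * (((2 * (n + 2)).choose (n + 2) : ℕ) : ℤ)
        = 2 * (2 * n + 3) * (((2 * (n + 1)).choose (n + 1) : ℕ) : ℤ) := by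
    have h3 : ((n + 1 + 1) * (2 * (n + 1 + 1)).choose (n + 1 + 1) : ℕ)
        = 2 * (2 * (n + 1) + 1) * (2 * (n + 1)).choose (n + 1) := h2
    have h4 : (((n + 1 + 1) * (2 * (n + 1 + 1)).choose (n + 1 + 1) : ℕ) : ℤ)
        = ((2 * (2 * (n + 1) + 1) * (2 * (n + 1)).choose (n + 1) : ℕ) : ℤ) := by rw [h3]
    push_cast at h4
    linear_combination h4
  unfold u
  generalize (((2 * (n + 2)).choose (n + 2) : ℕ) : ℤ) = c2 at *
  generalize (((2 * (n + 1)).choose (n + 1) : ℕ) : ℤ) = c1 at *
  generalize (((2 * n).choose n : ℕ) : ℤ) = c0 at *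
  generalize ((franel (n + 2) : ℕ) : ℤ) = f2 at *
  generalize ((franel (n + 1) : ℕ) : ℤ) = f1 at *
  generalize ((franel n : ℕ) : ℤ) = f0 at *
  generalize (n : ℤ) = x at *
  linear_combination ((x + 2) ^ 2 * f2) * h2' + (2 * (2 * x + 3) * c1) * hf
    + (16 * (2 * x + 3) * (x + 1) * f0) * h1'

/-- the truncated generating polynomial -/
noncomputable def W (p : ℕ) : ℤ[X] := ∑ n ∈ range p, C (u n) * X ^ n

lemma coeff_W (p n : ℕ) : (W p).coeff n = if n < p then u n else 0 := by
  unfold W
  rw [finsetSum_coeff]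
  simp only [coeff_C_mul, coeff_X_pow]
  split_ifs with h
  · rw [Finset.sum_eq_single n]
    · simp
    · intro b _ hb
      rw [if_neg (fun h => hb h.symm), mul_zero]
    · intro hn
      exact absurd (mem_range.mpr h) hn
  · apply Finset.sum_eq_zero
    intro b hb
    rw [mem_range] at hb
    rw [if_neg (by omega), mul_zero]

/-- the Euler operator -/
noncomputable def th {R : Type*} [CommRing R] (f : R[X]) : R[X] := X * derivative f

lemma coeff_th {R : Type*} [CommRing R] (f : R[X]) (n : ℕ) : (th f).coeff n = n * f.coeff n := by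
  unfold th
  cases n with
  | zero => simp
  | succ n =>
    rw [coeff_X_mul, coeff_derivative]
    push_cast
    ring

/-- the third order operator -/
noncomputable def L3 {R : Type*} [CommRing R] (f : R[X]) : R[X] :=
  (1 - 28 * X - 128 * X ^ 2) * th (th (th f)) - (42 * X + 384 * X ^ 2) * th (th f)
    - (22 * X + 352 * X ^ 2) * th f - (4 * X + 96 * X ^ 2) * f

/-- the quadratic first integral -/
noncomputable def I2 {R : Type*} [CommRing R] (f : R[X]) : R[X] :=
  2 * (1 - 28 * X - 128 * X ^ 2) * f * th (th f) - (1 - 28 * X - 128 * X ^ 2) * (th f) ^ 2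
    - (28 * X + 256 * X ^ 2) * f * th f - (8 * X + 96 * X ^ 2) * f ^ 2

lemma th_I2 (f : ℤ[X]) : th (I2 f) = 2 * (f * L3 f) := by
  unfold I2 L3 th
  simp only [derivative_mul, derivative_sub, derivative_add, derivative_X, derivative_one,
    derivative_ofNat, derivative_pow, Nat.cast_ofNat, C_ofNat]
  ring


lemma coeff_L3_zero (f : ℤ[X]) : (L3 f).coeff 0 = 0 := by
  unfold L3
  simp only [coeff_sub, mul_coeff_zero, coeff_th, coeff_add]
  simp

lemma coeff_L3_succ (f : ℤ[X]) (n : ℕ) : (L3 f).coeff (n + 2)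
    = ((n : ℤ) + 2) ^ 3 * f.coeff (n + 2)
      - (28 * ((n : ℤ) + 1) ^ 3 + 42 * ((n : ℤ) + 1) ^ 2 + 22 * ((n : ℤ) + 1) + 4) * f.coeff (n + 1)
      - (128 * (n : ℤ) ^ 3 + 384 * (n : ℤ) ^ 2 + 352 * n + 96) * f.coeff n := by
  have e : L3 f = th (th (th f)) - C 28 * (th (th (th f)) * X ^ 1)
      - C 128 * (th (th (th f)) * X ^ 2) - C 42 * (th (th f) * X ^ 1)
      - C 384 * (th (th f) * X ^ 2) - C 22 * (th f * X ^ 1) - C 352 * (th f * X ^ 2)
      - C 4 * (f * X ^ 1) - C 96 * (f * X ^ 2) := by
    unfold L3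
    simp only [C_ofNat]
    ring
  rw [e]
  simp only [coeff_sub, coeff_C_mul]
  rw [show n + 2 = (n + 1) + 1 by ring]
  simp only [coeff_mul_X_pow]
  rw [show n + 1 + 1 = n + 2 by ring]
  simp only [coeff_th]
  push_cast
  ring

lemma coeff_L3_one (f : ℤ[X]) : (L3 f).coeff 1 = f.coeff 1 - 4 * f.coeff 0 := by
  have e : L3 f = th (th (th f)) - C 28 * (th (th (th f)) * X)
      - C 128 * (th (th (th f)) * X * X) - C 42 * (th (th f) * X)
      - C 384 * (th (th f) * X * X) - C 22 * (th f * X) - C 352 * (th f * X * X)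
      - C 4 * (f * X) - C 96 * (f * X * X) := by
    unfold L3
    simp only [C_ofNat]
    ring
  rw [e]
  simp only [coeff_sub, coeff_C_mul]
  rw [show (1 : ℕ) = 0 + 1 by ring]
  simp only [coeff_mul_X, mul_coeff_zero, coeff_X_zero, coeff_th]
  push_cast
  ring

lemma u_zero : u 0 = 1 := by
  unfold u franel
  decide

lemma u_one : u 1 = 4 := by
  unfold u franel
  decide

/-- the defect of the truncated series -/
lemma L3_W (p : ℕ) (hp : 3 ≤ p) :
    L3 (W p) = C (-(p : ℤ) ^ 3 * u p) * X ^ p
      + C (-(32 * (p : ℤ) * (2 * p - 1) * (2 * p + 1)) * u (p - 1)) * X ^ (p + 1) := by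
  ext m
  rw [coeff_add, coeff_C_mul, coeff_C_mul, coeff_X_pow, coeff_X_pow]
  rcases Nat.lt_or_ge m 2 with hm | hm
  · interval_cases m
    · rw [coeff_L3_zero, if_neg (by omega), if_neg (by omega)]
      simp
    · rw [coeff_L3_one, coeff_W, coeff_W, if_pos (by omega), if_pos (by omega), if_neg (by omega),
        if_neg (by omega), u_zero, u_one]
      simp
  · obtain ⟨n, rfl⟩ : ∃ n, m = n + 2 := ⟨m - 2, by omega⟩
    have hr := u_rec n
    rw [coeff_L3_succ, coeff_W, coeff_W, coeff_W]
    rcases lt_trichotomy (n + 2) p with h | h | h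
    · rw [if_pos h, if_pos (by omega), if_pos (by omega), if_neg (by omega), if_neg (by omega), hr]
      ring
    · rw [if_neg (by omega), if_pos (by omega), if_pos (by omega), if_pos h, if_neg (by omega)]
      have hp2 : (p : ℤ) = n + 2 := by
        rw [← h]
        push_cast
        ring
      rw [hp2, ← h]
      linear_combination hr
    · rw [if_neg (by omega), if_neg (by omega : ¬ n + 1 < p), if_neg (by omega : ¬ n + 2 = p)]
      rcases Nat.lt_or_ge n p with h2 | h2
      · rw [if_pos h2, if_pos (by omega)]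
        have hp2 : (p : ℤ) = n + 1 := by
          have : p = n + 1 := by omega
          rw [this]
          push_cast
          ring
        have hp3 : p - 1 = n := by omega
        rw [hp2, hp3]
        ring
      · rw [if_neg (by omega), if_neg (by omega)]
        ring

lemma dvd_u_pred {p : ℕ} (hp : p.Prime) (h3 : 3 ≤ p) : (p : ℤ) ∣ u (p - 1) := by
  unfold u
  apply Dvd.dvd.mul_right
  rw [Int.natCast_dvd_natCast]
  have h1 : (2 * (p - 1)).choose (p - 1) * (p - 1).factorial * (2 * (p - 1) - (p - 1)).factorial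
      = (2 * (p - 1)).factorial := Nat.choose_mul_factorial_mul_factorial (by omega)
  have h2 : p ∣ (2 * (p - 1)).factorial := (hp.dvd_factorial).mpr (by omega)
  rw [← h1] at h2
  rcases (hp.dvd_mul).mp h2 with h | h
  · rcases (hp.dvd_mul).mp h with h | h
    · exact h
    · have := (hp.dvd_factorial).mp h
      omega
  · have := (hp.dvd_factorial).mp h
    omega

lemma coeff_W_mul_L3 (p n : ℕ) (hp : 3 ≤ p) : (W p * L3 (W p)).coeff n
    = (-(p : ℤ) ^ 3 * u p) * (if p ≤ n then (W p).coeff (n - p) else 0)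
      + (-(32 * (p : ℤ) * (2 * p - 1) * (2 * p + 1)) * u (p - 1))
        * (if p + 1 ≤ n then (W p).coeff (n - (p + 1)) else 0) := by
  have e : W p * L3 (W p) = C (-(p : ℤ) ^ 3 * u p) * (W p * X ^ p)
      + C (-(32 * (p : ℤ) * (2 * p - 1) * (2 * p + 1)) * u (p - 1)) * (W p * X ^ (p + 1)) := by
    rw [L3_W p hp]
    ring
  rw [e, coeff_add, coeff_C_mul, coeff_C_mul, coeff_mul_X_pow', coeff_mul_X_pow']

/-- all coefficients of the first integral are divisible by `p ^ 2` -/
lemma dvd_coeff_I2 {p : ℕ} (hp : p.Prime) (h3 : 3 ≤ p) (n : ℕ) :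
    (p : ℤ) ^ 2 ∣ (I2 (W p)).coeff n := by
  have hpZ : Prime (p : ℤ) := Nat.prime_iff_prime_int.mp hp
  have hp0 : (p : ℤ) ≠ 0 := hpZ.ne_zero
  have key : (n : ℤ) * (I2 (W p)).coeff n = 2 * (W p * L3 (W p)).coeff n := by
    rw [← coeff_th, th_I2, ← C_ofNat, coeff_C_mul]
  rw [coeff_W_mul_L3 p n h3] at key
  obtain ⟨v, hv⟩ := dvd_u_pred hp h3
  by_cases hn : (p : ℤ) ∣ (n : ℤ)
  · rw [Int.natCast_dvd_natCast] at hn
    obtain ⟨j, rfl⟩ := hn
    rcases Nat.lt_or_ge j 3 with hj | hj
    · interval_cases j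
      · have : (I2 (W p)).coeff 0 = 0 := by
          unfold I2
          simp only [coeff_sub, mul_coeff_zero, coeff_th, coeff_add, pow_two]
          simp
        rw [mul_zero, this]
        exact dvd_zero _
      · rw [if_pos (by omega), if_neg (by omega), mul_one, Nat.sub_self, coeff_W,
          if_pos (by omega), u_zero] at key
        refine ⟨-2 * u p, ?_⟩
        rw [mul_one]
        apply mul_left_cancel₀ hp0
        rw [key]
        ring
      · rw [if_pos (by omega), if_pos (by omega), coeff_W, coeff_W,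
          show p * 2 - p = p by omega, show p * 2 - (p + 1) = p - 1 by omega,
          if_neg (by omega), if_pos (by omega), hv] at key
        refine ⟨-(32 * (2 * p - 1) * (2 * p + 1)) * v ^ 2, ?_⟩
        have h2 : (2 : ℤ) * p ≠ 0 := mul_ne_zero two_ne_zero hp0
        apply mul_left_cancel₀ h2
        push_cast at key
        linear_combination key
    · have hle : p * 3 ≤ p * j := Nat.mul_le_mul_left p hj
      rw [if_pos (by omega), if_pos (by omega), coeff_W, coeff_W, if_neg (by omega),
        if_neg (by omega)] at key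
      have hne : ((p * j : ℕ) : ℤ) ≠ 0 := by
        have : 0 < p * j := Nat.mul_pos (by omega) (by omega)
        exact_mod_cast this.ne'
      have h0 : (I2 (W p)).coeff (p * j) = 0 := by
        apply mul_left_cancel₀ hne
        rw [key]
        ring
      rw [h0]
      exact dvd_zero _
  · have hcop : IsCoprime ((p : ℤ) ^ 2) (n : ℤ) := by
      apply IsCoprime.pow_left
      exact (hpZ.coprime_iff_not_dvd).mpr hn
    apply hcop.dvd_of_dvd_mul_left
    rw [key, hv]
    exact ⟨2 * ((-(p : ℤ) * u p) * (if p ≤ n then (W p).coeff (n - p) else 0)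
      + (-(32 * (2 * p - 1) * (2 * p + 1)) * v)
        * (if p + 1 ≤ n then (W p).coeff (n - (p + 1)) else 0)), by ring⟩


lemma eval_dvd_of_coeff_dvd (f : ℤ[X]) (d z : ℤ) (h : ∀ n, d ∣ f.coeff n) : d ∣ f.eval z := by
  rw [eval_eq_sum]
  unfold Polynomial.sum
  apply Finset.dvd_sum
  intro n _
  exact Dvd.dvd.mul_right (h n) _

lemma th_map (p : ℕ) (f : ℤ[X]) :
    (th f).map (Int.castRingHom (ZMod p)) = th (f.map (Int.castRingHom (ZMod p))) := by
  unfold th
  rw [Polynomial.map_mul, map_X, derivative_map]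

lemma L3_map (p : ℕ) (f : ℤ[X]) :
    (L3 f).map (Int.castRingHom (ZMod p)) = L3 (f.map (Int.castRingHom (ZMod p))) := by
  unfold L3
  simp only [Polynomial.map_sub, Polynomial.map_add, Polynomial.map_mul, Polynomial.map_pow,
    map_X, th_map, Polynomial.map_one, Polynomial.map_ofNat]

lemma L3_eq {R : Type*} [CommRing R] (f : R[X]) : L3 f
    = (1 - 28 * X - 128 * X ^ 2) * X ^ 3 * derivative (derivative (derivative f))
      + (3 * (1 - 28 * X - 128 * X ^ 2) * X ^ 2 - (42 * X + 384 * X ^ 2) * X ^ 2)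
        * derivative (derivative f)
      + ((1 - 28 * X - 128 * X ^ 2) * X - (42 * X + 384 * X ^ 2) * X
        - (22 * X + 352 * X ^ 2) * X) * derivative f - (4 * X + 96 * X ^ 2) * f := by
  unfold L3 th
  simp only [derivative_mul, derivative_X, derivative_add, one_mul]
  ring

/-- A nonzero polynomial solution of degree `< p` has no triple zero away from the singular
points. -/
lemma no_triple {p : ℕ} [Fact p.Prime] (f : (ZMod p)[X]) (hf : f ≠ 0) (hdeg : f.natDegree < p)
    (hL : L3 f = 0) (a : ZMod p) (ha : a ≠ 0) (hP : 1 - 28 * a - 128 * a ^ 2 ≠ 0)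
    (h0 : f.eval a = 0) (h1 : (derivative f).eval a = 0)
    (h2 : (derivative (derivative f)).eval a = 0) : False := by
  obtain ⟨V, hV, hnd⟩ := exists_eq_pow_rootMultiplicity_mul_and_not_dvd f hf a
  set m := rootMultiplicity a f with hm
  have hVa : V.eval a ≠ 0 := by
    intro h
    exact hnd (dvd_iff_isRoot.mpr h)
  have hmlt : m < p := by
    have h3 : m ≤ f.natDegree := by
      have : (X - C a) ^ m ∣ f := ⟨V, hV⟩
      have h4 := natDegree_le_of_dvd this hf
      rwa [natDegree_pow, natDegree_X_sub_C, mul_one] at h4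
    omega
  set D : (ZMod p)[X] := X - C a with hD
  have hDd : derivative D = 1 := by rw [hD]; simp
  have hDe : D.eval a = 0 := by rw [hD]; simp
  have nz : ∀ k : ℕ, 0 < k → k < p → ((k : ℕ) : ZMod p) ≠ 0 := by
    intro k hk hk2
    rw [Ne, ZMod.natCast_eq_zero_iff]
    intro hd
    have := Nat.le_of_dvd hk hd
    omega
  rcases Nat.lt_or_ge m 3 with hlt | hge
  · -- small multiplicity
    have hcases : m = 0 ∨ m = 1 ∨ m = 2 := by omega
    rcases hcases with h | h | h
    · rw [h, pow_zero, one_mul] at hV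
      rw [hV] at h0
      exact hVa h0
    · rw [h, pow_one] at hV
      rw [hV, derivative_mul, hDd, eval_add, eval_mul, eval_mul, hDe] at h1
      simp at h1
      exact hVa h1
    · have hp2 : 2 < p := by
        by_contra hcon
        have : m < 2 := by omega
        omega
      rw [h] at hV
      have e : derivative (derivative f) = C 2 * V + D * (4 * derivative V
          + D * derivative (derivative V)) := by
        rw [hV]
        simp only [derivative_mul, derivative_pow, hDd, derivative_one, derivative_add,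
          derivative_ofNat, Nat.cast_ofNat, C_ofNat]
        norm_num
        ring
      rw [e, eval_add, eval_mul, eval_mul, hDe, eval_C, zero_mul, add_zero] at h2
      rcases mul_eq_zero.mp h2 with h3 | h3
      · exact nz 2 (by omega) hp2 (by exact_mod_cast h3)
      · exact hVa h3
  · obtain ⟨k, hk⟩ : ∃ k, m = k + 3 := ⟨m - 3, by omega⟩
    have hstep : ∀ (j : ℕ) (g : (ZMod p)[X]), derivative (D ^ (j + 1) * g)
        = D ^ j * (C ((j : ZMod p) + 1) * g + D * derivative g) := by
      intro j g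
      rw [derivative_mul, derivative_pow, hDd]
      simp only [Nat.add_sub_cancel, mul_one]
      push_cast
      ring
    set V1 := C (((k + 2 : ℕ) : ZMod p) + 1) * V + D * derivative V with hV1
    set V2 := C (((k + 1 : ℕ) : ZMod p) + 1) * V1 + D * derivative V1 with hV2
    set V3 := C (((k : ℕ) : ZMod p) + 1) * V2 + D * derivative V2 with hV3
    have d0 : f = D ^ (k + 2 + 1) * V := by rw [hV, hk]
    have d1 : derivative f = D ^ (k + 1 + 1) * V1 := by rw [d0, hstep]
    have d2 : derivative (derivative f) = D ^ (k + 1) * V2 := by rw [d1, hstep]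
    have d3 : derivative (derivative (derivative f)) = D ^ k * V3 := by rw [d2, hstep]
    have e1 : V1.eval a = (((k + 2 : ℕ) : ZMod p) + 1) * V.eval a := by
      rw [hV1, eval_add, eval_mul, eval_mul, eval_C, hDe]; ring
    have e2 : V2.eval a = (((k + 1 : ℕ) : ZMod p) + 1) * V1.eval a := by
      rw [hV2, eval_add, eval_mul, eval_mul, eval_C, hDe]; ring
    have e3 : V3.eval a = (((k : ℕ) : ZMod p) + 1) * V2.eval a := by
      rw [hV3, eval_add, eval_mul, eval_mul, eval_C, hDe]; ring
    rw [L3_eq, d3, d2, d1, d0] at hL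
    have hfac : D ^ k * ((1 - 28 * X - 128 * X ^ 2) * X ^ 3 * V3
      + D * ((3 * (1 - 28 * X - 128 * X ^ 2) * X ^ 2 - (42 * X + 384 * X ^ 2) * X ^ 2) * V2)
      + D ^ 2 * (((1 - 28 * X - 128 * X ^ 2) * X - (42 * X + 384 * X ^ 2) * X
        - (22 * X + 352 * X ^ 2) * X) * V1) - D ^ 3 * ((4 * X + 96 * X ^ 2) * V)) = 0 := by
      rw [← hL]
      ring
    have hDne : D ^ k ≠ 0 := pow_ne_zero _ (by rw [hD]; exact X_sub_C_ne_zero a)
    have hb := (mul_eq_zero.mp hfac).resolve_left hDne
    have hb2 := congrArg (eval a) hb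
    simp only [eval_add, eval_sub, eval_mul, eval_pow, hDe, eval_X, eval_one, eval_ofNat,
      eval_zero] at hb2
    have hb3 : (1 - 28 * a - 128 * a ^ 2) * a ^ 3 * V3.eval a = 0 := by
      rw [← hb2]
      ring
    rw [e3, e2, e1] at hb3
    have n1 := nz (k + 1) (by omega) (by omega)
    have n2 := nz (k + 2) (by omega) (by omega)
    have n3 := nz (k + 3) (by omega) (by omega)
    push_cast at n1 n2 n3 hb3
    rcases mul_eq_zero.mp hb3 with h | h
    · rcases mul_eq_zero.mp h with h | h
      · exact hP h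
      · exact ha (pow_eq_zero_iff (by norm_num) |>.mp h)
    · rcases mul_eq_zero.mp h with h | h
      · exact n1 h
      · rcases mul_eq_zero.mp h with h | h
        · exact n2 (by linear_combination h)
        · rcases mul_eq_zero.mp h with h | h
          · exact n3 (by linear_combination h)
          · exact hVa h


lemma arith_step {p P w w1 w2 T Q : ℤ} (hp : Prime p) (h2 : ¬ p ∣ 2) (hP : ¬ p ∣ P)
    (hI : p ^ 2 ∣ 2 * P * w * w2 - P * w1 ^ 2 - T * w * w1 - Q * w ^ 2) (hw : p ∣ w) :
    p ∣ w1 ∧ (p ^ 2 ∣ w ∨ p ∣ w2) := by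
  obtain ⟨a, rfl⟩ := hw
  have h1 : p ∣ P * w1 ^ 2 := by
    have h3 : p ∣ 2 * P * (p * a) * w2 - P * w1 ^ 2 - T * (p * a) * w1 - Q * (p * a) ^ 2 :=
      dvd_trans (dvd_pow_self p two_ne_zero) hI
    have h4 : P * w1 ^ 2 = p * (2 * P * a * w2 - T * a * w1 - Q * p * a ^ 2)
        - (2 * P * (p * a) * w2 - P * w1 ^ 2 - T * (p * a) * w1 - Q * (p * a) ^ 2) := by ring
    rw [h4]
    exact dvd_sub (dvd_mul_right _ _) h3
  have hw1 : p ∣ w1 := by
    rcases hp.dvd_or_dvd h1 with h | h
    · exact absurd h hP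
    · exact hp.dvd_of_dvd_pow h
  refine ⟨hw1, ?_⟩
  obtain ⟨b, rfl⟩ := hw1
  obtain ⟨c, hc⟩ := hI
  have h5 : 2 * P * a * w2 = p * (c + P * b ^ 2 + T * a * b + Q * a ^ 2) := by
    apply mul_left_cancel₀ hp.ne_zero
    linear_combination hc
  have h6 : p ∣ 2 * P * a * w2 := ⟨_, h5⟩
  rcases hp.dvd_or_dvd h6 with h | h
  · rcases hp.dvd_or_dvd h with h | h
    · rcases hp.dvd_or_dvd h with h | h
      · exact absurd h h2
      · exact absurd h hP
    · left
      obtain ⟨d, rfl⟩ := h
      exact ⟨d, by ring⟩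
  · right
    exact h

/-- Lifting principle: a zero modulo `p` of the truncated series away from the singular points is
a zero modulo `p ^ 2`. -/
theorem lift {p : ℕ} (hp : p.Prime) (h3 : 3 ≤ p) (z : ℤ) (hz : ¬ (p : ℤ) ∣ z)
    (hP : ¬ (p : ℤ) ∣ 1 - 28 * z - 128 * z ^ 2) (h0 : (p : ℤ) ∣ (W p).eval z) :
    (p : ℤ) ^ 2 ∣ (W p).eval z := by
  have : Fact p.Prime := ⟨hp⟩
  have hpZ : Prime (p : ℤ) := Nat.prime_iff_prime_int.mp hp
  have h2 : ¬ (p : ℤ) ∣ 2 := by
    intro h
    have := Int.le_of_dvd (by norm_num) h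
    omega
  have hI := eval_dvd_of_coeff_dvd (I2 (W p)) ((p : ℤ) ^ 2) z (dvd_coeff_I2 hp h3)
  have hIe : (I2 (W p)).eval z = 2 * (1 - 28 * z - 128 * z ^ 2) * (W p).eval z
        * (th (th (W p))).eval z - (1 - 28 * z - 128 * z ^ 2) * ((th (W p)).eval z) ^ 2
      - (28 * z + 256 * z ^ 2) * (W p).eval z * (th (W p)).eval z
      - (8 * z + 96 * z ^ 2) * ((W p).eval z) ^ 2 := by
    unfold I2
    simp only [eval_add, eval_sub, eval_mul, eval_pow, eval_X, eval_one, eval_ofNat]
  rw [hIe] at hI
  obtain ⟨hw1, h | hw2⟩ := arith_step hpZ h2 hP hI h0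
  · exact h
  · exfalso
    set F := (W p).map (Int.castRingHom (ZMod p)) with hF
    have toZ : ∀ g : ℤ[X], (p : ℤ) ∣ g.eval z →
        (g.map (Int.castRingHom (ZMod p))).eval (z : ZMod p) = 0 := by
      intro g hg
      have : (z : ZMod p) = (Int.castRingHom (ZMod p)) z := rfl
      rw [this, eval_map_apply]
      exact (ZMod.intCast_zmod_eq_zero_iff_dvd _ _).mpr hg
    have za : (z : ZMod p) ≠ 0 := fun h => hz ((ZMod.intCast_zmod_eq_zero_iff_dvd _ _).mp h)
    have e0 : F.eval (z : ZMod p) = 0 := toZ _ h0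
    have e1 : (th F).eval (z : ZMod p) = 0 := by
      rw [hF, ← th_map]
      exact toZ _ hw1
    have e2 : (th (th F)).eval (z : ZMod p) = 0 := by
      rw [hF, ← th_map, ← th_map]
      exact toZ _ hw2
    have d1 : (derivative F).eval (z : ZMod p) = 0 := by
      unfold th at e1
      rw [eval_mul, eval_X] at e1
      exact (mul_eq_zero.mp e1).resolve_left za
    have d2 : (derivative (derivative F)).eval (z : ZMod p) = 0 := by
      unfold th at e2
      rw [derivative_mul, derivative_X, eval_mul, eval_X, eval_add, eval_mul, eval_mul, eval_X,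
        d1, mul_zero, zero_add] at e2
      exact (mul_eq_zero.mp ((mul_eq_zero.mp e2).resolve_left za)).resolve_left za
    have hFne : F ≠ 0 := by
      intro h
      have h5 : F.coeff 0 = 0 := by rw [h]; simp
      rw [hF, coeff_map, coeff_W, if_pos (by omega), u_zero] at h5
      simp at h5
    have hdeg : F.natDegree < p := by
      have h6 : F.degree < p := by
        rw [degree_lt_iff_coeff_zero]
        intro m hm
        rw [hF, coeff_map, coeff_W, if_neg (by omega)]
        simp
      exact (natDegree_lt_iff_degree_lt hFne).mpr h6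
    have hL : L3 F = 0 := by
      rw [hF, ← L3_map, L3_W p h3]
      simp only [Polynomial.map_add, Polynomial.map_mul, map_C, Polynomial.map_pow, map_X,
        map_mul, map_neg, map_pow]
      simp
    have hPa : 1 - 28 * (z : ZMod p) - 128 * (z : ZMod p) ^ 2 ≠ 0 := by
      intro h
      apply hP
      rw [← ZMod.intCast_zmod_eq_zero_iff_dvd]
      push_cast
      exact h
    exact no_triple F hFne hdeg hL (z : ZMod p) za hPa e0 d1 d2

end MPb66c90
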