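import Pool.Agent.Lib.MP_b66c90_nt.Spec

/-!
# The value of `Z_p(-16)` modulo `p ^ 2` for `p = 4 k + 1`, from the steps
-/

namespace MPb66c90

open Finset

section basics

variable {p : ℕ} [hp : Fact p.Prime]

lemma inv_two_mem (h5 : 5 ≤ p) : ((2 : ℚ))⁻¹ ∈ Zp p := by
  have := inv_nat_mem_of_lt (p := p) 2 (by norm_num) (by omega)
  simpa using this

lemma inv_three_mem (h5 : 5 ≤ p) : ((3 : ℚ))⁻¹ ∈ Zp p := by
  have := inv_nat_mem_of_lt (p := p) 3 (by norm_num) (by omega)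
  simpa using this

lemma frac_mem (h5 : 5 ≤ p) (a : ℤ) (i j : ℕ) : (a : ℚ) / (2 ^ i * 3 ^ j) ∈ Zp p := by
  have h : (a : ℚ) / (2 ^ i * 3 ^ j) = a * ((2 : ℚ)⁻¹ ^ i * (3 : ℚ)⁻¹ ^ j) := by
    rw [div_eq_mul_inv, mul_inv, inv_pow, inv_pow]
  rw [h]
  exact (Zp p).mul_mem (int_mem a) ((Zp p).mul_mem ((Zp p).pow_mem (inv_two_mem h5) i)
    ((Zp p).pow_mem (inv_three_mem h5) j))

lemma harmonic_mem (n : ℕ) (hn : n < p) : harmonic n ∈ Zp p := by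
  unfold harmonic
  refine (Zp p).sum_mem fun i hi => ?_
  have hi' := mem_range.1 hi
  have := inv_nat_mem_of_lt (p := p) (i + 1) (by omega) (by omega)
  simpa using this

/-- product rule for expansions modulo `p ^ 2` -/
lemma Cg.mul_exp {X Y a b x y : ℚ} (ha : a ∈ Zp p) (hb : b ∈ Zp p) (hx : x ∈ Zp p)
    (hy : y ∈ Zp p) (h : Cg p 2 X (a * (1 + p * x))) (h' : Cg p 2 Y (b * (1 + p * y))) :
    Cg p 2 (X * Y) (a * b * (1 + p * (x + y))) := by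
  have h1 : a * (1 + p * x) ∈ Zp p :=
    (Zp p).mul_mem ha ((Zp p).add_mem (Zp p).one_mem ((Zp p).mul_mem (nat_mem p) hx))
  have h2 : b * (1 + p * y) ∈ Zp p :=
    (Zp p).mul_mem hb ((Zp p).add_mem (Zp p).one_mem ((Zp p).mul_mem (nat_mem p) hy))
  refine (h.mul h' h1 (h'.mem_iff.2 h2)).trans ⟨a * b * (x * y),
    (Zp p).mul_mem ((Zp p).mul_mem ha hb) ((Zp p).mul_mem hx hy), by ring⟩

/-- replace the first order term -/
lemma Cg.congr_exp {X a x y : ℚ} (ha : a ∈ Zp p) (h : Cg p 2 X (a * (1 + p * x)))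
    (hxy : Cg p 1 x y) : Cg p 2 X (a * (1 + p * y)) := by
  refine h.trans (Cg.mul_left a ha ?_)
  exact (Cg.refl 1).add hxy.p_mul

/-- powers -/
lemma Cg.pow_exp {X a x : ℚ} (ha : a ∈ Zp p) (hx : x ∈ Zp p)
    (h : Cg p 2 X (a * (1 + p * x))) (m : ℕ) : Cg p 2 (X ^ m) (a ^ m * (1 + p * (m * x))) := by
  induction m with
  | zero => simp only [pow_zero, Nat.cast_zero, zero_mul, mul_zero, add_zero, mul_one]; exact Cg.refl 1
  | succ m ih =>
    have := Cg.mul_exp ((Zp p).pow_mem ha m) ha ((Zp p).mul_mem (nat_mem m) hx) hx ih h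
    rw [← pow_succ, ← pow_succ] at this
    refine this.trans ?_
    rw [show (m : ℚ) * x + x = ((m + 1 : ℕ) : ℚ) * x by push_cast; ring]

/-- inverse -/
lemma Cg.inv_exp {X a x : ℚ} (ha : a⁻¹ ∈ Zp p) (hx : x ∈ Zp p)
    (ha0 : a ≠ 0) (h : Cg p 2 X (a * (1 + p * x))) (hX : X⁻¹ ∈ Zp p) :
    Cg p 2 X⁻¹ (a⁻¹ * (1 + p * (-x))) := by
  rcases eq_or_ne X 0 with rfl | hX0
  · exfalso
    obtain ⟨z, hz, h⟩ := h
    have h1 := one_add_ne_zero (p := p) hx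
    have hp0 : (p : ℚ) ≠ 0 := by exact_mod_cast hp.out.ne_zero
    have h2 : 1 + (p : ℚ) * (x + p * (z * a⁻¹)) = 0 := by
      field_simp
      linear_combination (-1 : ℚ) * h
    exact one_add_ne_zero (p := p) ((Zp p).add_mem hx ((Zp p).mul_mem (nat_mem p)
      ((Zp p).mul_mem hz ha))) h2
  · obtain ⟨z, hz, h⟩ := h
    refine ⟨X⁻¹ * x ^ 2 - X⁻¹ * a⁻¹ * (1 - p * x) * z, ?_, ?_⟩
    · refine (Zp p).sub_mem ((Zp p).mul_mem hX ((Zp p).pow_mem hx 2)) ?_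
      refine (Zp p).mul_mem ((Zp p).mul_mem ((Zp p).mul_mem hX ha) ?_) hz
      exact (Zp p).sub_mem (Zp p).one_mem ((Zp p).mul_mem (nat_mem p) hx)
    · field_simp
      linear_combination (-(1 - (p : ℚ) * x)) * h

end basics

section trunc

lemma hyp_eq_zero_left (n : ℕ) (b c z : ℚ) (l : ℕ) (h : n < l) :
    hyp (-(n : ℚ)) b c z l = 0 := by
  unfold hyp
  refine prod_eq_zero (mem_range.2 h) ?_
  rw [neg_add_cancel, zero_mul, zero_div, zero_mul]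

lemma hyp_eq_zero_right (n : ℕ) (a c z : ℚ) (l : ℕ) (h : n < l) :
    hyp a (-(n : ℚ)) c z l = 0 := by
  unfold hyp
  refine prod_eq_zero (mem_range.2 h) ?_
  rw [neg_add_cancel, mul_zero, zero_div, zero_mul]

lemma hsum_trunc (a b c z : ℚ) (L L' : ℕ) (hL : L ≤ L') (h : ∀ l, L ≤ l → hyp a b c z l = 0) :
    hsum a b c z L' = hsum a b c z L := by
  unfold hsum
  symm
  refine sum_subset (fun x hx => mem_range.2 (lt_of_lt_of_le (mem_range.1 hx) hL)) ?_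
  intro x _ hx
  exact h x (by simpa using hx)

end trunc

/-- the main sum in terms of the closed forms -/
theorem cg_main (hAff : StAff) (hEu : StEuler) (hE1 : StE1) (hE2 : StE2) (hG2 : StG2)
    (hG1 : StG1) (p k : ℕ) [hp : Fact p.Prime] (hpk : p = 4 * k + 1) :
    Cg p 2 (hsum (1 / 4) (1 / 2) 1 (1 / 4) p)
      (-(3 / 4) * ((27 / 16) ^ k * (2 * k).choose k / (4 * k).choose (2 * k))
        + (27 / 16) ^ k * (2 * k).choose k *
            ∏ j ∈ range k, ((2 * (j + 1) : ℚ) / (4 * k + 1 + 2 * (j + 1)))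
        + (4 / 3) ^ k * ((2 * k).choose k / (4 * k).choose k)
        - 1 / 4 * ((4 / 3) ^ k *
            ∏ i ∈ range (3 * k), ((4 * i + 5 : ℚ) * (4 * i + 7) / (4 * (2 * i + 3) ^ 2)))) := by
  have hk : 1 ≤ k := by
    rcases Nat.eq_zero_or_pos k with h | h
    · subst h
      exact absurd hp.out (by rw [hpk]; norm_num)
    · exact h
  have h5 : 5 ≤ p := by omega
  have hpq : (p : ℚ) = 4 * k + 1 := by rw [hpk]; push_cast; ring
  have m14 : (1 / 4 : ℚ) ∈ Zp p := by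
    have := frac_mem (p := p) h5 1 2 0
    norm_num at this; norm_num; exact this
  have m12 : (1 / 2 : ℚ) ∈ Zp p := by
    have := frac_mem (p := p) h5 1 1 0
    norm_num at this; norm_num; exact this
  have m34 : (3 / 4 : ℚ) ∈ Zp p := by
    have := frac_mem (p := p) h5 3 2 0
    norm_num at this; exact this
  have n34 : (-3 / 4 : ℚ) ∈ Zp p := by
    have := frac_mem (p := p) h5 (-3) 2 0
    norm_num at this; norm_num; exact this
  have n12 : (-1 / 2 : ℚ) ∈ Zp p := by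
    have := frac_mem (p := p) h5 (-1) 1 0
    norm_num at this; norm_num; exact this
  have n14 : (-1 / 4 : ℚ) ∈ Zp p := by
    have := frac_mem (p := p) h5 (-1) 2 0
    norm_num at this; norm_num; exact this
  have n512 : (-5 / 12 : ℚ) ∈ Zp p := by
    have := frac_mem (p := p) h5 (-5) 2 1
    norm_num at this; norm_num; exact this
  have n76 : (-7 / 6 : ℚ) ∈ Zp p := by
    have := frac_mem (p := p) h5 (-7) 1 1
    norm_num at this; norm_num; exact this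
  have n23 : (-2 / 3 : ℚ) ∈ Zp p := by
    have := frac_mem (p := p) h5 (-2) 0 1
    norm_num at this; norm_num; exact this
  have m32 : (3 / 2 : ℚ) ∈ Zp p := by
    have := frac_mem (p := p) h5 3 1 0
    norm_num at this; exact this
  have m43 : (4 / 3 : ℚ) ∈ Zp p := by
    have := frac_mem (p := p) h5 4 0 1
    norm_num at this; exact this
  obtain ⟨A, hA, B, hB, C, hC, hF⟩ := hAff p (1 / 4) m14 (1 / 2) m12 (1 / 4) m14
  obtain ⟨A', hA', B', hB', C', hC', hF'⟩ := hAff p (3 / 4) m34 (1 / 2) m12 (1 / 4) m14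
  -- the points
  have P1 := hF (-3 / 4) n34 (-1 / 2) n12 (-1 / 2) n12
  have P2 := hF (-1 / 4) n14 0 (Zp p).zero_mem (1 / 2) m12
  have P3 := hF (-5 / 12) n512 (-1 / 2) n12 (-7 / 6) n76
  have P3' := hF' (-3 / 4) n34 (-2 / 3) n23 (-7 / 6) n76
  have Q1 := hF' (-3 / 4) n34 (-1 / 2) n12 (-1 / 2) n12
  have Q2 := hF' (-3 / 4) n34 0 (Zp p).zero_mem (3 / 2) m32
  -- identify the sums
  have e1 : hsum (1 / 4 + p * (-3 / 4)) (1 / 2 + p * (-1 / 2)) (1 + p * (-1 / 2)) (1 / 4) p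
      = (27 / 16) ^ k * (2 * k).choose k / (4 * k).choose (2 * k) := by
    rw [← hE1 k, show (1 / 4 + (p : ℚ) * (-3 / 4)) = -(3 * k : ℚ) - 1 / 2 by rw [hpq]; ring,
      show (1 / 2 + (p : ℚ) * (-1 / 2)) = -(2 * k : ℚ) by rw [hpq]; ring,
      show (1 + (p : ℚ) * (-1 / 2)) = (1 / 2 - 2 * k : ℚ) by rw [hpq]; ring]
    refine hsum_trunc _ _ _ _ _ _ (by omega) fun l hl => ?_
    have := hyp_eq_zero_right (2 * k) (-(3 * k : ℚ) - 1 / 2) (1 / 2 - 2 * k) (1 / 4) l (by omega)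
    push_cast at this
    exact this
  have e2 : hsum (1 / 4 + p * (-1 / 4)) (1 / 2 + p * 0) (1 + p * (1 / 2)) (1 / 4) p
      = (27 / 16) ^ k * (2 * k).choose k *
            ∏ j ∈ range k, ((2 * (j + 1) : ℚ) / (4 * k + 1 + 2 * (j + 1))) := by
    rw [← hE2 k, show (1 / 4 + (p : ℚ) * (-1 / 4)) = -(k : ℚ) by rw [hpq]; ring,
      show (1 / 2 + (p : ℚ) * 0) = 1 / 2 by ring,
      show (1 + (p : ℚ) * (1 / 2)) = (2 * k + 3 / 2 : ℚ) by rw [hpq]; ring]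
    refine hsum_trunc _ _ _ _ _ _ (by omega) fun l hl => ?_
    exact hyp_eq_zero_left k _ _ _ l (by omega)
  have e3 : hsum (3 / 4 + p * (-3 / 4)) (1 / 2 + p * (-1 / 2)) (1 + p * (-1 / 2)) (1 / 4) p
      = (2 * k).choose k / (4 * k).choose k := by
    rw [← hG2 k, show (3 / 4 + (p : ℚ) * (-3 / 4)) = -(3 * k : ℚ) by rw [hpq]; ring,
      show (1 / 2 + (p : ℚ) * (-1 / 2)) = -(2 * k : ℚ) by rw [hpq]; ring,
      show (1 + (p : ℚ) * (-1 / 2)) = (1 / 2 - 2 * k : ℚ) by rw [hpq]; ring]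
    refine hsum_trunc _ _ _ _ _ _ (by omega) fun l hl => ?_
    have := hyp_eq_zero_right (2 * k) (-(3 * k : ℚ)) (1 / 2 - 2 * k) (1 / 4) l (by omega)
    push_cast at this
    exact this
  have e4 : hsum (3 / 4 + p * (-3 / 4)) (1 / 2 + p * 0) (1 + p * (3 / 2)) (1 / 4) p
      = ∏ i ∈ range (3 * k), ((4 * i + 5 : ℚ) * (4 * i + 7) / (4 * (2 * i + 3) ^ 2)) := by
    rw [← hG1 (3 * k), show (3 / 4 + (p : ℚ) * (-3 / 4)) = -((3 * k : ℕ) : ℚ) by
        rw [hpq]; push_cast; ring,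
      show (1 / 2 + (p : ℚ) * 0) = 1 / 2 by ring,
      show (1 + (p : ℚ) * (3 / 2)) = (2 * ((3 * k : ℕ) : ℚ) + 5 / 2 : ℚ) by
        rw [hpq]; push_cast; ring]
    refine hsum_trunc _ _ _ _ _ _ (by omega) fun l hl => ?_
    exact hyp_eq_zero_left (3 * k) _ _ _ l (by omega)
  have e5 : hsum (1 / 4 + p * (-5 / 12)) (1 / 2 + p * (-1 / 2)) (1 + p * (-7 / 6)) (1 / 4) p
      = (4 / 3) ^ k *
        hsum (3 / 4 + p * (-3 / 4)) (1 / 2 + p * (-2 / 3)) (1 + p * (-7 / 6)) (1 / 4) p := by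
    have hc : ∀ i : ℕ, (1 + (p : ℚ) * (-7 / 6)) + i ≠ 0 := by
      intro i h
      have h1 : (6 : ℚ) * (i + 1) = 7 * p := by linear_combination 6 * h
      have h2 : 6 * (i + 1) = 7 * p := by exact_mod_cast h1
      have h3 : 2 ∣ p := by omega
      have h4 := (Nat.prime_dvd_prime_iff_eq Nat.prime_two hp.out).1 h3
      omega
    have hE := hEu (1 + (p : ℚ) * (-7 / 6)) (1 / 4) (3 * k) (2 * k) hc
    rw [show (1 + (p : ℚ) * (-7 / 6)) + ((3 * k : ℕ) : ℚ) = 1 / 4 + p * (-5 / 12) by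
        rw [hpq]; push_cast; ring,
      show (1 + (p : ℚ) * (-7 / 6)) + ((2 * k : ℕ) : ℚ) = 1 / 2 + p * (-2 / 3) by
        rw [hpq]; push_cast; ring,
      show -((2 * k : ℕ) : ℚ) = 1 / 2 + p * (-1 / 2) by rw [hpq]; push_cast; ring,
      show -((3 * k : ℕ) : ℚ) = 3 / 4 + p * (-3 / 4) by rw [hpq]; push_cast; ring] at hE
    rw [hsum_trunc _ _ _ _ (2 * k + 1) p (by omega) (fun l hl => ?_),
      hsum_trunc (3 / 4 + p * (-3 / 4)) _ _ _ (3 * k + 1) p (by omega) (fun l hl => ?_)]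
    · have h3 : ((1 : ℚ) - 1 / 4) ^ (3 * k) = (3 / 4) ^ (2 * k) * (3 / 4) ^ k := by
        rw [← pow_add]; norm_num; ring
      have h4 : ((1 : ℚ) - 1 / 4) ^ (2 * k) = (3 / 4) ^ (2 * k) := by norm_num
      rw [h3, h4, mul_assoc] at hE
      have h5 := mul_left_cancel₀ (pow_ne_zero (2 * k) (by norm_num : (3 / 4 : ℚ) ≠ 0)) hE
      rw [← h5, ← mul_assoc, ← mul_pow]
      norm_num
    · have := hyp_eq_zero_left (3 * k) (1 / 2 + (p : ℚ) * (-2 / 3)) (1 + (p : ℚ) * (-7 / 6))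
        (1 / 4) l (by omega)
      rwa [show -((3 * k : ℕ) : ℚ) = 3 / 4 + p * (-3 / 4) by rw [hpq]; push_cast; ring] at this
    · have := hyp_eq_zero_right (2 * k) (1 / 4 + (p : ℚ) * (-5 / 12)) (1 + (p : ℚ) * (-7 / 6))
        (1 / 4) l (by omega)
      rwa [show -((2 * k : ℕ) : ℚ) = 1 / 2 + p * (-1 / 2) by rw [hpq]; push_cast; ring] at this
  rw [e1] at P1
  rw [e2] at P2
  rw [e5] at P3
  rw [e3] at Q1
  rw [e4] at Q2
  set E1v := (27 / 16 : ℚ) ^ k * (2 * k).choose k / (4 * k).choose (2 * k)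
  set E2v := (27 / 16 : ℚ) ^ k * (2 * k).choose k *
            ∏ j ∈ range k, ((2 * (j + 1) : ℚ) / (4 * k + 1 + 2 * (j + 1)))
  set G2v := ((2 * k).choose k : ℚ) / (4 * k).choose k
  set G1v := ∏ i ∈ range (3 * k), ((4 * i + 5 : ℚ) * (4 * i + 7) / (4 * (2 * i + 3) ^ 2))
  set X3 := hsum (3 / 4 + p * (-3 / 4)) (1 / 2 + p * (-2 / 3)) (1 + p * (-7 / 6)) (1 / 4) p
  -- second family
  have hX3 : Cg p 2 X3 (4 / 3 * G2v + -1 / 3 * G1v) := by
    have m13 : (-1 / 3 : ℚ) ∈ Zp p := by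
      have := frac_mem (p := p) h5 (-1) 0 1
      norm_num at this; norm_num; exact this
    have h1 := ((Q1.mul_left (4 / 3) m43).add (Q2.mul_left (-1 / 3) m13)).symm
    refine P3'.trans (Cg.trans ?_ h1)
    have : (hsum (3 / 4) (1 / 2) 1 (1 / 4) p + (p : ℚ) * (-3 / 4 * A' + -2 / 3 * B' + -7 / 6 * C'))
      = (4 / 3 * (hsum (3 / 4) (1 / 2) 1 (1 / 4) p
            + (p : ℚ) * (-3 / 4 * A' + -1 / 2 * B' + -1 / 2 * C'))
          + -1 / 3 * (hsum (3 / 4) (1 / 2) 1 (1 / 4) p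
            + (p : ℚ) * (-3 / 4 * A' + 0 * B' + 3 / 2 * C'))) := by ring
    rw [this]
  have hfin := (((P1.mul_left (-3 / 4) n34).add P2).add (P3.mul_left (3 / 4) m34)).symm
  have e0 : (-3 / 4 * (hsum (1 / 4) (1 / 2) 1 (1 / 4) p
            + (p : ℚ) * (-3 / 4 * A + -1 / 2 * B + -1 / 2 * C))
          + (hsum (1 / 4) (1 / 2) 1 (1 / 4) p
            + (p : ℚ) * (-1 / 4 * A + 0 * B + 1 / 2 * C))
          + 3 / 4 * (hsum (1 / 4) (1 / 2) 1 (1 / 4) p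
            + (p : ℚ) * (-5 / 12 * A + -1 / 2 * B + -7 / 6 * C)))
      = hsum (1 / 4) (1 / 2) 1 (1 / 4) p := by ring
  rw [e0] at hfin
  refine hfin.trans ?_
  have h6 := (hX3.mul_left (4 / 3 ^ k * 0 + (4 / 3) ^ k) (by
    rw [mul_zero, zero_add]
    exact (Zp p).pow_mem m43 k)).mul_left (3 / 4) m34
  rw [mul_zero, zero_add] at h6
  have h7 := (Cg.refl (p := p) (n := 2) (-3 / 4 * E1v + E2v)).add h6
  refine h7.trans ?_
  have : -3 / 4 * E1v + E2v + 3 / 4 * ((4 / 3) ^ k * (4 / 3 * G2v + -1 / 3 * G1v))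
    = -(3 / 4) * E1v + E2v + (4 / 3) ^ k * G2v - 1 / 4 * ((4 / 3) ^ k * G1v) := by ring
  rw [this]

/-- powers of two and three modulo `p ^ 2` -/
theorem cg_powers (hH2 : StH2) (p k : ℕ) [hp : Fact p.Prime] (hpk : p = 4 * k + 1) (h5 : 5 ≤ p) :
    ∃ q ∈ Zp p, Cg p 2 ((1 / 64 : ℚ) ^ k)
        ((-1) ^ k * (1 + p * (-3 / 2 * (harmonic (2 * k) - harmonic k)))) ∧
      Cg p 2 ((27 / 16 : ℚ) ^ k)
        ((4 / 3) ^ k * (-1) ^ k * (1 + p * (q + -3 / 2 * (harmonic (2 * k) - harmonic k)))) ∧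
      Cg p 2 ((4 / 3 : ℚ) ^ (k * p))
        ((4 / 3) ^ k * (1 + p * (k * (2 * (harmonic (2 * k) - harmonic k) + -q)))) := by
  have m12 : (1 / 2 : ℚ) ∈ Zp p := by
    have := frac_mem (p := p) h5 1 1 0
    norm_num at this; norm_num; exact this
  have m43 : (4 / 3 : ℚ) ∈ Zp p := by
    have := frac_mem (p := p) h5 4 0 1
    norm_num at this; exact this
  have hH2m := harmonic_mem (p := p) (2 * k) (by omega)
  have hH1m := harmonic_mem (p := p) k (by omega)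
  set δ := harmonic (2 * k) - harmonic k with hδ
  have hδm : δ ∈ Zp p := (Zp p).sub_mem hH2m hH1m
  have hδ2 : 1 / 2 * δ ∈ Zp p := (Zp p).mul_mem m12 hδm
  have m1 : ((-1 : ℚ)) ∈ Zp p := (Zp p).neg_mem (Zp p).one_mem
  have m1k : ((-1 : ℚ)) ^ k ∈ Zp p := (Zp p).pow_mem m1 k
  have hsq : ((-1 : ℚ) ^ k) * (-1) ^ k = 1 := by rw [← mul_pow]; norm_num
  -- w
  have hw0 : Cg p 2 ((-1) ^ k * 2 ^ (2 * k)) (1 * (1 + p * (1 / 2 * δ))) := by
    have := hH2 p k hpk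
    rwa [show (1 : ℚ) + (p : ℚ) / 2 * (harmonic (2 * k) - harmonic k)
      = 1 * (1 + p * (1 / 2 * δ)) by rw [hδ]; ring] at this
  have i2 : ((2 : ℚ) ^ (2 * k))⁻¹ ∈ Zp p := by
    rw [← inv_pow]
    exact (Zp p).pow_mem (inv_two_mem h5) _
  have hwinv : (((-1 : ℚ)) ^ k * 2 ^ (2 * k))⁻¹ = (-1) ^ k * (2 ^ (2 * k))⁻¹ := by
    rw [mul_inv]
    congr 1
    exact inv_eq_of_mul_eq_one_right hsq
  have hwim : (((-1 : ℚ)) ^ k * 2 ^ (2 * k))⁻¹ ∈ Zp p := by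
    rw [hwinv]
    exact (Zp p).mul_mem m1k i2
  have hwi := Cg.inv_exp (p := p) (by rw [inv_one]; exact (Zp p).one_mem) hδ2 one_ne_zero hw0 hwim
  rw [inv_one] at hwi
  have h64 : Cg p 2 ((1 / 64 : ℚ) ^ k) ((-1) ^ k * (1 + p * (-3 / 2 * δ))) := by
    have h1 := Cg.pow_exp (Zp p).one_mem ((Zp p).neg_mem hδ2) hwi 3
    have h2 := h1.mul_left ((-1) ^ k) m1k
    have e1 : ((-1 : ℚ)) ^ k * ((((-1 : ℚ)) ^ k * 2 ^ (2 * k))⁻¹) ^ 3 = (1 / 64) ^ k := by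
      rw [hwinv, mul_pow]
      have : ((-1 : ℚ)) ^ k * ((((-1 : ℚ)) ^ k) ^ 3 * ((2 ^ (2 * k))⁻¹) ^ 3)
        = (((-1 : ℚ) ^ k) * (-1) ^ k) * (((-1 : ℚ) ^ k) * (-1) ^ k) * ((2 ^ (2 * k))⁻¹) ^ 3 := by
        ring
      rw [this, hsq, one_mul, one_mul, pow_mul, ← inv_pow, ← pow_mul, mul_comm k 3, pow_mul]
      norm_num
    rw [e1] at h2
    refine h2.trans ?_
    have : ((-1 : ℚ)) ^ k * (1 ^ 3 * (1 + (p : ℚ) * (((3 : ℕ) : ℚ) * -(1 / 2 * δ))))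
      = (-1) ^ k * (1 + p * (-3 / 2 * δ)) := by push_cast; ring
    rw [this]
  -- q
  have h3p : ¬ p ∣ 3 := fun h => absurd (Nat.le_of_dvd (by norm_num) h) (by omega)
  have hf : ((3 : ℤ) ^ (4 * k) - 1) % p = 0 := by
    have h1 : ((3 : ℕ) : ZMod p) ≠ 0 := by
      rw [Ne, ZMod.natCast_eq_zero_iff]
      exact h3p
    have h2 := ZMod.pow_card_sub_one_eq_one h1
    rw [← Int.cast_id (n := ((3 : ℤ) ^ (4 * k) - 1) % p)]
    have h4 : (((3 : ℤ) ^ (4 * k) - 1 : ℤ) : ZMod p) = 0 := by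
      push_cast
      rw [show p - 1 = 4 * k by omega] at h2
      push_cast at h2
      rw [h2, sub_self]
    have h5 := (ZMod.intCast_zmod_eq_zero_iff_dvd _ p).1 h4
    rw [Int.cast_id]
    exact Int.emod_eq_zero_of_dvd h5
  obtain ⟨q, hq⟩ := Int.dvd_of_emod_eq_zero hf
  have hqm : (q : ℚ) ∈ Zp p := int_mem q
  have h34 : ((3 : ℚ)) ^ (4 * k) = 1 * (1 + p * q) := by
    have : ((3 : ℚ)) ^ (4 * k) - 1 = p * q := by exact_mod_cast hq
    linear_combination this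
  have h34' : Cg p 2 ((3 : ℚ) ^ (4 * k)) (1 * (1 + p * q)) := by rw [h34]
  refine ⟨q, hqm, h64, ?_, ?_⟩
  · have h1 := Cg.mul_exp (Zp p).one_mem m1k hqm ((Zp p).mul_mem (by
      have := frac_mem (p := p) h5 (-3) 1 0
      norm_num at this; norm_num; exact this : (-3 / 2 : ℚ) ∈ Zp p) hδm) h34' h64
    have h2 := h1.mul_left ((4 / 3) ^ k) ((Zp p).pow_mem m43 k)
    have e1 : ((4 / 3 : ℚ)) ^ k * (3 ^ (4 * k) * (1 / 64) ^ k) = (27 / 16) ^ k := by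
      rw [pow_mul, ← mul_pow, ← mul_pow]
      norm_num
    rw [e1] at h2
    refine h2.trans ?_
    have : ((4 / 3 : ℚ)) ^ k * (1 * (-1) ^ k * (1 + (p : ℚ) * ((q : ℚ) + -3 / 2 * δ)))
      = (4 / 3) ^ k * (-1) ^ k * (1 + (p : ℚ) * (q + -3 / 2 * δ)) := by ring
    rw [this]
  · have h1 := Cg.pow_exp (Zp p).one_mem hδ2 hw0 4
    have i3 : ((3 : ℚ) ^ (4 * k))⁻¹ ∈ Zp p := by
      rw [← inv_pow]
      exact (Zp p).pow_mem (inv_three_mem h5) _
    have h2 := Cg.inv_exp (p := p) (by rw [inv_one]; exact (Zp p).one_mem) hqm one_ne_zero h34' i3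
    rw [inv_one] at h2
    have h3 := Cg.mul_exp ((Zp p).pow_mem (Zp p).one_mem 4) (Zp p).one_mem
      ((Zp p).mul_mem (nat_mem 4) hδ2) ((Zp p).neg_mem hqm) h1 h2
    have h4 := Cg.pow_exp ((Zp p).mul_mem ((Zp p).pow_mem (Zp p).one_mem 4) (Zp p).one_mem)
      ((Zp p).add_mem ((Zp p).mul_mem (nat_mem 4) hδ2) ((Zp p).neg_mem hqm)) h3 k
    have h5' := h4.mul_left ((4 / 3) ^ k) ((Zp p).pow_mem m43 k)
    have e1 : ((4 / 3 : ℚ)) ^ k * ((((-1 : ℚ)) ^ k * 2 ^ (2 * k)) ^ 4 * (3 ^ (4 * k))⁻¹) ^ k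
        = (4 / 3) ^ (k * p) := by
      have e2 : (((-1 : ℚ)) ^ k * 2 ^ (2 * k)) ^ 4 * (3 ^ (4 * k))⁻¹ = (4 / 3) ^ (4 * k) := by
        have e3 : (((-1 : ℚ)) ^ k * 2 ^ (2 * k)) ^ 4
          = (((-1 : ℚ) ^ k) * (-1) ^ k) * (((-1 : ℚ) ^ k) * (-1) ^ k) * (2 ^ (2 * k)) ^ 4 := by
          ring
        rw [e3, hsq, one_mul, one_mul, div_pow, div_eq_mul_inv, ← pow_mul]
        congr 1
        rw [show 2 * k * 4 = 2 * (4 * k) by ring, pow_mul]
        norm_num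
      rw [e2, ← pow_mul, ← pow_add]
      congr 1
      rw [hpk]
      ring
    rw [e1] at h5'
    refine h5'.trans ?_
    have : ((4 / 3 : ℚ)) ^ k * ((1 ^ 4 * 1) ^ k
          * (1 + (p : ℚ) * ((k : ℚ) * (((4 : ℕ) : ℚ) * (1 / 2 * δ) + -(q : ℚ)))))
      = (4 / 3) ^ k * (1 + p * (k * (2 * δ + -q))) := by
      push_cast
      ring
    rw [this]

/-- the value of the main sum -/
theorem cg_value (hAff : StAff) (hEu : StEuler) (hE1 : StE1) (hE2 : StE2) (hG2 : StG2)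
    (hG1 : StG1) (hV1 : StEv1) (hV2 : StEv2) (hV3 : StEv3) (hV4 : StEv4) (hH1 : StH1)
    (hH2 : StH2) (p k : ℕ) [hp : Fact p.Prime] (hpk : p = 4 * k + 1) :
    Cg p 2 (hsum (1 / 4) (1 / 2) 1 (1 / 4) p)
      ((4 / 3) ^ (k * p) * ((-1) ^ k * (2 * k).choose k *
    (1 - (p : ℚ) / 2 * (harmonic (2 * k) - harmonic k)))) := by
  have hk : 1 ≤ k := by
    rcases Nat.eq_zero_or_pos k with h | h
    · subst h
      exact absurd hp.out (by rw [hpk]; norm_num)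
    · exact h
  have h5 : 5 ≤ p := by omega
  have hpq : (p : ℚ) = 4 * k + 1 := by rw [hpk]; push_cast; ring
  have m12 : (1 / 2 : ℚ) ∈ Zp p := by
    have := frac_mem (p := p) h5 1 1 0
    norm_num at this; norm_num; exact this
  have m14 : (1 / 4 : ℚ) ∈ Zp p := by
    have := frac_mem (p := p) h5 1 2 0
    norm_num at this; norm_num; exact this
  have m43 : (4 / 3 : ℚ) ∈ Zp p := by
    have := frac_mem (p := p) h5 4 0 1
    norm_num at this; exact this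
  have n34 : (-(3 / 4) : ℚ) ∈ Zp p := by
    have := frac_mem (p := p) h5 (-3) 2 0
    norm_num at this; norm_num; exact this
  have n32 : (-3 / 2 : ℚ) ∈ Zp p := by
    have := frac_mem (p := p) h5 (-3) 1 0
    norm_num at this; norm_num; exact this
  have hH2m := harmonic_mem (p := p) (2 * k) (by omega)
  have hH1m := harmonic_mem (p := p) k (by omega)
  obtain ⟨q, hq, h64, h27, h43⟩ := cg_powers hH2 p k hpk h5
  have v1 := hV1 p k hpk
  have v2 := hV2 p k hpk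
  have v3 := hV3 p k hpk
  have v4 := hV4 p k hpk
  have h1 := hH1 p k hpk
  have main := cg_main hAff hEu hE1 hE2 hG2 hG1 p k hpk
  set B := harmonic (2 * k) with hB
  set A := harmonic k with hA
  have hδm : B - A ∈ Zp p := (Zp p).sub_mem hH2m hH1m
  have m1k : ((-1 : ℚ)) ^ k ∈ Zp p := (Zp p).pow_mem ((Zp p).neg_mem (Zp p).one_mem) k
  have m43k : ((4 / 3 : ℚ)) ^ k ∈ Zp p := (Zp p).pow_mem m43 k
  have hsq : ((-1 : ℚ) ^ k) * (-1) ^ k = 1 := by rw [← mul_pow]; norm_num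
  set c : ℚ := ((2 * k).choose k : ℚ) with hc
  have hcm : c ∈ Zp p := nat_mem _
  set u : ℚ := (4 / 3) ^ k * (-1) ^ k with hu
  have hum : u ∈ Zp p := (Zp p).mul_mem m43k m1k
  have huc : u * c ∈ Zp p := (Zp p).mul_mem hum hcm
  have hx27 : q + -3 / 2 * (B - A) ∈ Zp p := (Zp p).add_mem hq ((Zp p).mul_mem n32 hδm)
  have hx64 : -3 / 2 * (B - A) ∈ Zp p := (Zp p).mul_mem n32 hδm
  have h27c : Cg p 2 ((27 / 16 : ℚ) ^ k * c) (u * c * (1 + p * (q + -3 / 2 * (B - A)))) := by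
    have := h27.mul_right c hcm
    rwa [show u * (1 + (p : ℚ) * (q + -3 / 2 * (B - A))) * c
      = u * c * (1 + p * (q + -3 / 2 * (B - A))) by ring] at this
  -- E1
  have t1 : Cg p 2 ((27 / 16 : ℚ) ^ k * c / (4 * k).choose (2 * k))
      (u * c * (1 + p * (q + -3 / 2 * (B - A) + B))) := by
    have v1' : Cg p 2 (((4 * k).choose (2 * k) : ℚ))⁻¹ (1 * (1 + p * B)) := by
      rw [one_mul]; exact v1
    have := Cg.mul_exp huc (Zp p).one_mem hx27 hH2m h27c v1'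
    rwa [mul_one, ← div_eq_mul_inv] at this
  -- E2
  have t2 : Cg p 2 ((27 / 16 : ℚ) ^ k * c *
        ∏ j ∈ range k, ((2 * (j + 1) : ℚ) / (4 * k + 1 + 2 * (j + 1))))
      (u * c * (1 + p * (q + -3 / 2 * (B - A) + -(1 / 2 * A)))) := by
    have v2' : Cg p 2 (∏ j ∈ range k, ((2 * (j + 1) : ℚ) / (4 * k + 1 + 2 * (j + 1))))
        (1 * (1 + p * (-(1 / 2 * A)))) := by
      rw [show 1 * (1 + (p : ℚ) * (-(1 / 2 * A))) = 1 - (p : ℚ) / 2 * A by ring]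
      exact v2
    have := Cg.mul_exp huc (Zp p).one_mem hx27 ((Zp p).neg_mem ((Zp p).mul_mem m12 hH1m)) h27c v2'
    rwa [mul_one] at this
  -- G2
  have t3 : Cg p 2 ((4 / 3 : ℚ) ^ k * (c / (4 * k).choose k)) (u * c * (1 + p * A)) := by
    have := v3.mul_left ((4 / 3) ^ k * c) ((Zp p).mul_mem m43k hcm)
    rwa [show ((4 / 3 : ℚ)) ^ k * c * (((4 * k).choose k : ℚ))⁻¹
        = (4 / 3 : ℚ) ^ k * (c / (4 * k).choose k) by rw [div_eq_mul_inv]; ring,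
      show ((4 / 3 : ℚ)) ^ k * c * ((-1) ^ k * (1 + (p : ℚ) * A)) = u * c * (1 + p * A) by
        rw [hu]; ring] at this
  -- G1
  have hx4 : -(1 / 2 * B) - A ∈ Zp p :=
    (Zp p).sub_mem ((Zp p).neg_mem ((Zp p).mul_mem m12 hH2m)) hH1m
  have t4 : Cg p 2 ((4 / 3 : ℚ) ^ k *
        ∏ i ∈ range (3 * k), ((4 * i + 5 : ℚ) * (4 * i + 7) / (4 * (2 * i + 3) ^ 2)))
      (u * c * (1 + p * (-3 / 2 * (B - A) + (-(1 / 2 * B) - A)))) := by
    have v4' : Cg p 2 (∏ i ∈ range (3 * k), ((4 * i + 5 : ℚ) * (4 * i + 7) / (4 * (2 * i + 3) ^ 2)))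
        ((1 / 64) ^ k * (c * (1 + p * (-(1 / 2 * B) - A)))) := by
      rw [show ((1 / 64 : ℚ)) ^ k * (c * (1 + (p : ℚ) * (-(1 / 2 * B) - A)))
        = (1 / 64) ^ k * c * (1 - (p : ℚ) / 2 * B - p * A) by ring]
      exact v4
    have w1 := Cg.mul_exp m1k hcm hx64 hx4 h64
      (Cg.refl (p := p) (n := 2) (c * (1 + (p : ℚ) * (-(1 / 2 * B) - A))))
    have w2 := (v4'.trans w1).mul_left _ m43k
    rwa [show ((4 / 3 : ℚ)) ^ k * ((-1) ^ k * c
        * (1 + (p : ℚ) * (-3 / 2 * (B - A) + (-(1 / 2 * B) - A))))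
        = u * c * (1 + p * (-3 / 2 * (B - A) + (-(1 / 2 * B) - A))) by rw [hu]; ring] at w2
  have tot := (((t1.mul_left (-(3 / 4)) n34).add t2).add t3).sub (t4.mul_left (1 / 4) m14)
  have s1 := main.trans tot
  have e1 : -(3 / 4) * (u * c * (1 + (p : ℚ) * (q + -3 / 2 * (B - A) + B)))
      + u * c * (1 + (p : ℚ) * (q + -3 / 2 * (B - A) + -(1 / 2 * A)))
      + u * c * (1 + (p : ℚ) * A)
      - 1 / 4 * (u * c * (1 + (p : ℚ) * (-3 / 2 * (B - A) + (-(1 / 2 * B) - A))))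
      = u * c * (1 + p * (1 / 4 * q + 3 / 4 * A - 5 / 8 * B)) := by ring
  rw [e1] at s1
  -- the right side
  have hk4 : Cg p 1 (k : ℚ) (-(1 / 4)) := ⟨1 / 4, m14, by rw [hpq]; ring⟩
  have s3 := Cg.mul_exp (X := (4 / 3) ^ (k * p)) (Y := (-1) ^ k * c * (1 + p * (-(1 / 2 * (B - A)))))
    m43k ((Zp p).mul_mem m1k hcm)
    ((Zp p).mul_mem (nat_mem k) ((Zp p).add_mem ((Zp p).mul_mem (nat_mem 2) hδm)
      ((Zp p).neg_mem hq)))
    ((Zp p).neg_mem ((Zp p).mul_mem m12 hδm)) h43 (Cg.refl _)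
  have hfin : Cg p 1 (1 / 4 * q + 3 / 4 * A - 5 / 8 * B)
      (k * (((2 : ℕ) : ℚ) * (B - A) + -q) + -(1 / 2 * (B - A))) := by
    have w1 := hk4.symm.mul_right (((2 : ℕ) : ℚ) * (B - A) + -q)
      ((Zp p).add_mem ((Zp p).mul_mem (nat_mem 2) hδm) ((Zp p).neg_mem hq))
    have w2 := w1.add (Cg.refl (p := p) (n := 1) (-(1 / 2 * (B - A))))
    refine Cg.trans ?_ w2
    have e2 : -(1 / 4) * (((2 : ℕ) : ℚ) * (B - A) + -q) + -(1 / 2 * (B - A))
      = 1 / 4 * q + (A - B) := by push_cast; ring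
    rw [e2]
    have w8 := (h1.sub (Cg.refl (p := p) (n := 1) (2 * A))).mul_left (1 / 8) (by
      have := frac_mem (p := p) h5 1 3 0
      norm_num at this; norm_num; exact this)
    have w9 := w8.add (Cg.refl (p := p) (n := 1) (1 / 4 * q + (A - B)))
    rw [show (1 / 8 : ℚ) * (3 * B - 2 * A) + (1 / 4 * q + (A - B))
        = 1 / 4 * q + 3 / 4 * A - 5 / 8 * B by ring,
      show (1 / 8 : ℚ) * (2 * A - 2 * A) + (1 / 4 * q + (A - B)) = 1 / 4 * q + (A - B) by ring]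
      at w9
    exact w9
  have s4 := Cg.congr_exp huc s1 hfin
  refine s4.trans ?_
  refine Cg.symm ?_
  rw [show ((4 / 3 : ℚ)) ^ (k * p) * ((-1) ^ k * c * (1 - (p : ℚ) / 2 * (B - A)))
    = (4 / 3) ^ (k * p) * ((-1) ^ k * c * (1 + (p : ℚ) * (-(1 / 2 * (B - A))))) by ring]
  rw [show u * c * (1 + (p : ℚ) * (k * (((2 : ℕ) : ℚ) * (B - A) + -q) + -(1 / 2 * (B - A))))
    = (4 / 3) ^ k * ((-1) ^ k * c)
      * (1 + (p : ℚ) * (k * (2 * (B - A) + -q) + -(1 / 2 * (B - A)))) by rw [hu]; push_cast; ring]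
  exact s3

/-- the value of `Z_p(-16)` modulo `p ^ 2` for `p = 4 k + 1` -/
theorem cg_Z (hA1 : StA1) (hA2 : StA2) (hAff : StAff) (hEu : StEuler) (hE1 : StE1) (hE2 : StE2)
    (hG2 : StG2) (hG1 : StG1) (hV1 : StEv1) (hV2 : StEv2) (hV3 : StEv3) (hV4 : StEv4)
    (hH1 : StH1) (hH2 : StH2) (hJ : StJ) (hQ : StQ) (p k : ℕ) [hp : Fact p.Prime]
    (hpk : p = 4 * k + 1) :
    ∃ α β : ℤ, α ^ 2 + β ^ 2 = p ∧ α % 2 = 1 ∧ Cg p 2 (Zs p) (V p α β : ℚ) := by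
  obtain ⟨α, β, h1, h2, h3⟩ := hQ p k hpk
  refine ⟨α, β, h1, h2, ?_⟩
  refine Cg.trans ?_ h3
  have hk : 1 ≤ k := by
    rcases Nat.eq_zero_or_pos k with h | h
    · subst h
      exact absurd hp.out (by rw [hpk]; norm_num)
    · exact h
  have h5 : 5 ≤ p := by omega
  have m12 : (1 / 2 : ℚ) ∈ Zp p := by
    have := frac_mem (p := p) h5 1 1 0
    norm_num at this; norm_num; exact this
  have m43 : (4 / 3 : ℚ) ∈ Zp p := by
    have := frac_mem (p := p) h5 4 0 1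
    norm_num at this; exact this
  have m1k : ((-1 : ℚ)) ^ k ∈ Zp p := (Zp p).pow_mem ((Zp p).neg_mem (Zp p).one_mem) k
  have hH2m := harmonic_mem (p := p) (2 * k) (by omega)
  have hH1m := harmonic_mem (p := p) k (by omega)
  set Y : ℚ := (2 * k).choose k * (1 - (p : ℚ) / 2 * (harmonic (2 * k) - harmonic k)) with hY
  have hYm : Y ∈ Zp p := by
    refine (Zp p).mul_mem (nat_mem _) ((Zp p).sub_mem (Zp p).one_mem ?_)
    rw [div_eq_mul_inv]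
    exact (Zp p).mul_mem ((Zp p).mul_mem (nat_mem p) (inv_two_mem h5))
      ((Zp p).sub_mem hH2m hH1m)
  have hv := cg_value hAff hEu hE1 hE2 hG2 hG1 hV1 hV2 hV3 hV4 hH1 hH2 p k hpk
  have ht := hA2 p k hpk
  have hj := hJ p k hpk
  rw [show (-1 : ℚ) ^ k * (2 * k).choose k *
    (1 - (p : ℚ) / 2 * (harmonic (2 * k) - harmonic k)) = (-1) ^ k * Y by rw [hY]; ring] at ht hv
  have hXm : (-1 : ℚ) ^ k * Y ∈ Zp p := (Zp p).mul_mem m1k hYm
  have hRm : (4 / 3 : ℚ) ^ (k * p) * ((-1) ^ k * Y) ∈ Zp p :=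
    (Zp p).mul_mem ((Zp p).pow_mem m43 _) hXm
  have s1 := (hA1 p h5).trans (ht.mul hv hXm (hv.mem_iff.2 hRm))
  refine s1.trans ?_
  have s2 := (hj.pow ((Zp p).neg_mem hYm) 2).mul_left ((4 / 3) ^ (k * p))
    ((Zp p).pow_mem m43 _)
  refine Cg.trans ?_ s2.symm
  have hsq : ((-1 : ℚ) ^ k) * (-1) ^ k = 1 := by rw [← mul_pow]; norm_num
  have : (-1 : ℚ) ^ k * Y * ((4 / 3) ^ (k * p) * ((-1) ^ k * Y))
    = (4 / 3) ^ (k * p) * (-Y) ^ 2 := by
    linear_combination ((4 / 3 : ℚ) ^ (k * p) * Y ^ 2) * hsq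
  rw [this]

end MPb66c90
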