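import Pool.Agent.Lib.MP_b66c90_nt.Franel

/-!
The sum vanishes modulo `p` when `p = 3` modulo `4`.
-/

open Finset

namespace MPb66c90

lemma central_modp {p h : ℕ} [Fact p.Prime] (hp : p = 2 * h + 1) (n : ℕ) (hn : n < p) :
    (((2 * n).choose n : ℕ) : ZMod p) = (-4) ^ n * (h.choose n : ZMod p) := by
  induction n with
  | zero => simp
  | succ n ih =>
    have ih' := ih (by omega)
    have hne : ((n : ZMod p) + 1) ≠ 0 := by
      have h0 : ((n + 1 : ℕ) : ZMod p) ≠ 0 := by
        rw [Ne, ZMod.natCast_eq_zero_iff]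
        intro hd
        have := Nat.le_of_dvd (by omega) hd
        omega
      push_cast at h0
      exact h0
    have h1 := Nat.succ_mul_centralBinom_succ n
    rw [Nat.centralBinom_eq_two_mul_choose, Nat.centralBinom_eq_two_mul_choose] at h1
    have h1' : ((n : ZMod p) + 1) * (((2 * (n + 1)).choose (n + 1) : ℕ) : ZMod p)
        = 2 * (2 * n + 1) * (((2 * n).choose n : ℕ) : ZMod p) := by
      exact_mod_cast congrArg (Nat.cast (R := ZMod p)) h1
    have h2 : ((h.choose (n + 1) : ℕ) : ZMod p) * ((n : ZMod p) + 1)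
        = ((h.choose n : ℕ) : ZMod p) * ((h : ZMod p) - n) := by
      rcases Nat.lt_or_ge h n with hlt | hge
      · rw [Nat.choose_eq_zero_of_lt hlt, Nat.choose_eq_zero_of_lt (show h < n + 1 by omega)]
        simp
      · have h3 := Nat.choose_succ_right_eq h n
        have h4 : (((h.choose (n + 1) * (n + 1) : ℕ)) : ZMod p)
            = ((h.choose n * (h - n) : ℕ) : ZMod p) := by rw [h3]
        rw [Nat.cast_mul, Nat.cast_mul, Nat.cast_sub hge] at h4
        push_cast at h4
        exact h4
    have hh : 2 * (h : ZMod p) + 1 = 0 := by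
      have : ((2 * h + 1 : ℕ) : ZMod p) = 0 := by
        rw [← hp]
        exact ZMod.natCast_self p
      push_cast at this
      exact this
    apply mul_left_cancel₀ hne
    rw [h1', ih']
    have : ((n : ZMod p) + 1) * ((-4) ^ (n + 1) * ((h.choose (n + 1) : ℕ) : ZMod p))
        = (-4) ^ (n + 1) * (((h.choose (n + 1) : ℕ) : ZMod p) * ((n : ZMod p) + 1)) := by ring
    rw [this, h2, pow_succ]
    linear_combination ((-4) ^ n * ((h.choose n : ℕ) : ZMod p) * 2) * hh

/-- modulo `p` the sum is the binomial transform of the Franel numbers -/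
lemma W_modp_eq {p h : ℕ} [Fact p.Prime] (hp : p = 2 * h + 1) (z : ZMod p) :
    ∑ n ∈ range p, (((2 * n).choose n : ℕ) : ZMod p) * (franel n : ZMod p) * z ^ n
      = ∑ n ∈ range (h + 1), (h.choose n : ZMod p) * (franel n : ZMod p) * (-4 * z) ^ n := by
  have h1 : ∀ n ∈ range p, (((2 * n).choose n : ℕ) : ZMod p) * (franel n : ZMod p) * z ^ n
      = (h.choose n : ZMod p) * (franel n : ZMod p) * (-4 * z) ^ n := by
    intro n hn
    rw [mem_range] at hn
    rw [central_modp hp n hn, mul_pow]
    ring
  rw [Finset.sum_congr rfl h1]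
  symm
  apply Finset.sum_subset
  · intro x hx
    simp only [mem_range] at hx ⊢
    omega
  · intro x _ hx
    simp only [mem_range, not_lt] at hx
    rw [Nat.choose_eq_zero_of_lt (show h < x by omega)]
    simp

/-- for `p = 3` modulo `4` the sum vanishes modulo `p` -/
theorem W_modp_zero {p : ℕ} [Fact p.Prime] (h4 : p % 4 = 3) (z : ZMod p) (hz : -16 * z = 1) :
    ∑ n ∈ range p, (((2 * n).choose n : ℕ) : ZMod p) * (franel n : ZMod p) * z ^ n = 0 := by
  obtain ⟨h, hp⟩ : ∃ h, p = 2 * h + 1 := ⟨p / 2, by omega⟩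
  have hodd : h % 2 = 1 := by omega
  rw [W_modp_eq hp z, franel_transform]
  set y : ZMod p := -4 * z with hy
  set T : ZMod p := ∑ k ∈ range (h + 1), (-1) ^ k * (h.choose k : ZMod p) ^ 2
    * ∑ j ∈ range (h + 1), ((h - k).choose j : ZMod p) * (k.choose j : ZMod p) * y ^ j with hT
  have h1 : ∑ k ∈ range (h + 1), (h.choose k : ZMod p) * (((2 * k).choose k : ℕ) : ZMod p) * y ^ k
          * ∑ j ∈ range (h + 1), ((h - k).choose j : ZMod p) * (k.choose j : ZMod p) * y ^ j = T := by
    rw [hT]
    apply Finset.sum_congr rfl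
    intro k hk
    rw [mem_range] at hk
    have e : (-4 : ZMod p) ^ k * y ^ k = (-1) ^ k := by
      rw [← mul_pow, hy]
      congr 1
      linear_combination (-1 : ZMod p) * hz
    rw [central_modp hp k (by omega), ← e]
    ring
  rw [h1]
  have h2 : T = -T := by
    conv_lhs => rw [hT, ← Finset.sum_range_reflect]
    rw [hT, ← Finset.sum_neg_distrib]
    apply Finset.sum_congr rfl
    intro k hk
    rw [mem_range] at hk
    rw [show h + 1 - 1 - k = h - k by omega, Nat.choose_symm (show k ≤ h by omega),
      show h - (h - k) = k by omega]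
    have e : (-1 : ZMod p) ^ (h - k) = -(-1) ^ k := by
      rcases Nat.even_or_odd k with hk2 | hk2
      · have : Odd (h - k) := by
          rw [Nat.even_iff] at hk2
          rw [Nat.odd_iff]
          omega
        rw [this.neg_one_pow, hk2.neg_one_pow]
      · have : Even (h - k) := by
          rw [Nat.odd_iff] at hk2
          rw [Nat.even_iff]
          omega
        rw [this.neg_one_pow, hk2.neg_one_pow]
        ring
    rw [e]
    have e2 : ∑ j ∈ range (h + 1), (k.choose j : ZMod p) * ((h - k).choose j : ZMod p) * y ^ j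
        = ∑ j ∈ range (h + 1), ((h - k).choose j : ZMod p) * (k.choose j : ZMod p) * y ^ j := by
      apply Finset.sum_congr rfl
      intro j _
      ring
    rw [e2]
    ring
  have h3 : (2 : ZMod p) * T = 0 := by linear_combination h2
  have h4' : (2 : ZMod p) ≠ 0 := by
    have h0 : ((2 : ℕ) : ZMod p) ≠ 0 := by
      rw [Ne, ZMod.natCast_eq_zero_iff]
      intro hd
      have := Nat.le_of_dvd (by omega) hd
      omega
    exact_mod_cast h0
  exact (mul_eq_zero.mp h3).resolve_left h4'

end MPb66c90
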