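import Pool.Agent.Lib.MP_b66c90_nt.SpecQ

/-!
# A quartic character and a compatible ring homomorphism
-/

namespace MPb66c90

open Finset

/-- the unit `i` of the Gaussian integers -/
private def qaI : GaussianIntˣ where
  val := ⟨0, 1⟩
  inv := ⟨0, -1⟩
  val_inv := by decide
  inv_val := by decide

private theorem qaI_pow_four : qaI ^ 4 = 1 := by
  ext <;> decide

private theorem qaI_sq_ne : (qaI : GaussianInt) ^ 2 ≠ 1 := by decide

private theorem qa_pow_eq {p : ℕ} (a b : ℤ) (h : (p : ℤ) ∣ a - b) :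
    (a : ZMod (p ^ 2)) ^ p = (b : ZMod (p ^ 2)) ^ p := by
  have h1 := dvd_sub_pow_of_dvd_sub (R := ℤ) h 1
  rw [pow_one] at h1
  have h2 : ((b ^ p : ℤ) : ZMod (p ^ 2)) = ((a ^ p : ℤ) : ZMod (p ^ 2)) := by
    rw [ZMod.intCast_eq_intCast_iff_dvd_sub]
    have : ((p ^ 2 : ℕ) : ℤ) = (p : ℤ) ^ (1 + 1) := by push_cast; ring
    rw [this]
    exact h1
  push_cast at h2
  exact h2.symm

theorem stQa : StQa := by
  intro p k hp hpk
  have hp' : p.Prime := hp.out
  have hk : 1 ≤ k := by
    rcases Nat.eq_zero_or_pos k with h | h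
    · subst h
      exact absurd hp' (by rw [hpk]; norm_num)
    · exact h
  obtain ⟨g, hg⟩ := IsCyclic.exists_generator (α := (ZMod p)ˣ)
  have hcard : Fintype.card (ZMod p)ˣ = 4 * k := by
    rw [ZMod.card_units, hpk]
    omega
  have hζ : qaI ∈ rootsOfUnity (Fintype.card (ZMod p)ˣ) GaussianInt := by
    rw [mem_rootsOfUnity, hcard, pow_mul, qaI_pow_four, one_pow]
  set χ : MulChar (ZMod p) GaussianInt := MulChar.ofRootOfUnity hζ hg with hχ
  have hχg : χ (g : ZMod p) = (qaI : GaussianInt) := MulChar.ofRootOfUnity_spec hζ hg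
  -- the integer representing `g`
  set c : ℤ := ((g : ZMod p).val : ℤ) with hc
  have hcg : ((c : ℤ) : ZMod p) = (g : ZMod p) := by
    rw [hc, Int.cast_natCast, ZMod.natCast_zmod_val]
  have hord : orderOf g = 4 * k := by
    rw [orderOf_eq_card_of_forall_mem_zpowers hg, Nat.card_eq_fintype_card, hcard]
  have hg2 : (g : ZMod p) ^ (2 * k) = -1 := by
    have h1 : ((g : ZMod p) ^ (2 * k)) ^ 2 = 1 := by
      rw [← pow_mul]
      have h2 : g ^ (2 * k * 2) = 1 := by
        rw [show 2 * k * 2 = 4 * k by ring, ← hord, pow_orderOf_eq_one]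
      have h3 := congrArg (Units.val) h2
      rw [Units.val_pow_eq_pow_val] at h3
      exact h3
    rcases mul_self_eq_one_iff.1 ((sq _).symm.trans h1) with h | h
    · exfalso
      have h2 : g ^ (2 * k) = 1 := by
        ext
        rw [Units.val_pow_eq_pow_val]
        exact h
      have h3 := orderOf_dvd_of_pow_eq_one h2
      rw [hord] at h3
      have h4 := Nat.le_of_dvd (by omega) h3
      omega
    · exact h
  have hodd : Odd p := ⟨2 * k, by omega⟩
  have hu : (c : ZMod (p ^ 2)) ^ (2 * k * p) = -1 := by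
    have h1 : (p : ℤ) ∣ c ^ (2 * k) - (-1) := by
      rw [← ZMod.intCast_zmod_eq_zero_iff_dvd]
      push_cast
      rw [hcg, hg2]
      ring
    have h2 := qa_pow_eq (c ^ (2 * k)) (-1) h1
    push_cast at h2
    rw [pow_mul, h2, hodd.neg_one_pow]
  set ι : ZMod (p ^ 2) := (c : ZMod (p ^ 2)) ^ (3 * k * p) with hι
  have hι2 : ι * ι = ((-1 : ℤ) : ZMod (p ^ 2)) := by
    have : ι * ι = ((c : ZMod (p ^ 2)) ^ (2 * k * p)) ^ 3 := by
      rw [hι, ← pow_add, ← pow_mul]
      congr 1
      ring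
    rw [this, hu]
    push_cast
    ring
  let φ : GaussianInt →+* ZMod (p ^ 2) := Zsqrtd.lift ⟨ι, hι2⟩
  have hφ : φ (qaI : GaussianInt) = ι := by
    change Zsqrtd.lift ⟨ι, hι2⟩ (⟨0, 1⟩ : ℤ√(-1)) = ι
    rw [Zsqrtd.lift_apply_apply]
    simp
  refine ⟨χ, φ, ?_, fun x => ?_⟩
  · have h4 : χ ^ 4 = 1 := by
      refine MulChar.ext fun x => ?_
      obtain ⟨n, rfl⟩ := (mem_powers_iff_mem_zpowers.2 (hg x) : x ∈ Submonoid.powers g)
      rw [MulChar.pow_apply_coe, MulChar.one_apply_coe]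
      simp only [Units.val_pow_eq_pow_val, map_pow, hχg]
      rw [← pow_mul, mul_comm, pow_mul]
      have : (qaI : GaussianInt) ^ 4 = 1 := by decide
      rw [this, one_pow]
    have h2 : ¬ χ ^ 2 = 1 := by
      intro h
      have h1 := DFunLike.congr_fun h (g : ZMod p)
      rw [MulChar.pow_apply_coe, MulChar.one_apply_coe, hχg] at h1
      exact qaI_sq_ne h1
    exact orderOf_eq_prime_pow (p := 2) (n := 1) (by simpa using h2) (by simpa using h4)
  · by_cases hx : (x : ZMod p) = 0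
    · rw [hx, MulChar.map_zero, map_zero]
      rw [ZMod.natCast_eq_zero_iff] at hx
      obtain ⟨m, rfl⟩ := hx
      symm
      have h2 : 2 ≤ 3 * k * p := by
        have := hp'.two_le
        nlinarith
      obtain ⟨n, hn⟩ := Nat.exists_eq_add_of_le h2
      rw [hn, pow_add]
      have : ((p * m : ℕ) : ZMod (p ^ 2)) ^ 2 = 0 := by
        have h3 : ((p * m : ℕ) : ZMod (p ^ 2)) ^ 2 = ((p ^ 2 : ℕ) : ZMod (p ^ 2)) * (m : ZMod (p ^ 2)) ^ 2 := by
          push_cast; ring
        rw [h3, ZMod.natCast_self, zero_mul]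
      rw [this, zero_mul]
    · obtain ⟨n, hn⟩ := (mem_powers_iff_mem_zpowers.2 (hg (Units.mk0 (x : ZMod p) hx)))
      have hn' : (x : ZMod p) = (g : ZMod p) ^ n := by
        have := congrArg Units.val hn
        simp only [Units.val_pow_eq_pow_val, Units.val_mk0] at this
        exact this.symm
      rw [hn', map_pow, hχg, map_pow, hφ, hι]
      have h1 : (p : ℤ) ∣ (x : ℤ) - c ^ n := by
        rw [← ZMod.intCast_zmod_eq_zero_iff_dvd]
        push_cast
        rw [hcg, hn']
        ring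
      have h2 := qa_pow_eq (x : ℤ) (c ^ n) h1
      push_cast at h2
      rw [mul_comm (3 * k) p, pow_mul ((x : ZMod (p ^ 2))) p, h2, ← pow_mul, ← pow_mul, ← pow_mul]
      congr 1
      ring

end MPb66c90
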