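import Pool.Agent.Lib.MP_b66c90_nt.SpecQ

/-!
# The quartic character of `3` through Gauss sums in characteristic `3`
-/

namespace MPb66c90

open AddChar

private theorem qb_sq_zero : ∀ a b : ZMod 3, a * a + b * b = 0 → a = 0 ∧ b = 0 := by decide

/-- The kernel of a ring homomorphism of the Gaussian integers to a field of characteristic `3`. -/
private theorem qb_ker {K : Type} [Field K] [CharP K 3] (θ : GaussianInt →+* K) (z : GaussianInt)
    (hz : θ z = 0) : (3 : GaussianInt) ∣ z := by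
  have h1 : θ (z * star z) = 0 := by rw [map_mul, hz, zero_mul]
  have h2 : z * star z = ((z.norm : ℤ) : GaussianInt) := (Zsqrtd.norm_eq_mul_conj z).symm
  rw [h2, map_intCast, CharP.intCast_eq_zero_iff K 3] at h1
  have h3 : z.norm = z.re * z.re + z.im * z.im := by
    rw [Zsqrtd.norm_def]
    ring
  rw [h3] at h1
  have h4 : ((z.re * z.re + z.im * z.im : ℤ) : ZMod 3) = 0 :=
    (ZMod.intCast_zmod_eq_zero_iff_dvd _ 3).mpr h1
  push_cast at h4
  obtain ⟨ha, hb⟩ := qb_sq_zero _ _ h4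
  have h5 : ((3 : ℤ) : GaussianInt) ∣ z :=
    (Zsqrtd.intCast_dvd 3 z).mpr ⟨(ZMod.intCast_zmod_eq_zero_iff_dvd _ 3).mp ha,
      (ZMod.intCast_zmod_eq_zero_iff_dvd _ 3).mp hb⟩
  exact_mod_cast h5

/-- The Gauss sum computation. -/
private theorem qb_gauss {K : Type} [Field K] [CharP K 3] (p : ℕ) [Fact p.Prime] (hp3 : p ≠ 3)
    (hpK : (p : K) ≠ 0) (χ : MulChar (ZMod p) K) (h4 : χ ^ 4 = 1) (h2 : χ ^ 2 ≠ 1)
    (ψ : AddChar (ZMod p) K) (hψ : ψ.IsPrimitive) :
    jacobiSum χ χ ^ 2 = χ 3 * χ (-1) := by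
  have : Fact (Nat.Prime 3) := ⟨Nat.prime_three⟩
  have h1 : χ ≠ 1 := by
    rintro rfl
    exact h2 (one_pow _)
  have hcard : (Fintype.card (ZMod p) : K) = p := by rw [ZMod.card]
  have hneg : χ (-1) ^ 2 = 1 := by
    rw [← map_pow]
    simp
  have inv1 : χ⁻¹ = χ ^ 3 := by
    refine inv_eq_of_mul_eq_one_right ?_
    rw [← pow_succ', h4]
  have inv3 : (χ ^ 3)⁻¹ = χ := by
    rw [← inv1, inv_inv]
  have inv2 : (χ ^ 2)⁻¹ = χ ^ 2 := by
    refine inv_eq_of_mul_eq_one_right ?_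
    rw [← pow_add, h4]
  have e1 : gaussSum (χ ^ 2) ψ * jacobiSum χ χ = gaussSum χ ψ * gaussSum χ ψ := by
    have := jacobiSum_mul_nontrivial (χ := χ) (φ := χ) (by rwa [← sq]) ψ
    rwa [← sq] at this
  have e2 : gaussSum (χ ^ 2) ψ * gaussSum (χ ^ 2) ψ = p := by
    have h := gaussSum_mul_gaussSum_eq_card h2 hψ
    have h' := mul_gaussSum_inv_eq_gaussSum (χ ^ 2) ψ
    rw [inv2, hcard] at h
    have hn : (χ ^ 2) (-1) = 1 := by
      rw [MulChar.pow_apply' χ two_ne_zero, hneg]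
    rw [hn, one_mul] at h'
    rwa [h'] at h
  have hu : IsUnit (3 : ZMod p) := by
    have : (3 : ZMod p) ≠ 0 := by
      intro h
      have h' : ((3 : ℕ) : ZMod p) = 0 := by exact_mod_cast h
      rw [ZMod.natCast_eq_zero_iff] at h'
      exact hp3 ((Nat.prime_dvd_prime_iff_eq Fact.out Nat.prime_three).mp h')
    exact this.isUnit
  have e3 : gaussSum χ ψ ^ 3 = χ 3 * gaussSum (χ ^ 3) ψ := by
    rw [gaussSum_frob 3 χ ψ, pow_mulShift]
    have := gaussSum_mulShift_eq (χ ^ 3) ψ hu.unit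
    rw [hu.unit_spec, inv3] at this
    exact_mod_cast this
  have e4 : gaussSum χ ψ * gaussSum (χ ^ 3) ψ = χ (-1) * p := by
    have h := gaussSum_mul_gaussSum_eq_card h1 hψ
    rw [inv1, hcard] at h
    have h' := mul_gaussSum_inv_eq_gaussSum (χ ^ 3) ψ
    have hn : (χ ^ 3) (-1) = χ (-1) := by
      rw [MulChar.pow_apply' χ three_ne_zero, pow_succ, hneg, one_mul]
    rw [hn] at h'
    rw [← h', ← h]
    ring
  have e5 : jacobiSum χ χ ^ 2 * p = χ 3 * χ (-1) * p := by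
    rw [← e2]
    calc jacobiSum χ χ ^ 2 * (gaussSum (χ ^ 2) ψ * gaussSum (χ ^ 2) ψ)
        = (gaussSum (χ ^ 2) ψ * jacobiSum χ χ) ^ 2 := by ring
      _ = gaussSum χ ψ * gaussSum χ ψ ^ 3 := by rw [e1]; ring
      _ = χ 3 * (gaussSum χ ψ * gaussSum (χ ^ 3) ψ) := by rw [e3]; ring
      _ = χ 3 * χ (-1) * (gaussSum (χ ^ 2) ψ * gaussSum (χ ^ 2) ψ) := by rw [e4, e2]; ring
  exact mul_right_cancel₀ hpK e5

theorem stQb : StQb := by
  intro p _ χ hp3 hχ
  have : Fact (Nat.Prime 3) := ⟨Nat.prime_three⟩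
  have : CharP (AlgebraicClosure (ZMod 3)) 3 :=
    charP_of_injective_algebraMap (algebraMap (ZMod 3) (AlgebraicClosure (ZMod 3))).injective 3
  obtain ⟨i, hi⟩ := IsAlgClosed.exists_pow_nat_eq (-1 : AlgebraicClosure (ZMod 3)) (n := 2)
    (by norm_num)
  let θ : GaussianInt →+* AlgebraicClosure (ZMod 3) := Zsqrtd.lift ⟨i, by rw [← sq, hi]; simp⟩
  have hpK : ((p : ℕ) : AlgebraicClosure (ZMod 3)) ≠ 0 := by
    rw [Ne, CharP.cast_eq_zero_iff (AlgebraicClosure (ZMod 3)) 3]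
    intro h
    exact hp3 ((Nat.prime_dvd_prime_iff_eq Nat.prime_three Fact.out).mp h).symm
  have : NeZero ((p : ℕ) : AlgebraicClosure (ZMod 3)) := ⟨hpK⟩
  obtain ⟨ζ, hζ⟩ := HasEnoughRootsOfUnity.exists_primitiveRoot (AlgebraicClosure (ZMod 3)) p
  have h4 : χ ^ 4 = 1 := by rw [← hχ, pow_orderOf_eq_one]
  have h2 : χ ^ 2 ≠ 1 := by
    intro h
    have := orderOf_dvd_of_pow_eq_one h
    rw [hχ] at this
    exact absurd this (by norm_num)
  have h4' : (χ.ringHomComp θ) ^ 4 = 1 := by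
    rw [MulChar.ringHomComp_pow, h4, MulChar.ringHomComp_one]
  have h2' : (χ.ringHomComp θ) ^ 2 ≠ 1 := by
    intro h
    obtain ⟨a, ha⟩ := MulChar.ne_one_iff.mp h2
    have h5 : (χ ^ 2) a * (χ ^ 2) a = 1 := by
      rw [← MulChar.mul_apply, ← pow_add, h4, MulChar.one_apply_coe]
    have h6 : (χ ^ 2) a = -1 := by
      rcases mul_self_eq_one_iff.mp h5 with h | h
      · exact absurd h ha
      · exact h
    have h7 : θ ((χ ^ 2) a) = 1 := by
      rw [← MulChar.ringHomComp_apply, ← MulChar.ringHomComp_pow, h, MulChar.one_apply_coe]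
    rw [h6, map_neg, map_one] at h7
    have h8 : ((2 : ℕ) : AlgebraicClosure (ZMod 3)) = 0 := by
      push_cast
      linear_combination -h7
    rw [CharP.cast_eq_zero_iff (AlgebraicClosure (ZMod 3)) 3] at h8
    exact absurd h8 (by norm_num)
  have key := qb_gauss p hp3 hpK (χ.ringHomComp θ) h4' h2' _
    (zmodChar_primitive_of_primitive_root p hζ)
  rw [jacobiSum_ringHomComp, MulChar.ringHomComp_apply, MulChar.ringHomComp_apply] at key
  apply qb_ker θ
  rw [map_sub, map_mul, map_pow, key, sub_self]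

end MPb66c90
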