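import Pool.Agent.Lib.MP_b66c90_nt.SpecQ

/-!
# The Jacobi sum of a quartic character: norm, parity and the value at `4`
-/

namespace MPb66c90

open Finset

private lemma qc_mod {p : ℕ} [Fact p.Prime] {χ : MulChar (ZMod p) GaussianInt}
    (h4 : orderOf χ = 4) : p % 4 = 1 := by
  have h := χ.orderOf_dvd_card_sub_one
  rw [h4, ZMod.card] at h
  have hp : p.Prime := Fact.out
  have := hp.two_le
  omega

private lemma qc_pow4 {p : ℕ} [Fact p.Prime] {χ : MulChar (ZMod p) GaussianInt}
    (h4 : orderOf χ = 4) {x : ZMod p} (hx : x ≠ 0) : χ x ^ 4 = 1 := by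
  have h : χ ^ 4 = 1 := by rw [← h4]; exact pow_orderOf_eq_one χ
  rw [← MulChar.pow_apply' χ (by norm_num : (4 : ℕ) ≠ 0), h, MulChar.one_apply hx.isUnit]

private lemma qc_four_ne {p : ℕ} [Fact p.Prime] (hp : p % 4 = 1) : (2 : ZMod p) ≠ 0 := by
  intro h
  have h2 : ((2 : ℕ) : ZMod p) = 0 := by exact_mod_cast h
  rw [ZMod.natCast_eq_zero_iff] at h2
  have hp' : p.Prime := Fact.out
  have := Nat.le_of_dvd (by norm_num) h2
  have := hp'.two_le
  have : p = 2 := by omega
  omega

private lemma qc_neg_one_sq {p : ℕ} [Fact p.Prime] (χ : MulChar (ZMod p) GaussianInt) :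
    χ (-1) * χ (-1) = 1 := by
  rw [← map_mul]
  simp

private lemma qc_four {p : ℕ} [Fact p.Prime] {χ : MulChar (ZMod p) GaussianInt}
    (h4 : orderOf χ = 4) : χ 4 = χ (-1) := by
  have hp := qc_mod h4
  have hsq : IsSquare (-1 : ZMod p) := by
    rw [ZMod.exists_sq_eq_neg_one_iff]
    omega
  obtain ⟨i, hi⟩ := hsq
  have h2 := qc_four_ne hp
  have hpow : (1 + i) ^ 4 = (-4 : ZMod p) := by
    have : (1 + i) ^ 4 = ((1 + i) * (1 + i)) * ((1 + i) * (1 + i)) := by ring
    have h2 : (1 + i) * (1 + i) = 2 * i := by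
      linear_combination -hi
    rw [this, h2]
    linear_combination -4 * hi
  have hne : (1 + i) ≠ 0 := by
    intro h
    rw [h] at hpow
    have : (2 : ZMod p) * 2 = 0 := by
      have : (0 : ZMod p) ^ 4 = 0 := by simp
      rw [this] at hpow
      linear_combination hpow
    rcases mul_eq_zero.mp this with h' | h' <;> exact h2 h'
  have h1 : χ (-4) = 1 := by
    rw [← hpow, map_pow, qc_pow4 h4 hne]
  have h3 : χ (-1) * χ 4 = 1 := by
    rw [← map_mul]
    have : (-1 : ZMod p) * 4 = -4 := by ring
    rw [this, h1]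
  have h5 := qc_neg_one_sq χ
  calc χ 4 = (χ (-1) * χ (-1)) * χ 4 := by rw [h5, one_mul]
    _ = χ (-1) * (χ (-1) * χ 4) := by ring
    _ = χ (-1) := by rw [h3, mul_one]

private lemma qc_neg_one {p : ℕ} [Fact p.Prime] (χ : MulChar (ZMod p) GaussianInt) :
    χ (-1) = 1 ∨ χ (-1) = -1 := by
  have h := qc_neg_one_sq χ
  have h' : (χ (-1) - 1) * (χ (-1) + 1) = 0 := by linear_combination h
  rcases mul_eq_zero.mp h' with h1 | h1
  · left; exact sub_eq_zero.mp h1
  · right; exact eq_neg_of_add_eq_zero_left h1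

private lemma qc_norm {p : ℕ} [Fact p.Prime] {χ : MulChar (ZMod p) GaussianInt}
    (h4 : orderOf χ = 4) : (jacobiSum χ χ).norm = p := by
  classical
  set f : GaussianInt →+* ℂ := GaussianInt.toComplex with hf
  have hinj : Function.Injective f := by
    intro x y hxy
    exact GaussianInt.toComplex_inj.mp hxy
  set χ' : MulChar (ZMod p) ℂ := χ.ringHomComp f with hχ'
  have h1 : χ' ≠ 1 := by
    rw [hχ', MulChar.ringHomComp_ne_one_iff hinj]
    intro h
    rw [h, orderOf_one] at h4
    omega
  have h2 : χ' * χ' ≠ 1 := by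
    rw [hχ', ← MulChar.ringHomComp_mul, MulChar.ringHomComp_ne_one_iff hinj]
    intro h
    have : χ ^ 2 = 1 := by rw [pow_two]; exact h
    have := orderOf_dvd_of_pow_eq_one this
    rw [h4] at this
    omega
  have hch : ringChar ℂ ≠ ringChar (ZMod p) := by
    rw [ZMod.ringChar_zmod_n, ringChar.eq_zero]
    have hp : p.Prime := Fact.out
    exact hp.ne_zero.symm
  have key := jacobiSum_mul_jacobiSum_inv hch h1 h1 h2
  have hstar : jacobiSum χ'⁻¹ χ'⁻¹ = (starRingEnd ℂ) (jacobiSum χ' χ') := by
    rw [← MulChar.star_eq_inv, jacobiSum, jacobiSum, map_sum]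
    refine Finset.sum_congr rfl fun x _ => ?_
    rw [MulChar.star_apply, MulChar.star_apply, map_mul]
    rfl
  rw [hstar, hχ', jacobiSum_ringHomComp, Complex.mul_conj, ZMod.card] at key
  have h3 : ((jacobiSum χ χ).norm : ℂ) = (p : ℂ) := by
    rw [← key, hf, GaussianInt.intCast_complex_norm]
  exact_mod_cast h3

private lemma qc_parity {p : ℕ} [Fact p.Prime] {χ : MulChar (ZMod p) GaussianInt}
    (h4 : orderOf χ = 4) : (jacobiSum χ χ).re % 2 = 1 := by
  classical
  have hp := qc_mod h4
  have h2 := qc_four_ne hp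
  set c : ZMod p := 1 / 2 with hc
  have hc2 : c + c = 1 := by
    rw [hc]; field_simp; norm_num
  have hcc : (4 : ZMod p) * (c * c) = 1 := by
    have : (4 : ZMod p) * (c * c) = (c + c) * (c + c) := by ring
    rw [this, hc2, one_mul]
  have hval : χ c * χ c = 1 ∨ χ c * χ c = -1 := by
    have h5 : χ 4 * (χ c * χ c) = 1 := by
      rw [← map_mul, ← map_mul, hcc, map_one]
    rw [qc_four h4] at h5
    rcases qc_neg_one χ with h | h
    · left; rw [h, one_mul] at h5; exact h5
    · right; rw [h] at h5; linear_combination -h5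
  have hre : ((χ c * χ c).re : ZMod 2) = 1 := by
    rcases hval with h | h
    · rw [h]; decide
    · rw [h]; decide
  have hsum : ((jacobiSum χ χ).re : ZMod 2) = ((χ c * χ c).re : ZMod 2) := by
    let g : GaussianInt →+ ZMod 2 :=
      { toFun := fun z => ((z.re : ℤ) : ZMod 2)
        map_zero' := by simp
        map_add' := by intro a b; simp }
    have e1 : ((jacobiSum χ χ).re : ZMod 2) = ∑ x : ZMod p, g (χ x * χ (1 - x)) := by
      rw [← map_sum]; rfl
    rw [e1, ← Finset.add_sum_erase _ _ (Finset.mem_univ c)]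
    have e2 : ∑ x ∈ (Finset.univ : Finset (ZMod p)).erase c, g (χ x * χ (1 - x)) = 0 := by
      refine Finset.sum_involution (fun x _ => 1 - x) ?_ ?_ ?_ ?_
      · intro x _
        have : χ (1 - x) * χ (1 - (1 - x)) = χ x * χ (1 - x) := by
          rw [sub_sub_cancel, mul_comm]
        rw [this]
        exact CharTwo.add_self_eq_zero _
      · intro x hx _ h
        apply (Finset.mem_erase.mp hx).1
        have h6 : x + x = 1 := by linear_combination -h
        have h7 : (2 : ZMod p) * (x - c) = 0 := by linear_combination h6 - hc2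
        rcases mul_eq_zero.mp h7 with h' | h'
        · exact absurd h' h2
        · exact sub_eq_zero.mp h'
      · intro x hx
        refine Finset.mem_erase.mpr ⟨?_, Finset.mem_univ _⟩
        intro h
        apply (Finset.mem_erase.mp hx).1
        linear_combination -hc2 - h
      · intro x _
        exact sub_sub_cancel _ _
    rw [e2, add_zero]
    have : 1 - c = c := by linear_combination -hc2
    rw [this]
    rfl
  rw [hre] at hsum
  have h8 : (((jacobiSum χ χ).re - 1 : ℤ) : ZMod 2) = 0 := by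
    push_cast
    rw [hsum, sub_self]
  rw [ZMod.intCast_zmod_eq_zero_iff_dvd] at h8
  norm_num at h8
  omega

/-- The norm and the parity of the Jacobi sum; the character of `4`. -/
theorem stQc : StQc := fun _ _ _ h4 => ⟨qc_norm h4, qc_parity h4, qc_four h4⟩

end MPb66c90
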