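import Pool.Agent.Lib.MP_b66c90_nt.SpecQ

/-!
# The Jacobi sum and the value in the conjecture
-/

namespace MPb66c90

open Finset

section castings

variable {p : ℕ} [hp : Fact p.Prime]

lemma cg_int_iff (m : ℕ) (a b : ℤ) : Cg p m (a : ℚ) (b : ℚ) ↔ ((p : ℤ) ^ m) ∣ a - b := by
  constructor
  · rintro ⟨z, ⟨c, d, hd, rfl⟩, h⟩
    have hd0 : (d : ℚ) ≠ 0 := by
      intro h'
      apply hd
      rw [Int.cast_eq_zero.1 h']
      exact dvd_zero _
    have h1 : ((a - b) * d : ℤ) = (p : ℤ) ^ m * c := by
      have : ((a : ℚ) - b) * d = (p : ℚ) ^ m * c := by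
        rw [h]
        field_simp
      exact_mod_cast this
    have hco : IsCoprime ((p : ℤ) ^ m) d := by
      apply IsCoprime.pow_left
      exact (Int.isCoprime_iff_gcd_eq_one.2 (by
        have := (Nat.Prime.coprime_iff_not_dvd hp.out (n := d.natAbs)).2
          (fun h => hd (Int.natCast_dvd.2 h))
        simpa [Int.gcd, Nat.Coprime] using this))
    exact hco.dvd_of_dvd_mul_right (Dvd.intro c h1.symm)
  · rintro ⟨c, hc⟩
    refine ⟨c, int_mem c, ?_⟩
    exact_mod_cast hc

lemma cg_two_iff_zmod (a b : ℤ) :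
    Cg p 2 (a : ℚ) (b : ℚ) ↔ ((a : ℤ) : ZMod (p ^ 2)) = (b : ZMod (p ^ 2)) := by
  rw [cg_int_iff, ← sub_eq_zero, ← Int.cast_sub, ZMod.intCast_zmod_eq_zero_iff_dvd]
  push_cast
  rfl

end castings

lemma sum_zmod_eq {R : Type*} [AddCommMonoid R] (p : ℕ) [NeZero p] (f : ZMod p → R) :
    ∑ x : ZMod p, f x = ∑ x ∈ range p, f (x : ZMod p) := by
  refine Finset.sum_nbij' (fun x => x.val) (fun n => (n : ZMod p)) ?_ ?_ ?_ ?_ ?_
  · intro x _
    exact mem_range.2 (ZMod.val_lt x)
  · intro n _
    exact mem_univ _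
  · intro x _
    exact ZMod.natCast_zmod_val x
  · intro n hn
    exact ZMod.val_cast_of_lt (mem_range.1 hn)
  · intro x _
    rw [ZMod.natCast_zmod_val]

/-- the values of a quartic character -/
lemma gauss_unit (u : GaussianInt) (hu : u ^ 4 = 1) :
    u = 1 ∨ u = -1 ∨ u = ⟨0, 1⟩ ∨ u = ⟨0, -1⟩ := by
  have h1 : u.norm ^ 4 = 1 := by
    have := congrArg Zsqrtd.norm hu
    rw [Zsqrtd.norm_one] at this
    have h2 : u ^ 4 = u * u * (u * u) := by ring
    rw [h2, Zsqrtd.norm_mul, Zsqrtd.norm_mul] at this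
    linear_combination this
  have h0 : 0 ≤ u.norm := GaussianInt.norm_nonneg u
  have h2 : u.norm = 1 := by
    rcases (by omega : u.norm = 0 ∨ u.norm = 1 ∨ 2 ≤ u.norm) with h | h | h
    · rw [h] at h1; norm_num at h1
    · exact h
    · exfalso
      have h3 : (2 : ℤ) ^ 4 ≤ u.norm ^ 4 := pow_le_pow_left₀ (by norm_num) h 4
      rw [h1] at h3
      norm_num at h3
  rw [Zsqrtd.norm_def] at h2
  have h3 : u.re * u.re + u.im * u.im = 1 := by linear_combination h2
  have hr : u.re ≤ 1 := by nlinarith
  have hr' : -1 ≤ u.re := by nlinarith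
  have hi : u.im ≤ 1 := by nlinarith
  have hi' : -1 ≤ u.im := by nlinarith
  obtain ⟨a, b⟩ := u
  simp only at *
  have ha : a = -1 ∨ a = 0 ∨ a = 1 := by omega
  have hb : b = -1 ∨ b = 0 ∨ b = 1 := by omega
  rcases ha with rfl | rfl | rfl <;> rcases hb with rfl | rfl | rfl <;>
    first
      | (exfalso; norm_num at h3; done)
      | (left; ext <;> simp; done)
      | (right; left; ext <;> simp; done)
      | (right; right; left; rfl)
      | (right; right; right; rfl)

theorem stQ (hQa : StQa) (hQb : StQb) (hQc : StQc) (hJ : StJ) : StQ := by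
  intro p k hp hpk
  have hk : 1 ≤ k := by
    rcases Nat.eq_zero_or_pos k with h | h
    · subst h
      exact absurd hp.out (by rw [hpk]; norm_num)
    · exact h
  have h5 : 5 ≤ p := by omega
  have h3p : ¬ p ∣ 3 := fun h => absurd (Nat.le_of_dvd (by norm_num) h) (by omega)
  have h2p : ¬ p ∣ 2 := fun h => absurd (Nat.le_of_dvd (by norm_num) h) (by omega)
  obtain ⟨χ, φ, hord, hφ⟩ := hQa p k hpk
  have hb := hQb p χ (by omega) hord
  obtain ⟨hnorm, hodd, hc4⟩ := hQc p χ hord
  set J := jacobiSum χ χ with hJd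
  -- the norm
  have hN : J.re ^ 2 + J.im ^ 2 = p := by
    rw [Zsqrtd.norm_def] at hnorm
    linear_combination hnorm
  refine ⟨J.re, J.im, hN, hodd, ?_⟩
  -- the sum
  set S : ℤ := ∑ x ∈ range p, (x : ℤ) ^ (3 * k * p) * ((p : ℤ) + 1 - x) ^ (3 * k * p) with hS
  have hSs : Ssum p k = (S : ℚ) := by
    unfold Ssum
    rw [hS]
    push_cast
    rfl
  have hphiJ : φ J = ((S : ℤ) : ZMod (p ^ 2)) := by
    rw [hJd, jacobiSum, map_sum, sum_zmod_eq, hS, Int.cast_sum]
    refine sum_congr rfl fun x hx => ?_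
    have hx' := mem_range.1 hx
    have e1 : (1 : ZMod p) - (x : ZMod p) = ((p + 1 - x : ℕ) : ZMod p) := by
      rw [Nat.cast_sub (by omega), Nat.cast_add, ZMod.natCast_self]
      push_cast
      ring
    rw [map_mul, e1, hφ, hφ, Nat.cast_sub (by omega)]
    push_cast
    rfl
  -- the sum is a unit
  have hSp : ¬ (p : ℤ) ∣ S := by
    intro h
    have hj := (hJ p k hpk).mono (show 1 ≤ 2 by norm_num)
    rw [hSs] at hj
    have h1 : Cg p 1 (S : ℚ) ((0 : ℤ) : ℚ) := by
      rw [cg_int_iff]
      simpa using h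
    have hδ : (harmonic (2 * k) - harmonic k) ∈ Zp p := by
      have hm : ∀ n : ℕ, n < p → harmonic n ∈ Zp p := by
        intro n hn
        unfold harmonic
        refine (Zp p).sum_mem fun i hi => ?_
        have hi' := mem_range.1 hi
        have := inv_nat_mem_of_lt (p := p) (i + 1) (by omega) (by omega)
        simpa using this
      exact (Zp p).sub_mem (hm _ (by omega)) (hm _ (by omega))
    have h2 : Cg p 1 (-(((2 * k).choose k : ℚ) *
        (1 - (p : ℚ) / 2 * (harmonic (2 * k) - harmonic k)))) (-(((2 * k).choose k : ℤ) : ℚ)) := by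
      have i2 := inv_nat_mem_of_lt (p := p) 2 (by norm_num) (by omega)
      refine ⟨((2 * k).choose k : ℚ) * (((2 : ℕ) : ℚ)⁻¹ * (harmonic (2 * k) - harmonic k)),
        (Zp p).mul_mem (nat_mem _) ((Zp p).mul_mem i2 hδ), ?_⟩
      push_cast
      ring
    have h3 := (hj.trans h2).symm.trans h1
    rw [← Int.cast_neg, cg_int_iff] at h3
    have h4 : (p : ℤ) ∣ (((2 * k).choose k : ℕ) : ℤ) := by
      simpa using h3
    have h5 : p ∣ (2 * k).choose k := by exact_mod_cast h4
    have h6 : p ∣ (2 * k).factorial := by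
      rw [← Nat.choose_mul_factorial_mul_factorial (show k ≤ 2 * k by omega)]
      exact Dvd.dvd.mul_right (Dvd.dvd.mul_right h5 _) _
    have := (hp.out.dvd_factorial).1 h6
    omega
  have hp2 : ((p : ZMod (p ^ 2))) ^ 2 = 0 := by
    have := ZMod.natCast_self (p ^ 2)
    rwa [Nat.cast_pow] at this
  have hSu : IsUnit ((S : ℤ) : ZMod (p ^ 2)) := by
    rw [ZMod.coe_int_isUnit_iff_isCoprime]
    push_cast
    refine IsCoprime.pow_left ?_
    exact (Int.isCoprime_iff_gcd_eq_one.2 (by
        have := (Nat.Prime.coprime_iff_not_dvd hp.out (n := S.natAbs)).2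
          (fun h => hSp (Int.natCast_dvd.2 h))
        simpa [Int.gcd, Nat.Coprime] using this))
  -- the element `i`
  set ι : ZMod (p ^ 2) := φ ⟨0, 1⟩ with hι
  have hι2 : ι ^ 2 = -1 := by
    rw [hι, ← map_pow]
    have : ((⟨0, 1⟩ : GaussianInt)) ^ 2 = -1 := by decide
    rw [this, map_neg, map_one]
  have hdec : ∀ w : GaussianInt, φ w = (w.re : ZMod (p ^ 2)) + (w.im : ZMod (p ^ 2)) * ι := by
    intro w
    have : w = (w.re : GaussianInt) + (w.im : GaussianInt) * ⟨0, 1⟩ := by
      ext <;> simp
    conv_lhs => rw [this]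
    rw [map_add, map_mul, map_intCast, map_intCast]
  set a : ZMod (p ^ 2) := (J.re : ZMod (p ^ 2)) with ha
  set b : ZMod (p ^ 2) := (J.im : ZMod (p ^ 2)) with hb'
  set s : ZMod (p ^ 2) := ((S : ℤ) : ZMod (p ^ 2)) with hs
  have hs1 : s = a + b * ι := by rw [← hphiJ, hdec]
  have hab : a ^ 2 + b ^ 2 = (p : ZMod (p ^ 2)) := by
    rw [ha, hb']
    have : (((J.re ^ 2 + J.im ^ 2 : ℤ)) : ZMod (p ^ 2)) = ((p : ℤ) : ZMod (p ^ 2)) := by rw [hN]
    push_cast at this
    exact this
  have ht : s * (a - b * ι) = (p : ZMod (p ^ 2)) := by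
    rw [hs1, ← hab]
    linear_combination (-(b ^ 2)) * hι2
  have ht2 : (a - b * ι) ^ 2 = 0 := by
    have h1 : s ^ 2 * (a - b * ι) ^ 2 = 0 := by
      rw [← mul_pow, ht, hp2]
    exact (hSu.pow 2).mul_right_eq_zero.1 h1
  have hs2 : s ^ 2 = 4 * (a * b) * ι := by
    rw [hs1]
    linear_combination ht2
  have hs2' : s ^ 2 = 4 * a ^ 2 - 2 * (p : ZMod (p ^ 2)) := by
    rw [hs1, ← hab]
    linear_combination (-1 : ZMod (p ^ 2)) * ht2 + 2 * b ^ 2 * hι2
  -- the unit
  set u : GaussianInt := χ 3 * χ (-1) with hu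
  have hχ4 : ∀ x : ZMod p, x ≠ 0 → χ x ^ 4 = 1 := by
    intro x hx
    have h1 : (χ ^ 4) x = 1 := by
      rw [← hord, pow_orderOf_eq_one]
      exact MulChar.one_apply (isUnit_iff_ne_zero.2 hx)
    rw [← h1, MulChar.pow_apply' χ (by norm_num)]
  have h30 : (3 : ZMod p) ≠ 0 := by
    intro h
    apply h3p
    rw [← ZMod.natCast_eq_zero_iff]
    exact_mod_cast h
  have hu4 : u ^ 4 = 1 := by
    rw [hu, mul_pow, hχ4 3 h30, hχ4 (-1) (neg_ne_zero.2 one_ne_zero), one_mul]
  have hphi3 : φ (χ 3) = (3 : ZMod (p ^ 2)) ^ (3 * k * p) := by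
    have := hφ 3
    push_cast at this
    exact this
  have hphi4 : φ (χ (-1)) = (4 : ZMod (p ^ 2)) ^ (3 * k * p) := by
    have := hφ 4
    push_cast at this
    rw [← hc4]
    exact this
  have htot : Nat.totient (p ^ 2) = 4 * k * p := by
    rw [Nat.totient_prime_pow hp.out (by norm_num)]
    rw [show p - 1 = 4 * k by omega]
    ring
  have hu3 : (3 : ZMod (p ^ 2)) ^ (4 * k * p) = 1 := by
    have hco : Nat.Coprime 3 (p ^ 2) :=
      Nat.Coprime.pow_right 2 ((Nat.coprime_comm.1
        ((Nat.Prime.coprime_iff_not_dvd hp.out).2 h3p)))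
    have := congrArg Units.val (ZMod.pow_totient (ZMod.unitOfCoprime 3 hco))
    rw [htot] at this
    simpa using this
  have hu2 : (2 : ZMod (p ^ 2)) ^ (4 * k * p) = 1 := by
    have hco : Nat.Coprime 2 (p ^ 2) :=
      Nat.Coprime.pow_right 2 ((Nat.coprime_comm.1
        ((Nat.Prime.coprime_iff_not_dvd hp.out).2 h2p)))
    have := congrArg Units.val (ZMod.pow_totient (ZMod.unitOfCoprime 2 hco))
    rw [htot] at this
    simpa using this
  have hphiu : (3 : ZMod (p ^ 2)) ^ (k * p) * φ u = 4 ^ (k * p) := by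
    rw [hu, map_mul, hphi3, hphi4]
    have e1 : (4 : ZMod (p ^ 2)) ^ (3 * k * p) = 2 ^ (4 * k * p) * 4 ^ (k * p) := by
      rw [show (4 : ZMod (p ^ 2)) = 2 ^ 2 by norm_num, ← pow_mul, ← pow_mul, ← pow_add]
      congr 1
      ring
    rw [e1, hu2, one_mul, ← mul_assoc, ← pow_add, show k * p + 3 * k * p = 4 * k * p by ring,
      hu3, one_mul]
  -- the value
  have hval : φ u * s ^ 2 = ((V p J.re J.im : ℤ) : ZMod (p ^ 2)) := by
    obtain ⟨w, hw⟩ := hb
    have hre : J.re ^ 2 - J.im ^ 2 - u.re = 3 * w.re := by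
      have := congrArg Zsqrtd.re hw
      simp [pow_two] at this
      linear_combination this
    have him : 2 * (J.re * J.im) - u.im = 3 * w.im := by
      have := congrArg Zsqrtd.im hw
      simp [pow_two] at this
      linear_combination this
    have hp3 : (p : ℤ) % 3 ≠ 0 := by
      intro h
      have : 3 ∣ p := by omega
      have := (Nat.prime_dvd_prime_iff_eq Nat.prime_three hp.out).1 this
      omega
    have sq3 : ∀ x : ℤ, (x % 3 = 0 → x ^ 2 % 3 = 0) ∧ (x % 3 ≠ 0 → x ^ 2 % 3 = 1) := by
      intro x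
      have hx : x % 3 = 0 ∨ x % 3 = 1 ∨ x % 3 = 2 := by omega
      rcases hx with h | h | h <;> refine ⟨fun h' => ?_, fun h' => ?_⟩ <;>
        first
          | (exfalso; omega)
          | (rw [pow_two, Int.mul_emod, h]; rfl)
    have hV1 : s ^ 2 = ((4 * J.re ^ 2 - 2 * p : ℤ) : ZMod (p ^ 2)) := by
      rw [hs2']
      push_cast
      rfl
    unfold V
    by_cases hbe : (3 : ℤ) ∣ J.im
    · rw [if_pos hbe, ← hV1]
      have h1 : J.im ^ 2 % 3 = 0 := (sq3 _).1 (by omega)
      have h2 : J.re % 3 ≠ 0 := by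
        intro h
        have := (sq3 _).1 h
        omega
      have h3 := (sq3 _).2 h2
      have h4 : (J.re * J.im) % 3 = 0 := by
        obtain ⟨t, ht⟩ := hbe
        rw [ht, show J.re * (3 * t) = 3 * (J.re * t) by ring]
        omega
      have hu1 : u = 1 := by
        rcases gauss_unit u hu4 with h | h | h | h
        · exact h
        · exfalso
          have hr : u.re = -1 := by rw [h]; rfl
          omega
        · exfalso
          have hr : u.re = 0 := by rw [h]
          omega
        · exfalso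
          have hr : u.re = 0 := by rw [h]
          omega
      rw [hu1, map_one, one_mul]
    · rw [if_neg hbe]
      have hb1 : J.im ^ 2 % 3 = 1 := (sq3 _).2 (by omega)
      by_cases hal : (3 : ℤ) ∣ J.re
      · rw [if_pos hal]
        have h1 : J.re ^ 2 % 3 = 0 := (sq3 _).1 (by omega)
        have hu1 : u = -1 := by
          rcases gauss_unit u hu4 with h | h | h | h
          · exfalso
            have hr : u.re = 1 := by rw [h]; rfl
            omega
          · exact h
          · exfalso
            have hr : u.re = 0 := by rw [h]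
            omega
          · exfalso
            have hr : u.re = 0 := by rw [h]
            omega
        rw [hu1, map_neg, map_one, hV1]
        push_cast
        ring
      · rw [if_neg hal]
        have ha1 : J.re ^ 2 % 3 = 1 := (sq3 _).2 (by omega)
        have hre0 : u.re % 3 = 0 := by omega
        have hV2 : s ^ 2 = 4 * (a * b) * ι := hs2
        split_ifs with hm
        · have hu1 : u = ⟨0, -1⟩ := by
            rcases gauss_unit u hu4 with h | h | h | h
            · exfalso
              have hr : u.re = 1 := by rw [h]; rfl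
              omega
            · exfalso
              have hr : u.re = -1 := by rw [h]; rfl
              omega
            · exfalso
              have hr : u.im = 1 := by rw [h]
              omega
            · exact h
          rw [hu1, hdec, hV2]
          push_cast
          linear_combination (-(4 * (a * b))) * hι2
        · have hm2 : (J.re * J.im) % 3 = 2 := by
            have h0 : (J.re * J.im) % 3 ≠ 0 := by
              intro h
              rcases Int.Prime.dvd_mul' Nat.prime_three (Int.dvd_of_emod_eq_zero h) with h | h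
              · exact hal h
              · exact hbe h
            omega
          have hu1 : u = ⟨0, 1⟩ := by
            rcases gauss_unit u hu4 with h | h | h | h
            · exfalso
              have hr : u.re = 1 := by rw [h]; rfl
              omega
            · exfalso
              have hr : u.re = -1 := by rw [h]; rfl
              omega
            · exact h
            · exfalso
              have hr : u.im = -1 := by rw [h]
              omega
          rw [hu1, hdec, hV2]
          push_cast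
          linear_combination ((4 * (a * b))) * hι2
  have hfin : (((4 : ℤ) ^ (k * p) * S ^ 2 : ℤ) : ZMod (p ^ 2))
      = (((3 : ℤ) ^ (k * p) * V p J.re J.im : ℤ) : ZMod (p ^ 2)) := by
    push_cast
    rw [← hval, ← mul_assoc, hphiu]
  rw [← cg_two_iff_zmod] at hfin
  have i3 : ((((3 : ℚ)) ^ (k * p)))⁻¹ ∈ Zp p := by
    rw [← inv_pow]
    refine (Zp p).pow_mem ?_ _
    have := inv_nat_mem (p := p) 3 h3p
    simpa using this
  have h1 := hfin.mul_left _ i3
  rw [hSs]
  push_cast at h1
  rw [← mul_assoc, ← mul_assoc, inv_mul_cancel₀ (pow_ne_zero _ (by norm_num)), one_mul] at h1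
  rw [div_pow, div_eq_mul_inv, mul_comm ((4 : ℚ) ^ (k * p))]
  exact h1

end MPb66c90
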