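import Pool.Agent.Lib.MP_b66c90_nt.Spec

/-!
# Statements of the steps about Jacobi sums
-/

namespace MPb66c90

open Finset

/-- Power sums of the numbers `x ^ p` modulo `p ^ 2`. -/
def StJa : Prop := ∀ (p e : ℕ) [Fact p.Prime], 1 ≤ e →
  Cg p 2 (∑ x ∈ range p, (x : ℚ) ^ (p * e)) (if p - 1 ∣ e then (p : ℚ) - 1 else 0)

/-- A sum modulo `p`. -/
def StJb : Prop := ∀ (p k : ℕ) [Fact p.Prime], p = 4 * k + 1 →
  Cg p 1 (∑ x ∈ range p, (x : ℚ) ^ (3 * k) * ((p : ℚ) + 1 - x) ^ (3 * k - 1) *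
      ∑ j ∈ Ico 1 p, (x : ℚ) ^ j / j)
    (-((2 * k).choose k / (k + 1) * ((2 * k + 1) * (harmonic (2 * k) - harmonic k) + 1)))

/-- Existence of a quartic character and of a compatible ring homomorphism. -/
def StQa : Prop := ∀ (p k : ℕ) [Fact p.Prime], p = 4 * k + 1 →
  ∃ (χ : MulChar (ZMod p) GaussianInt) (φ : GaussianInt →+* ZMod (p ^ 2)),
    orderOf χ = 4 ∧ ∀ x : ℕ, φ (χ (x : ZMod p)) = (x : ZMod (p ^ 2)) ^ (3 * k * p)

/-- The quartic character of `3`. -/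
def StQb : Prop := ∀ (p : ℕ) [Fact p.Prime] (χ : MulChar (ZMod p) GaussianInt),
  p ≠ 3 → orderOf χ = 4 → (3 : GaussianInt) ∣ jacobiSum χ χ ^ 2 - χ 3 * χ (-1)

/-- The norm and the parity of the Jacobi sum; the character of `4`. -/
def StQc : Prop := ∀ (p : ℕ) [Fact p.Prime] (χ : MulChar (ZMod p) GaussianInt),
  orderOf χ = 4 → (jacobiSum χ χ).norm = p ∧ (jacobiSum χ χ).re % 2 = 1 ∧ χ 4 = χ (-1)

end MPb66c90
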